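import Mathlib

namespace Pool.Agent.Lib.MP_7cecc1_co.Kernel

open Finset Real

/-- The mean of `sin ((2 l + 1) φ)` over `l < n`. -/
theorem sum_sin_odd (n : ℕ) (φ : ℝ) :
    (∑ l ∈ range n, sin ((2 * l + 1) * φ)) * sin φ = sin (n * φ) ^ 2 := by
  induction n with
  | zero => simp
  | succ n ih =>
    rw [Finset.sum_range_succ, add_mul, ih]
    have h1 : sin (((n + 1 : ℕ) : ℝ) * φ) = sin (n * φ) * cos φ + cos (n * φ) * sin φ := by
      rw [← sin_add]; congr 1; push_cast; ring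
    have h2 : sin ((2 * (n : ℝ) + 1) * φ) = 2 * sin (n * φ) * cos (n * φ) * cos φ +
        (2 * cos (n * φ) ^ 2 - 1) * sin φ := by
      rw [show (2 * (n : ℝ) + 1) * φ = 2 * (n * φ) + φ by ring, sin_add, sin_two_mul, cos_two_mul]
    rw [h1, h2]
    have h3 := sin_sq_add_cos_sq (n * φ)
    have h4 := sin_sq_add_cos_sq φ
    have h5 : sin (n * φ) ^ 2 = 1 - cos (n * φ) ^ 2 := by linarith
    have h6 : cos φ ^ 2 = 1 - sin φ ^ 2 := by linarith
    ring_nf
    rw [h6]
    nlinarith [h3, h4]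

/-- One step of the derandomisation. -/
theorem one_step {τ : Type} (T : Finset τ) (c : τ → ℝ) (hc : ∀ t ∈ T, 0 ≤ c t) (n : ℕ) (hn : 0 < n)
    (X : ℕ → τ → ℝ) (hX : ∀ l t, |X l t| ≤ 1) (η : ℝ) (h0 : 0 ≤ η) (h1 : η ≤ 1 / 2)
    (μ : τ → ℝ) (hμ : ∀ t, μ t = (∑ l ∈ range n, X l t) / n) :
    ∃ l < n, ∑ t ∈ T, c t * exp (-η * (X l t - μ t)) ≤ exp (η ^ 2) * ∑ t ∈ T, c t := by
  have hn' : (0 : ℝ) < n := by exact_mod_cast hn
  have hμ1 : ∀ t, |μ t| ≤ 1 := by
    intro t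
    rw [hμ, abs_div, abs_of_pos hn', div_le_one hn']
    refine (abs_sum_le_sum_abs _ _).trans ?_
    refine (Finset.sum_le_sum fun l _ => hX l t).trans ?_
    simp
  -- bound for the average
  have key : ∀ t, ∑ l ∈ range n, exp (-η * (X l t - μ t)) ≤ n * exp (η ^ 2) := by
    intro t
    have hb : ∀ l, exp (-η * (X l t - μ t)) ≤
        1 + (-η * (X l t - μ t)) + (-η * (X l t - μ t)) ^ 2 := by
      intro l
      have hle : |-η * (X l t - μ t)| ≤ 1 := by
        rw [abs_mul, abs_neg, abs_of_nonneg h0]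
        have : |X l t - μ t| ≤ 2 := by
          have := abs_sub (X l t) (μ t)
          have := hX l t
          have := hμ1 t
          linarith
        have h3 := abs_nonneg (X l t - μ t)
        nlinarith
      have := abs_le.mp (Real.abs_exp_sub_one_sub_id_le hle)
      linarith [this.2]
    refine (Finset.sum_le_sum fun l _ => hb l).trans ?_
    have hsum : ∑ l ∈ range n, X l t = n * μ t := by rw [hμ]; field_simp
    have hs : ∑ l ∈ range n, (1 + (-η * (X l t - μ t)) + (-η * (X l t - μ t)) ^ 2) =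
        n + η ^ 2 * (∑ l ∈ range n, X l t ^ 2 - n * μ t ^ 2) := by
      have e1 : ∀ l, (1 + (-η * (X l t - μ t)) + (-η * (X l t - μ t)) ^ 2) =
          (1 + η * μ t + η ^ 2 * μ t ^ 2) + (- η - 2 * η ^ 2 * μ t) * X l t + η ^ 2 * X l t ^ 2 := by
        intro l; ring
      simp only [e1, Finset.sum_add_distrib, ← Finset.mul_sum, hsum, Finset.sum_const, card_range,
        nsmul_eq_mul]
      ring
    rw [hs]
    have hsq : ∑ l ∈ range n, X l t ^ 2 ≤ n := by
      refine (Finset.sum_le_sum fun l _ => (by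
        have := hX l t
        rw [← sq_abs]
        have h3 := abs_nonneg (X l t)
        nlinarith : X l t ^ 2 ≤ 1)).trans ?_
      simp
    have he : 1 + η ^ 2 ≤ exp (η ^ 2) := by
      have := Real.add_one_le_exp (η ^ 2)
      linarith
    have h5 : 0 ≤ η ^ 2 := sq_nonneg _
    have h6 : 0 ≤ (n : ℝ) * μ t ^ 2 := by positivity
    nlinarith
  by_contra hcon
  push Not at hcon
  have hlt : ∑ l ∈ range n, (exp (η ^ 2) * ∑ t ∈ T, c t) <
      ∑ l ∈ range n, ∑ t ∈ T, c t * exp (-η * (X l t - μ t)) := by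
    refine Finset.sum_lt_sum_of_nonempty ⟨0, by simpa using hn⟩ fun l hl => hcon l ?_
    simpa using hl
  rw [Finset.sum_comm] at hlt
  have hle : ∑ t ∈ T, ∑ l ∈ range n, c t * exp (-η * (X l t - μ t)) ≤
      ∑ t ∈ T, c t * (n * exp (η ^ 2)) := by
    refine Finset.sum_le_sum fun t ht => ?_
    rw [← Finset.mul_sum]
    exact mul_le_mul_of_nonneg_left (key t) (hc t ht)
  rw [← Finset.sum_mul] at hle
  simp only [Finset.sum_const, card_range, nsmul_eq_mul] at hlt
  linarith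

/-- Choosing the lengths one after another. -/
theorem choose_seq {τ : Type} (T : Finset τ) (K : ℕ) (n : ℕ → ℕ) (hn : ∀ k, 0 < n k)
    (X : ℕ → τ → ℝ) (hX : ∀ l t, |X l t| ≤ 1) (η : ℝ) (h0 : 0 ≤ η) (h1 : η ≤ 1 / 2)
    (μ : ℕ → τ → ℝ) (hμ : ∀ k t, μ k t = (∑ l ∈ range (n k), X l t) / n k) :
    ∃ ℓ : ℕ → ℕ, (∀ k, ℓ k < n k) ∧
      ∑ t ∈ T, exp (-η * ∑ k ∈ range K, (X (ℓ k) t - μ k t)) ≤ T.card * exp (K * η ^ 2) := by
  induction K with
  | zero => exact ⟨fun _ => 0, hn, by simp⟩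
  | succ K ih =>
    obtain ⟨ℓ, hℓ, hs⟩ := ih
    obtain ⟨l, hl, hs'⟩ := one_step T (fun t => exp (-η * ∑ k ∈ range K, (X (ℓ k) t - μ k t)))
      (fun t _ => (exp_pos _).le) (n K) (hn K) X hX η h0 h1 (μ K) (hμ K)
    refine ⟨fun k => if k = K then l else ℓ k, ?_, ?_⟩
    · intro k
      by_cases h : k = K
      · subst h; simpa using hl
      · simpa [h] using hℓ k
    · have e1 : ∀ t, exp (-η * ∑ k ∈ range (K + 1), (X (if k = K then l else ℓ k) t - μ k t)) =
          exp (-η * ∑ k ∈ range K, (X (ℓ k) t - μ k t)) * exp (-η * (X l t - μ K t)) := by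
        intro t
        rw [← exp_add, Finset.sum_range_succ, if_pos rfl]
        have : ∑ k ∈ range K, (X (if k = K then l else ℓ k) t - μ k t) =
            ∑ k ∈ range K, (X (ℓ k) t - μ k t) := by
          refine Finset.sum_congr rfl fun k hk => ?_
          have : k ≠ K := by have := mem_range.mp hk; omega
          rw [if_neg this]
        rw [this]
        congr 1
        ring
      rw [Finset.sum_congr rfl fun t _ => e1 t]
      refine hs'.trans ?_
      have e2 : exp (((K + 1 : ℕ) : ℝ) * η ^ 2) = exp (η ^ 2) * exp (K * η ^ 2) := by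
        rw [← exp_add]; congr 1; push_cast; ring
      rw [e2]
      have := exp_pos (η ^ 2)
      nlinarith

theorem sin_refl (l : ℕ) (φ : ℝ) : sin ((2 * l + 1) * (π - φ)) = sin ((2 * l + 1) * φ) := by
  have : (2 * (l : ℝ) + 1) * (π - φ) = (π - (2 * l + 1) * φ) + (l : ℝ) * (2 * π) := by ring
  rw [this, sin_add_nat_mul_two_pi, sin_pi_sub]

theorem mean_nonneg (n : ℕ) (φ : ℝ) (h0 : 0 < φ) (h1 : φ < π) :
    0 ≤ (∑ l ∈ range n, sin ((2 * l + 1) * φ)) / n := by
  have hs : 0 < sin φ := sin_pos_of_pos_of_lt_pi h0 h1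
  refine div_nonneg ?_ (Nat.cast_nonneg n)
  by_contra h
  push Not at h
  have h3 := mul_neg_of_neg_of_pos h hs
  rw [sum_sin_odd] at h3
  exact absurd h3 (not_lt.mpr (sq_nonneg _))

theorem mean_ge' (r : ℕ) (φ : ℝ) (h0 : π / (2 * 4 ^ r + 1) < φ) (h1 : φ ≤ π / 2) :
    ∃ s ≤ 2 * r, 1 / 4 ≤ (∑ l ∈ range (2 ^ s), sin ((2 * l + 1) * φ)) / (2 ^ s : ℕ) := by
  have hφ : 0 < φ := lt_trans (by positivity) h0
  have hx : 1 ≤ π / 2 / φ := by rw [le_div_iff₀ hφ]; linarith
  obtain ⟨s, hs1, hs2⟩ := exists_nat_pow_near hx (by norm_num : (1 : ℝ) < 2)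
  rw [le_div_iff₀ hφ] at hs1
  rw [div_lt_iff₀ hφ] at hs2
  refine ⟨s, ?_, ?_⟩
  · by_contra hcon
    push Not at hcon
    have h2 : (2 : ℝ) ^ (2 * r + 1) ≤ 2 ^ s := pow_le_pow_right₀ (by norm_num) hcon
    have h3 : (2 : ℝ) ^ (2 * r + 1) = 2 * 4 ^ r := by
      rw [pow_succ, pow_mul]; norm_num; ring
    rw [h3] at h2
    rw [div_lt_iff₀ (by positivity)] at h0
    have h4 : (1 : ℝ) ≤ 4 ^ r := one_le_pow₀ (by norm_num)
    have : φ * (2 * 4 ^ r + 1) ≤ φ * (2 * (2 * 4 ^ r)) := by nlinarith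
    nlinarith [pi_pos]
  · have hsinφ : 0 < sin φ := sin_pos_of_pos_of_lt_pi hφ (by linarith [pi_pos])
    have hsinle : sin φ ≤ φ := (sin_lt hφ).le
    have hid := sum_sin_odd (2 ^ s) φ
    have hc : (((2 ^ s : ℕ) : ℝ)) = 2 ^ s := by push_cast; ring
    rw [hc] at hid ⊢
    have hlow : 1 / 2 ≤ sin (2 ^ s * φ) ^ 2 := by
      have hge : π / 4 ≤ 2 ^ s * φ := by
        rw [pow_succ] at hs2
        linarith
      have h5 : sin (π / 4) ≤ sin (2 ^ s * φ) :=
        sin_le_sin_of_le_of_le_pi_div_two (by linarith [pi_pos]) hs1 hge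
      have h6 : sin (π / 4) ^ 2 = 1 / 2 := by
        rw [sin_pi_div_four, div_pow, sq_sqrt (by norm_num)]; norm_num
      have h7 : 0 ≤ sin (π / 4) := by rw [sin_pi_div_four]; positivity
      rw [← h6]
      exact pow_le_pow_left₀ h7 h5 2
    obtain ⟨S, hS⟩ : ∃ S, S = ∑ l ∈ range (2 ^ s), sin ((2 * l + 1) * φ) := ⟨_, rfl⟩
    rw [← hS] at hid ⊢
    have hSpos : 0 < S := by
      by_contra h
      push Not at h
      have := mul_nonpos_of_nonpos_of_nonneg h hsinφ.le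
      linarith
    have h2s : (0 : ℝ) < 2 ^ s := by positivity
    have h8 : 1 / 2 ≤ S * φ := by
      have := mul_le_mul_of_nonneg_left hsinle hSpos.le
      linarith
    rw [div_le_div_iff₀ (by norm_num) h2s]
    have h9 : π < 4 := by linarith [pi_lt_d2]
    -- S * φ ≥ 1/2 and 2^s φ ≤ π/2 < 2
    have h10 : 2 ^ s * φ ≤ 4 * (S * φ) := by linarith
    have h11 : 2 ^ s * φ ≤ (4 * S) * φ := by linarith
    have h12 := le_of_mul_le_mul_right h11 hφ
    linarith

theorem mean_ge (r : ℕ) (φ : ℝ) (h0 : π / (2 * 4 ^ r + 1) < φ) (h1 : φ < π - π / (2 * 4 ^ r + 1)) :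
    ∃ s ≤ 2 * r, 1 / 4 ≤ (∑ l ∈ range (2 ^ s), sin ((2 * l + 1) * φ)) / (2 ^ s : ℕ) := by
  rcases le_or_gt φ (π / 2) with h | h
  · exact mean_ge' r φ h0 h
  · obtain ⟨s, hs, hs'⟩ := mean_ge' r (π - φ) (by linarith) (by linarith)
    refine ⟨s, hs, ?_⟩
    simp only [sin_refl] at hs'
    exact hs'

theorem sum_mod (g : ℕ → ℝ) (R P : ℕ) :
    ∑ k ∈ range (P * R), g (k % R) = P * ∑ s ∈ range R, g s := by
  induction P with
  | zero => simp
  | succ P ih =>
    rw [Nat.succ_mul, Finset.sum_range_add, ih]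
    have : ∑ x ∈ range R, g ((P * R + x) % R) = ∑ x ∈ range R, g x := by
      refine Finset.sum_congr rfl fun x hx => ?_
      rw [Nat.mul_comm, Nat.mul_add_mod, Nat.mod_eq_of_lt (mem_range.mp hx)]
    rw [this]
    push_cast
    ring

theorem q_le_exp (r : ℕ) : (16 : ℝ) * 8 ^ r ≤ exp (3 * r + 3) := by
  have h1 : (16 : ℝ) ≤ exp 3 := by
    have : exp 3 = exp 1 ^ 3 := by rw [← exp_nat_mul]; norm_num
    rw [this]
    have h2 := Real.exp_one_gt_d9
    have h3 : (2.7 : ℝ) ^ 3 ≤ exp 1 ^ 3 := pow_le_pow_left₀ (by norm_num) (by linarith) 3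
    refine le_trans ?_ h3
    norm_num
  have h2 : (8 : ℝ) ^ r ≤ exp (3 * r) := by
    have : exp (3 * (r : ℝ)) = exp 3 ^ r := by rw [← exp_nat_mul]; congr 1; ring
    rw [this]
    exact pow_le_pow_left₀ (by norm_num) (by linarith) r
  rw [exp_add, mul_comm (exp (3 * (r : ℝ)))]
  exact mul_le_mul h1 h2 (by positivity) (by positivity)

/-- The window lengths: a sum of few Dirichlet kernels that is non-negative. -/
theorem kernel (r : ℕ) : ∃ (M : ℕ) (ℓ : ℕ → ℕ), (M : ℝ) ≤ 4000 * ((r : ℝ) + 1) ^ 3 ∧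
    (∀ k, ℓ k ≤ 4 ^ r) ∧ (∃ k < M, ℓ k = 4 ^ r) ∧
    ∀ t : ℕ, 0 < t → t < 16 * 8 ^ r →
      0 ≤ ∑ k ∈ range M, sin ((2 * ℓ k + 1) * (π * t / (16 * 8 ^ r))) := by
  obtain ⟨R, hR⟩ : ∃ R : ℕ, R = 2 * r + 1 := ⟨_, rfl⟩
  obtain ⟨P, hP⟩ : ∃ P : ℕ, P = 768 * (R * (r + 1)) := ⟨_, rfl⟩
  set φ : ℕ → ℝ := fun t => π * t / (16 * 8 ^ r) with hφ
  have hRpos : (0 : ℝ) < R := by rw [hR]; positivity
  set η : ℝ := 1 / (16 * R) with hη
  have hR1 : (1 : ℝ) ≤ R := by rw [hR]; push_cast; linarith [(Nat.cast_nonneg r : (0 : ℝ) ≤ r)]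
  have hη0 : 0 < η := by rw [hη]; positivity
  have hη1 : η ≤ 1 / 2 := by
    rw [hη, div_le_div_iff₀ (by positivity) (by norm_num)]; linarith
  obtain ⟨ℓ, hℓ, hsum⟩ := choose_seq (Ico 1 (16 * 8 ^ r)) (P * R) (fun k => 2 ^ (k % R))
    (fun k => by positivity) (fun l t => sin ((2 * l + 1) * φ t)) (fun l t => abs_sin_le_one _)
    η hη0.le hη1 (fun k t => (∑ l ∈ range (2 ^ (k % R)), sin ((2 * l + 1) * φ t)) / (2 ^ (k % R) : ℕ))
    (fun k t => rfl)
  have hℓle : ∀ k, ℓ k ≤ 4 ^ r := by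
    intro k
    have h1 := hℓ k
    have h2 : k % R < R := Nat.mod_lt _ (by omega)
    have h3 : 2 ^ (k % R) ≤ 2 ^ (2 * r) := Nat.pow_le_pow_right (by norm_num) (by omega)
    rw [pow_mul] at h3
    norm_num at h3
    omega
  refine ⟨P * R + 1, fun k => if k = P * R then 4 ^ r else ℓ k, ?_, ?_, ⟨P * R, by omega, by simp⟩, ?_⟩
  · rw [hP, hR]
    push_cast
    have : (0 : ℝ) ≤ r := Nat.cast_nonneg r
    nlinarith [pow_nonneg this 2, pow_nonneg this 3]
  · intro k
    by_cases h : k = P * R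
    · simp [h]
    · simpa [h] using hℓle k
  · intro t ht0 ht1
    have hsplit : ∑ k ∈ range (P * R + 1), sin ((2 * ((if k = P * R then 4 ^ r else ℓ k : ℕ) : ℝ) + 1) *
        (π * t / (16 * 8 ^ r))) =
        ∑ k ∈ range (P * R), sin ((2 * ℓ k + 1) * φ t) + sin ((2 * 4 ^ r + 1) * φ t) := by
      rw [Finset.sum_range_succ, if_pos rfl]
      congr 1
      · refine Finset.sum_congr rfl fun k hk => ?_
        have : k ≠ P * R := by have := mem_range.mp hk; omega
        rw [if_neg this]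
      · push_cast; rfl
    rw [hsplit]
    have h8 : (0 : ℝ) < 16 * 8 ^ r := by positivity
    have ht0' : (0 : ℝ) < t := by exact_mod_cast ht0
    have ht1' : (t : ℝ) < 16 * 8 ^ r := by exact_mod_cast ht1
    have hφ0 : 0 < φ t := by simp only [hφ]; positivity
    have hφ1 : φ t < π := by
      simp only [hφ]
      rw [div_lt_iff₀ h8]
      exact mul_lt_mul_of_pos_left ht1' pi_pos
    -- the small range
    have small : ∀ ψ : ℝ, 0 < ψ → ψ ≤ π / (2 * 4 ^ r + 1) →
        0 ≤ ∑ k ∈ range (P * R), sin ((2 * ℓ k + 1) * ψ) + sin ((2 * 4 ^ r + 1) * ψ) := by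
      intro ψ h0 h1
      rw [le_div_iff₀ (by positivity)] at h1
      have h2 : ∀ l : ℕ, l ≤ 4 ^ r → 0 ≤ sin ((2 * l + 1) * ψ) := by
        intro l hl
        have hl' : (l : ℝ) ≤ 4 ^ r := by exact_mod_cast hl
        refine sin_nonneg_of_nonneg_of_le_pi (by positivity) ?_
        nlinarith
      have h3 := h2 (4 ^ r) le_rfl
      push_cast at h3
      exact add_nonneg (Finset.sum_nonneg fun k _ => h2 _ (hℓle k)) h3
    rcases le_or_gt (φ t) (π / (2 * 4 ^ r + 1)) with hc | hc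
    · exact small _ hφ0 hc
    rcases le_or_gt (π - π / (2 * 4 ^ r + 1)) (φ t) with hc' | hc'
    · have := small (π - φ t) (by linarith) (by linarith)
      have e1 : sin ((2 * 4 ^ r + 1) * (π - φ t)) = sin ((2 * 4 ^ r + 1) * φ t) := by
        have := sin_refl (4 ^ r) (φ t)
        push_cast at this
        exact this
      simp only [sin_refl, e1] at this
      exact this
    · obtain ⟨s, hs, hs'⟩ := mean_ge r (φ t) hc hc'
      -- the sum of the means
      have hmu : (P : ℝ) / 4 ≤ ∑ k ∈ range (P * R),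
          (∑ l ∈ range (2 ^ (k % R)), sin ((2 * l + 1) * φ t)) / (2 ^ (k % R) : ℕ) := by
        rw [sum_mod (fun s => (∑ l ∈ range (2 ^ s), sin ((2 * l + 1) * φ t)) / (2 ^ s : ℕ)) R P]
        have h1 : (∑ l ∈ range (2 ^ s), sin ((2 * l + 1) * φ t)) / (2 ^ s : ℕ) ≤
            ∑ s ∈ range R, (∑ l ∈ range (2 ^ s), sin ((2 * l + 1) * φ t)) / (2 ^ s : ℕ) := by
          refine Finset.single_le_sum
            (f := fun s => (∑ l ∈ range (2 ^ s), sin ((2 * l + 1) * φ t)) / (2 ^ s : ℕ)) ?_ ?_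
          · intro i _
            exact mean_nonneg _ _ hφ0 hφ1
          · rw [mem_range]; omega
        have h2 : (0 : ℝ) ≤ P := Nat.cast_nonneg _
        nlinarith
      have hterm : exp (-η * ∑ k ∈ range (P * R), (sin ((2 * ℓ k + 1) * φ t) -
          (∑ l ∈ range (2 ^ (k % R)), sin ((2 * l + 1) * φ t)) / (2 ^ (k % R) : ℕ))) ≤
          exp (3 * r + 3) * exp ((P * R : ℕ) * η ^ 2) := by
        refine le_trans ?_ (hsum.trans ?_)
        · exact Finset.single_le_sum (f := fun t => exp (-η * ∑ k ∈ range (P * R),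
            (sin ((2 * ℓ k + 1) * φ t) -
            (∑ l ∈ range (2 ^ (k % R)), sin ((2 * l + 1) * φ t)) / (2 ^ (k % R) : ℕ))))
            (fun _ _ => (exp_pos _).le) (mem_Ico.mpr ⟨ht0, ht1⟩)
        · refine mul_le_mul_of_nonneg_right ?_ (exp_pos _).le
          refine le_trans ?_ (q_le_exp r)
          rw [Nat.card_Ico]
          have : ((16 * 8 ^ r - 1 : ℕ) : ℝ) ≤ ((16 * 8 ^ r : ℕ) : ℝ) := by
            exact_mod_cast Nat.sub_le _ _
          refine this.trans (le_of_eq ?_)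
          push_cast
          ring
      rw [← exp_add, exp_le_exp, Finset.sum_sub_distrib] at hterm
      have hPR : ((P * R : ℕ) : ℝ) * η ^ 2 = P / (256 * R) := by
        rw [hη]; push_cast; field_simp; norm_num
      rw [hPR] at hterm
      set A := ∑ k ∈ range (P * R), sin ((2 * ℓ k + 1) * φ t) with hA
      set B := ∑ k ∈ range (P * R),
          (∑ l ∈ range (2 ^ (k % R)), sin ((2 * l + 1) * φ t)) / (2 ^ (k % R) : ℕ) with hB
      have hPval : (P : ℝ) = 768 * (R * (r + 1)) := by rw [hP]; push_cast; ring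
      have h5 : -(A - B) ≤ (3 * r + 3 + P / (256 * R)) * (16 * R) := by
        have h6 : -η * (A - B) * (16 * R) ≤ (3 * r + 3 + P / (256 * R)) * (16 * R) :=
          mul_le_mul_of_nonneg_right hterm (by positivity)
        have h7 : -η * (A - B) * (16 * R) = -(A - B) := by
          rw [hη]; field_simp
        rw [h7] at h6
        exact h6
      have h6 : (3 * (r : ℝ) + 3 + P / (256 * R)) * (16 * R) = P / 8 := by
        rw [hPval]; field_simp; ring
      rw [h6] at h5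
      have h7 : -1 ≤ sin ((2 * 4 ^ r + 1) * φ t) := neg_one_le_sin _
      have h9 : (768 : ℝ) ≤ P := by
        rw [hPval]
        have : (1 : ℝ) ≤ r + 1 := by linarith [(Nat.cast_nonneg r : (0 : ℝ) ≤ r)]
        nlinarith
      linarith

end Pool.Agent.Lib.MP_7cecc1_co.Kernel
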