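import Mathlib

namespace Pool.Agent.Lib.MP_7cecc1_co.PSD

open Finset Real

/-- Orthogonality on the cyclic group of order `q`. -/
theorem cos_sum (q : ℕ) (hq : 0 < q) (j : ℤ) :
    ∑ t ∈ range q, cos (2 * j * (π * t / q)) = if (q : ℤ) ∣ j then (q : ℝ) else 0 := by
  have hq' : (q : ℝ) ≠ 0 := by exact_mod_cast hq.ne'
  split_ifs with h
  · obtain ⟨d, hd⟩ := h
    have : ∀ t ∈ range q, cos (2 * j * (π * t / q)) = 1 := by
      intro t _
      have e : 2 * (j : ℝ) * (π * t / q) = ((d * t : ℤ) : ℝ) * (2 * π) := by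
        rw [hd]; push_cast; field_simp
      rw [e, cos_int_mul_two_pi]
    rw [Finset.sum_congr rfl this]
    simp
  · set a : ℝ := π * j / q with ha
    have hsin : sin a ≠ 0 := by
      intro h0
      rw [sin_eq_zero_iff] at h0
      obtain ⟨n, hn⟩ := h0
      apply h
      refine ⟨n, ?_⟩
      have : (n : ℝ) * q = j := by
        have h1 : (n : ℝ) * π = π * j / q := by rw [hn]
        field_simp at h1
        nlinarith [pi_pos]
      have h2 : ((n * q : ℤ) : ℝ) = (j : ℝ) := by push_cast; exact this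
      have h3 : n * (q : ℤ) = j := by exact_mod_cast h2
      rw [← h3]; ring
    have htel : ∀ n : ℕ, (∑ t ∈ range n, cos (2 * j * (π * t / q))) * (2 * sin a) =
        sin ((2 * n - 1) * a) + sin a := by
      intro n
      induction n with
      | zero =>
        simp only [range_zero, sum_empty, zero_mul, CharP.cast_eq_zero, mul_zero, zero_sub]
        rw [show -1 * a = -a by ring, sin_neg]
        ring
      | succ n ih =>
        rw [Finset.sum_range_succ, add_mul, ih]
        have e1 : 2 * (j : ℝ) * (π * n / q) = 2 * n * a := by rw [ha]; field_simp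
        have e2 : (2 * ((n + 1 : ℕ) : ℝ) - 1) * a = 2 * n * a + a := by push_cast; ring
        have e3 : (2 * (n : ℝ) - 1) * a = 2 * n * a - a := by ring
        rw [e1, e2, e3, sin_add, sin_sub]
        ring
    have h1 := htel q
    have e4 : (2 * (q : ℝ) - 1) * a = -a + (j : ℝ) * (2 * π) := by rw [ha]; field_simp; ring
    rw [e4, sin_add_int_mul_two_pi, sin_neg, neg_add_cancel] at h1
    rcases mul_eq_zero.mp h1 with h2 | h2
    · exact h2
    · exact absurd (by linarith : sin a = 0) hsin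

/-- The Dirichlet kernel. -/
noncomputable def D (ℓ : ℕ) (φ : ℝ) : ℝ := ∑ i ∈ Icc (-(ℓ : ℤ)) ℓ, cos (2 * i * φ)

theorem D_mul_sin (ℓ : ℕ) (φ : ℝ) : D ℓ φ * sin φ = sin ((2 * ℓ + 1) * φ) := by
  induction ℓ with
  | zero => simp [D]
  | succ n ih =>
    have hset : Icc (-((n + 1 : ℕ) : ℤ)) ((n + 1 : ℕ) : ℤ) =
        insert (-((n : ℤ) + 1)) (insert ((n : ℤ) + 1) (Icc (-(n : ℤ)) n)) := by
      ext i
      simp only [mem_Icc, mem_insert]
      push_cast
      omega
    have hD : D (n + 1) φ = 2 * cos (2 * (n + 1) * φ) + D n φ := by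
      unfold D
      rw [hset, Finset.sum_insert, Finset.sum_insert]
      · push_cast
        have : cos (2 * (-((n : ℝ) + 1)) * φ) = cos (2 * (n + 1) * φ) := by
          rw [show 2 * (-((n : ℝ) + 1)) * φ = -(2 * (n + 1) * φ) by ring, cos_neg]
        rw [this]
        ring
      · simp only [mem_Icc]; omega
      · simp only [mem_insert, mem_Icc]; omega
    rw [hD, add_mul, ih]
    push_cast
    rw [show (2 * ((n : ℝ) + 1) + 1) * φ = 2 * (n + 1) * φ + φ by ring,
      show (2 * (n : ℝ) + 1) * φ = 2 * (n + 1) * φ - φ by ring, sin_add, sin_sub]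
    ring

theorem D_mul_cos (ℓ : ℕ) (φ : ℝ) (j : ℤ) :
    D ℓ φ * cos (2 * j * φ) = ∑ i ∈ Icc (-(ℓ : ℤ)) ℓ, cos (2 * ((i - j : ℤ) : ℝ) * φ) := by
  have hrefl : ∑ i ∈ Icc (-(ℓ : ℤ)) ℓ, cos (2 * ((i + j : ℤ) : ℝ) * φ) =
      ∑ i ∈ Icc (-(ℓ : ℤ)) ℓ, cos (2 * ((i - j : ℤ) : ℝ) * φ) := by
    refine Finset.sum_bij' (fun i _ => -i) (fun i _ => -i) ?_ ?_ ?_ ?_ ?_
    · intro i hi; rw [mem_Icc] at hi ⊢; omega
    · intro i hi; rw [mem_Icc] at hi ⊢; omega
    · intro i _; ring
    · intro i _; ring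
    · intro i _
      rw [← cos_neg]
      congr 1
      push_cast
      ring
  have h1 : ∀ i ∈ Icc (-(ℓ : ℤ)) ℓ, cos (2 * i * φ) * cos (2 * j * φ) =
      (cos (2 * ((i + j : ℤ) : ℝ) * φ) + cos (2 * ((i - j : ℤ) : ℝ) * φ)) / 2 := by
    intro i _
    rw [show 2 * ((i + j : ℤ) : ℝ) * φ = 2 * i * φ + 2 * j * φ by push_cast; ring,
      show 2 * ((i - j : ℤ) : ℝ) * φ = 2 * i * φ - 2 * j * φ by push_cast; ring, cos_add, cos_sub]
    ring
  unfold D
  rw [Finset.sum_mul, Finset.sum_congr rfl h1, ← Finset.sum_div, Finset.sum_add_distrib, hrefl]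
  ring

theorem D_sum (q : ℕ) (hq : 0 < q) (ℓ : ℕ) (j : ℤ) (hj : |j| + ℓ < q) :
    ∑ t ∈ range q, D ℓ (π * t / q) * cos (2 * j * (π * t / q)) =
      if |j| ≤ ℓ then (q : ℝ) else 0 := by
  simp only [D_mul_cos]
  rw [Finset.sum_comm]
  have h1 : ∀ i ∈ Icc (-(ℓ : ℤ)) ℓ, ∑ t ∈ range q, cos (2 * ((i - j : ℤ) : ℝ) * (π * t / q)) =
      if i = j then (q : ℝ) else 0 := by
    intro i hi
    rw [cos_sum q hq (i - j)]
    rw [mem_Icc] at hi
    have : (q : ℤ) ∣ (i - j) ↔ i = j := by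
      constructor
      · intro h
        have h2 := Int.eq_zero_of_abs_lt_dvd h (by
          have := abs_sub i j
          have : |i| ≤ ℓ := by rw [abs_le]; omega
          have : |i - j| ≤ |i| + |j| := abs_sub _ _
          omega)
        omega
      · rintro rfl; simp
    simp only [this]
  rw [Finset.sum_congr rfl h1, Finset.sum_ite_eq']
  have h2 : j ∈ Icc (-(ℓ : ℤ)) ℓ ↔ |j| ≤ ℓ := by rw [mem_Icc, abs_le]
  simp only [h2]

/-- The Toeplitz kernel: number of windows of radius at least `|j|`. -/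
noncomputable def F (M : ℕ) (ℓ : ℕ → ℕ) (j : ℤ) : ℝ := ∑ k ∈ range M, if |j| ≤ ℓ k then 1 else 0

theorem psd (M : ℕ) (ℓ : ℕ → ℕ) (q N : ℕ) (hq : 0 < q) (hN : ∀ k, ℓ k ≤ N)
    (hpos : ∀ t : ℕ, 0 < t → t < q → 0 ≤ ∑ k ∈ range M, sin ((2 * ℓ k + 1) * (π * t / q)))
    (I : Finset ℤ) (hI : ∀ i ∈ I, ∀ j ∈ I, |i - j| + N < q) (x : ℤ → ℝ) :
    0 ≤ ∑ i ∈ I, ∑ j ∈ I, F M ℓ (i - j) * (x i * x j) := by
  have hq' : (0 : ℝ) < q := by exact_mod_cast hq
  set κ : ℕ → ℝ := fun t => ∑ k ∈ range M, D (ℓ k) (π * t / q) with hκ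
  have hκ0 : ∀ t ∈ range q, 0 ≤ κ t := by
    intro t ht
    rw [mem_range] at ht
    rcases Nat.eq_zero_or_pos t with h0 | h0
    · subst h0
      refine Finset.sum_nonneg fun k _ => ?_
      unfold D
      refine Finset.sum_nonneg fun i _ => ?_
      simp
    · have h1 := hpos t h0 ht
      have ht' : (t : ℝ) < q := by exact_mod_cast ht
      have h0' : (0 : ℝ) < t := by exact_mod_cast h0
      have hs : 0 < sin (π * t / q) := by
        apply sin_pos_of_pos_of_lt_pi
        · positivity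
        · rw [div_lt_iff₀ hq']
          exact mul_lt_mul_of_pos_left ht' pi_pos
      have h2 : κ t * sin (π * t / q) = ∑ k ∈ range M, sin ((2 * ℓ k + 1) * (π * t / q)) := by
        simp only [hκ]
        rw [Finset.sum_mul]
        exact Finset.sum_congr rfl fun k _ => D_mul_sin _ _
      rw [← h2] at h1
      exact nonneg_of_mul_nonneg_left h1 hs
  have hF : ∀ i ∈ I, ∀ j ∈ I, F M ℓ (i - j) * (x i * x j) * q =
      ∑ t ∈ range q, κ t * ((x i * cos (2 * i * (π * t / q))) * (x j * cos (2 * j * (π * t / q))) +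
        (x i * sin (2 * i * (π * t / q))) * (x j * sin (2 * j * (π * t / q)))) := by
    intro i hi j hj
    have h1 : ∀ t ∈ range q, κ t * ((x i * cos (2 * i * (π * t / q))) *
        (x j * cos (2 * j * (π * t / q))) +
        (x i * sin (2 * i * (π * t / q))) * (x j * sin (2 * j * (π * t / q)))) =
        ∑ k ∈ range M, (x i * x j) * (D (ℓ k) (π * t / q) *
          cos (2 * ((i - j : ℤ) : ℝ) * (π * t / q))) := by
      intro t _
      simp only [hκ]
      rw [Finset.sum_mul]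
      refine Finset.sum_congr rfl fun k _ => ?_
      rw [show 2 * ((i - j : ℤ) : ℝ) * (π * t / q) =
        2 * i * (π * t / q) - 2 * j * (π * t / q) by push_cast; ring, cos_sub]
      ring
    rw [Finset.sum_congr rfl h1, Finset.sum_comm]
    unfold F
    rw [Finset.sum_mul, Finset.sum_mul]
    refine Finset.sum_congr rfl fun k _ => ?_
    rw [← Finset.mul_sum, D_sum q hq (ℓ k) (i - j) (by
      have := hI i hi j hj
      have := hN k
      omega)]
    split_ifs <;> ring
  have hmul : (∑ i ∈ I, ∑ j ∈ I, F M ℓ (i - j) * (x i * x j)) * q =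
      ∑ t ∈ range q, κ t * ((∑ i ∈ I, x i * cos (2 * i * (π * t / q))) ^ 2 +
        (∑ i ∈ I, x i * sin (2 * i * (π * t / q))) ^ 2) := by
    rw [Finset.sum_mul]
    rw [Finset.sum_congr rfl fun i hi => (by
      rw [Finset.sum_mul, Finset.sum_congr rfl fun j hj => hF i hi j hj, Finset.sum_comm] :
      (∑ j ∈ I, F M ℓ (i - j) * (x i * x j)) * q =
        ∑ t ∈ range q, ∑ j ∈ I, κ t * ((x i * cos (2 * i * (π * t / q))) *
        (x j * cos (2 * j * (π * t / q))) +
        (x i * sin (2 * i * (π * t / q))) * (x j * sin (2 * j * (π * t / q)))))]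
    rw [Finset.sum_comm]
    refine Finset.sum_congr rfl fun t _ => ?_
    rw [sq, sq, Finset.sum_mul_sum, Finset.sum_mul_sum, ← Finset.sum_add_distrib, Finset.mul_sum]
    refine Finset.sum_congr rfl fun i _ => ?_
    rw [← Finset.sum_add_distrib, Finset.mul_sum]
  have h0 : 0 ≤ (∑ i ∈ I, ∑ j ∈ I, F M ℓ (i - j) * (x i * x j)) * q := by
    rw [hmul]
    exact Finset.sum_nonneg fun t ht => mul_nonneg (hκ0 t ht) (by positivity)
  exact nonneg_of_mul_nonneg_left h0 hq'

end Pool.Agent.Lib.MP_7cecc1_co.PSD
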