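import Mathlib

/-! The density profile `ρ` (ramping `0 → 1 → 0` on `[1, 2L]`), its primitive `R`, the counting
function `A = ⌊R⌋` and the indicator `a`. -/

namespace Pool.Agent.Lib.MP_7cecc1_co.Profile

open Finset

variable (L : ℤ)

noncomputable def rho (t : ℤ) : ℝ := max 0 (min ((t : ℝ) - 1 / 2) (2 * L + 1 / 2 - t)) / L

noncomputable def R (t : ℤ) : ℝ := ∑ s ∈ Ioc 0 t, rho L s

noncomputable def A (t : ℤ) : ℤ := ⌊R L t⌋

noncomputable def a (t : ℤ) : ℝ := ((A L t - A L (t - 1) : ℤ) : ℝ)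

variable {L}

theorem rho_nonneg (hL : 0 < L) (t : ℤ) : 0 ≤ rho L t := by
  have : (0 : ℝ) < L := by exact_mod_cast hL
  unfold rho
  positivity

theorem rho_le_one (hL : 0 < L) (t : ℤ) : rho L t ≤ 1 := by
  have hL' : (0 : ℝ) < L := by exact_mod_cast hL
  unfold rho
  rw [div_le_one hL', max_le_iff]
  refine ⟨hL'.le, ?_⟩
  rcases le_or_gt t L with h | h
  · have h' : (t : ℝ) ≤ L := by exact_mod_cast h
    exact (min_le_left _ _).trans (by linarith)
  · have h' : (L : ℝ) + 1 ≤ t := by exact_mod_cast h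
    exact (min_le_right _ _).trans (by linarith)

theorem rho_zero_left {t : ℤ} (ht : t ≤ 0) : rho L t = 0 := by
  have h : (t : ℝ) ≤ 0 := by exact_mod_cast ht
  unfold rho
  rw [max_eq_left ((min_le_left _ _).trans (by linarith)), zero_div]

theorem rho_zero_right {t : ℤ} (ht : 2 * L < t) : rho L t = 0 := by
  have h : (2 : ℝ) * L + 1 ≤ t := by exact_mod_cast ht
  unfold rho
  rw [max_eq_left ((min_le_right _ _).trans (by linarith)), zero_div]

theorem rho_up {t : ℤ} (h1 : 1 ≤ t) (h2 : t ≤ L) : rho L t = ((t : ℝ) - 1 / 2) / L := by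
  have h1' : (1 : ℝ) ≤ t := by exact_mod_cast h1
  have h2' : (t : ℝ) ≤ L := by exact_mod_cast h2
  unfold rho
  rw [min_eq_left (by linarith), max_eq_right (by linarith)]

theorem rho_down {t : ℤ} (h1 : L < t) (h2 : t ≤ 2 * L) : rho L t = (2 * L + 1 / 2 - t) / L := by
  have h1' : (L : ℝ) + 1 ≤ t := by exact_mod_cast h1
  have h2' : (t : ℝ) ≤ 2 * L := by exact_mod_cast h2
  unfold rho
  rw [min_eq_right (by linarith), max_eq_right (by linarith)]

theorem rho_lip (hL : 0 < L) (s t : ℤ) : |rho L s - rho L t| ≤ |(s : ℝ) - t| / L := by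
  have hL' : (0 : ℝ) < L := by exact_mod_cast hL
  unfold rho
  rw [← sub_div, abs_div, abs_of_pos hL']
  refine div_le_div_of_nonneg_right ?_ hL'.le
  refine (abs_max_sub_max_le_max _ _ _ _).trans ?_
  rw [sub_self, abs_zero, max_eq_right (abs_nonneg _)]
  refine (abs_min_sub_min_le_max _ _ _ _).trans ?_
  rw [max_le_iff]
  constructor
  · rw [show (s : ℝ) - 1 / 2 - (t - 1 / 2) = s - t by ring]
  · rw [show (2 : ℝ) * L + 1 / 2 - s - (2 * L + 1 / 2 - t) = -(s - t) by ring, abs_neg]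

theorem R_step (t : ℤ) : R L t - R L (t - 1) = rho L t := by
  unfold R
  rcases le_or_gt t 0 with h | h
  · rw [rho_zero_left h, Finset.Ioc_eq_empty (by omega), Finset.Ioc_eq_empty (by omega)]
    simp
  · have : Ioc 0 t = insert t (Ioc 0 (t - 1)) := by
      ext s; simp only [mem_Ioc, mem_insert]; omega
    rw [this, Finset.sum_insert (by simp)]
    ring

/-- Telescoping for functions on the integers. -/
theorem telescope (f : ℤ → ℝ) (i j : ℤ) (hij : i ≤ j) :
    ∑ s ∈ Ioc i j, (f s - f (s - 1)) = f j - f i := by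
  obtain ⟨n, rfl⟩ := Int.le.dest hij
  induction n with
  | zero => simp
  | succ n ih =>
    have h1 : i ≤ i + n := by omega
    have : Ioc i (i + ((n + 1 : ℕ) : ℤ)) = insert (i + ((n + 1 : ℕ) : ℤ)) (Ioc i (i + n)) := by
      ext s; simp only [mem_Ioc, mem_insert]; push_cast; omega
    rw [this, Finset.sum_insert (by simp), ih h1]
    push_cast
    rw [show i + (n + 1 : ℤ) - 1 = i + n by ring]
    ring

theorem R_diff {i j : ℤ} (hij : i ≤ j) : R L j - R L i = ∑ s ∈ Ioc i j, rho L s := by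
  rw [← telescope (R L) i j hij]
  exact Finset.sum_congr rfl fun s _ => R_step s

theorem A_diff {i j : ℤ} (hij : i ≤ j) : ∑ s ∈ Ioc i j, a L s = A L j - A L i := by
  have := telescope (fun t => (A L t : ℝ)) i j hij
  rw [← this]
  refine Finset.sum_congr rfl fun s _ => ?_
  unfold a
  push_cast
  ring

theorem R_mono (hL : 0 < L) {i j : ℤ} (hij : i ≤ j) : R L i ≤ R L j := by
  have := R_diff (L := L) hij
  have h2 : 0 ≤ ∑ s ∈ Ioc i j, rho L s := Finset.sum_nonneg fun s _ => rho_nonneg hL s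
  linarith

theorem a_zero_or_one (hL : 0 < L) (t : ℤ) : a L t = 0 ∨ a L t = 1 := by
  have h1 := R_step (L := L) t
  have h2 := rho_nonneg hL t
  have h3 := rho_le_one hL t
  have h4 : A L (t - 1) ≤ A L t := Int.floor_le_floor (by linarith)
  have h5 : A L t ≤ A L (t - 1) + 1 := by
    unfold A
    have : ⌊R L t⌋ ≤ ⌊R L (t - 1) + 1⌋ := Int.floor_le_floor (by linarith)
    rwa [Int.floor_add_one] at this
  unfold a
  have h6 : A L t - A L (t - 1) = 0 ∨ A L t - A L (t - 1) = 1 := by omega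
  rcases h6 with h | h
  · left; rw [h]; simp
  · right; rw [h]; simp

theorem a_nonneg (hL : 0 < L) (t : ℤ) : 0 ≤ a L t := by
  rcases a_zero_or_one hL t with h | h <;> rw [h] <;> norm_num

theorem a_zero_of_rho_zero {t : ℤ} (h : rho L t = 0) : a L t = 0 := by
  have h1 := R_step (L := L) t
  rw [h] at h1
  have : R L t = R L (t - 1) := by linarith
  unfold a A
  rw [this]
  simp

theorem a_zero_left {t : ℤ} (ht : t ≤ 0) : a L t = 0 := a_zero_of_rho_zero (rho_zero_left ht)
theorem a_zero_right {t : ℤ} (ht : 2 * L < t) : a L t = 0 := a_zero_of_rho_zero (rho_zero_right ht)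

/-- Second difference of the primitive. -/
noncomputable def D2 (L : ℤ) (l : ℕ) (i : ℤ) : ℝ := R L (i + l) - R L i - R L (i - 1) + R L (i - 1 - l)

theorem D2_eq (l : ℕ) (i : ℤ) :
    D2 L l i = ∑ s ∈ range l, (rho L (i + (s + 1)) - rho L (i - (s + 1))) := by
  unfold D2
  induction l with
  | zero => simp
  | succ n ih =>
    rw [Finset.sum_range_succ, ← ih]
    have h1 := R_step (L := L) (i + (n + 1))
    have h2 := R_step (L := L) (i - (n + 1))
    rw [show i + ((n : ℤ) + 1) - 1 = i + n by ring] at h1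
    rw [show i - ((n : ℤ) + 1) - 1 = i - 1 - ((n : ℤ) + 1) by ring] at h2
    push_cast
    rw [show i - ((n : ℤ) + 1) = i - 1 - n by ring] at h2
    rw [← h1, show i - ((n : ℤ) + 1) = i - 1 - n by ring, ← h2]
    ring

theorem sum_lin (l : ℕ) : ∑ s ∈ range l, (2 * ((s : ℝ) + 1)) = l * (l + 1) := by
  induction l with
  | zero => simp
  | succ n ih => rw [Finset.sum_range_succ, ih]; push_cast; ring

theorem D2_abs_le (hL : 0 < L) (l : ℕ) (i : ℤ) : |D2 L l i| ≤ l * (l + 1) / L := by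
  have hL' : (0 : ℝ) < L := by exact_mod_cast hL
  rw [D2_eq]
  refine (abs_sum_le_sum_abs _ _).trans ?_
  rw [← sum_lin, Finset.sum_div]
  refine Finset.sum_le_sum fun s _ => ?_
  refine (rho_lip hL _ _).trans (le_of_eq ?_)
  congr 1
  push_cast
  rw [show (i : ℝ) + (s + 1) - (i - (s + 1)) = 2 * (s + 1) by ring, abs_of_nonneg (by positivity)]

theorem D2_up {l : ℕ} {i : ℤ} (h1 : (l : ℤ) + 1 ≤ i) (h2 : i + l ≤ L) :
    D2 L l i = l * (l + 1) / L := by
  rw [D2_eq, ← sum_lin, Finset.sum_div]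
  refine Finset.sum_congr rfl fun s hs => ?_
  rw [mem_range] at hs
  rw [rho_up (by omega) (by omega), rho_up (by omega) (by omega)]
  push_cast
  ring

theorem D2_down {l : ℕ} {i : ℤ} (h1 : L + l < i) (h2 : i + l ≤ 2 * L) :
    D2 L l i = -(l * (l + 1) / L) := by
  rw [D2_eq, ← sum_lin, Finset.sum_div, ← Finset.sum_neg_distrib]
  refine Finset.sum_congr rfl fun s hs => ?_
  rw [mem_range] at hs
  rw [rho_down (by omega) (by omega), rho_down (by omega) (by omega)]
  push_cast
  ring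

theorem rho_half (hL : 0 < L) {t : ℤ} (h1 : L + 1 ≤ 2 * t) (h2 : 2 * t ≤ 3 * L + 1) :
    1 / 2 ≤ rho L t := by
  have hL' : (0 : ℝ) < L := by exact_mod_cast hL
  have h1' : (L : ℝ) + 1 ≤ 2 * t := by exact_mod_cast h1
  have h2' : 2 * (t : ℝ) ≤ 3 * L + 1 := by exact_mod_cast h2
  unfold rho
  rw [div_le_div_iff₀ (by norm_num) hL']
  have : (L : ℝ) / 2 ≤ max 0 (min ((t : ℝ) - 1 / 2) (2 * L + 1 / 2 - t)) := by
    refine le_trans ?_ (le_max_right _ _)
    rw [le_min_iff]
    constructor <;> linarith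
  linarith

theorem A_diff_ge {i j : ℤ} : R L j - R L i - 1 ≤ A L j - A L i := by
  unfold A
  have h1 := Int.lt_floor_add_one (R L j)
  have h2 := Int.floor_le (R L i)
  linarith

end Pool.Agent.Lib.MP_7cecc1_co.Profile
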