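import Pool.Agent.Lib.MP_7cecc1_co.Transport
import Pool.Agent.Lib.MP_7cecc1_co.PSD
import Pool.Agent.Lib.MP_7cecc1_co.Profile
import Pool.Agent.Lib.MP_7cecc1_co.Kernel

namespace Pool.Agent.Lib.MP_7cecc1_co.MU

open Finset PSD Profile

/-- Arc multiplicities. -/
noncomputable def W (L : ℤ) (M : ℕ) (ℓ : ℕ → ℕ) (i j : ℤ) : ℝ :=
  if i < j then a L i * a L j * F M ℓ (j - i) else 0

theorem F_neg (M : ℕ) (ℓ : ℕ → ℕ) (j : ℤ) : F M ℓ (-j) = F M ℓ j := by
  unfold F; simp only [abs_neg]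

theorem F_symm (M : ℕ) (ℓ : ℕ → ℕ) (i j : ℤ) : F M ℓ (i - j) = F M ℓ (j - i) := by
  rw [← F_neg, neg_sub]

theorem F_zero (M : ℕ) (ℓ : ℕ → ℕ) : F M ℓ 0 = M := by
  unfold F; simp

theorem F_nonneg (M : ℕ) (ℓ : ℕ → ℕ) (j : ℤ) : 0 ≤ F M ℓ j := by
  unfold F
  refine Finset.sum_nonneg fun k _ => ?_
  split_ifs <;> norm_num

/-- Sum over a window. -/
theorem window (I : Finset ℤ) (g : ℤ → ℝ) (i : ℤ) (M : ℕ) (ℓ : ℕ → ℕ)
    (hI : ∀ k < M, Icc (i - ℓ k) (i + ℓ k) ⊆ I) :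
    ∑ j ∈ I, F M ℓ (j - i) * g j = ∑ k ∈ range M, ∑ j ∈ Icc (i - ℓ k) (i + ℓ k), g j := by
  unfold F
  simp only [Finset.sum_mul]
  rw [Finset.sum_comm]
  refine Finset.sum_congr rfl fun k hk => ?_
  rw [mem_range] at hk
  simp only [ite_mul, one_mul, zero_mul]
  rw [← Finset.sum_filter]
  refine Finset.sum_congr ?_ fun _ _ => rfl
  ext j
  rw [mem_filter]
  constructor
  · rintro ⟨-, h⟩
    rw [abs_le] at h
    rw [mem_Icc]
    omega
  · intro h
    refine ⟨hI k hk h, ?_⟩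
    rw [mem_Icc] at h
    rw [abs_le]
    omega

section

variable {L : ℤ} {M : ℕ} {ℓ : ℕ → ℕ} {N : ℕ}

/-- Out-weight minus in-weight. -/
noncomputable def beta (L : ℤ) (M : ℕ) (ℓ : ℕ → ℕ) (i : ℤ) : ℝ :=
  ∑ j ∈ Icc 1 (2 * L), a L j * F M ℓ (j - i) * (if i < j then 1 else if j < i then -1 else 0)

theorem sum_W_lin (x : ℤ → ℝ) :
    ∑ i ∈ Icc 1 (2 * L), ∑ j ∈ Icc 1 (2 * L), W L M ℓ i j * (x i - x j) =
      ∑ i ∈ Icc 1 (2 * L), beta L M ℓ i * (a L i * x i) := by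
  have h1 : ∑ i ∈ Icc 1 (2 * L), ∑ j ∈ Icc 1 (2 * L), W L M ℓ i j * (x i - x j) =
      ∑ i ∈ Icc 1 (2 * L), ∑ j ∈ Icc 1 (2 * L), (W L M ℓ i j - W L M ℓ j i) * x i := by
    simp only [mul_sub, sub_mul, Finset.sum_sub_distrib]
    congr 1
    rw [Finset.sum_comm]
  rw [h1]
  refine Finset.sum_congr rfl fun i _ => ?_
  unfold beta
  rw [Finset.sum_mul]
  refine Finset.sum_congr rfl fun j _ => ?_
  unfold W
  rcases lt_trichotomy i j with h | h | h
  · have hn : ¬ j < i := by omega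
    simp only [if_neg hn, if_pos h]; ring
  · subst h; simp
  · have hn : ¬ i < j := by omega
    simp only [if_neg hn, if_pos h]
    rw [F_symm M ℓ i j]; ring

theorem sum_W_quad (x : ℤ → ℝ) :
    ∑ i ∈ Icc 1 (2 * L), ∑ j ∈ Icc 1 (2 * L), W L M ℓ i j * (x i * x j) =
      (∑ i ∈ Icc 1 (2 * L), ∑ j ∈ Icc 1 (2 * L), F M ℓ (i - j) * ((a L i * x i) * (a L j * x j)) -
        M * ∑ i ∈ Icc 1 (2 * L), (a L i * x i) ^ 2) / 2 := by
  have h1 : ∑ i ∈ Icc 1 (2 * L), ∑ j ∈ Icc 1 (2 * L), W L M ℓ i j * (x i * x j) +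
      ∑ i ∈ Icc 1 (2 * L), ∑ j ∈ Icc 1 (2 * L), W L M ℓ i j * (x i * x j) =
      ∑ i ∈ Icc 1 (2 * L), ∑ j ∈ Icc 1 (2 * L), (W L M ℓ i j + W L M ℓ j i) * (x i * x j) := by
    nth_rw 2 [Finset.sum_comm]
    rw [← Finset.sum_add_distrib]
    refine Finset.sum_congr rfl fun e _ => ?_
    rw [← Finset.sum_add_distrib]
    refine Finset.sum_congr rfl fun e' _ => by ring
  have h2 : ∑ i ∈ Icc 1 (2 * L), ∑ j ∈ Icc 1 (2 * L), (W L M ℓ i j + W L M ℓ j i) * (x i * x j) =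
      ∑ i ∈ Icc 1 (2 * L), ∑ j ∈ Icc 1 (2 * L), F M ℓ (i - j) * ((a L i * x i) * (a L j * x j)) -
        M * ∑ i ∈ Icc 1 (2 * L), (a L i * x i) ^ 2 := by
    rw [Finset.mul_sum, ← Finset.sum_sub_distrib]
    refine Finset.sum_congr rfl fun i hi => ?_
    have h3 : (M : ℝ) * (a L i * x i) ^ 2 = ∑ j ∈ Icc 1 (2 * L),
        if i = j then (M : ℝ) * (a L i * x i) ^ 2 else 0 := by
      rw [Finset.sum_ite_eq, if_pos hi]
    rw [h3, ← Finset.sum_sub_distrib]
    refine Finset.sum_congr rfl fun j _ => ?_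
    unfold W
    rcases lt_trichotomy i j with h | h | h
    · rw [if_pos h, if_neg (by omega), if_neg (by omega), F_symm M ℓ i j]; ring
    · subst h; simp [F_zero]; ring
    · rw [if_neg (by omega), if_pos h, if_neg (by omega)]; ring
  rw [h2] at h1
  linarith

theorem sum_Ioc_sub (i : ℤ) (l : ℕ) : ∑ j ∈ Ioc i (i + l), a L j = A L (i + l) - A L i :=
  A_diff (by omega)

/-- `β` through second differences of the counting function. -/
theorem beta_eq {i : ℤ} :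
    beta L M ℓ i = ∑ k ∈ range M, ((A L (i + ℓ k) : ℝ) - A L i - A L (i - 1) + A L (i - 1 - ℓ k)) := by
  set I : Finset ℤ := Icc 1 (2 * L) ∪ (range M).biUnion (fun k => Icc (i - ℓ k) (i + ℓ k)) with hI
  have h1 : beta L M ℓ i = ∑ j ∈ I, F M ℓ (j - i) *
      (a L j * (if i < j then 1 else if j < i then -1 else 0)) := by
    unfold beta
    have hsub : Icc 1 (2 * L) ⊆ I := by rw [hI]; exact subset_union_left
    rw [← Finset.sum_subset hsub]
    · refine Finset.sum_congr rfl fun j _ => by ring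
    · intro j _ hj
      have : a L j = 0 := by
        rw [mem_Icc] at hj
        rcases le_or_gt j 0 with h | h
        · exact a_zero_left h
        · exact a_zero_right (by omega)
      rw [this]; ring
  rw [h1, window I _ i M ℓ]
  · refine Finset.sum_congr rfl fun k _ => ?_
    have hsplit : Icc (i - ℓ k) (i + ℓ k) = (Ioc (i - 1 - ℓ k) (i - 1) ∪ {i}) ∪ Ioc i (i + ℓ k) := by
      ext j; simp only [mem_Icc, mem_union, mem_Ioc, mem_singleton]; omega
    rw [hsplit, Finset.sum_union, Finset.sum_union]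
    · have e1 : ∑ j ∈ Ioc (i - 1 - ℓ k) (i - 1), a L j * (if i < j then 1 else if j < i then -1 else 0) =
          - ∑ j ∈ Ioc (i - 1 - ℓ k) (i - 1), a L j := by
        rw [← Finset.sum_neg_distrib]
        refine Finset.sum_congr rfl fun j hj => ?_
        rw [mem_Ioc] at hj
        rw [if_neg (by omega), if_pos (by omega)]; ring
      have e2 : ∑ j ∈ Ioc i (i + ℓ k), a L j * (if i < j then 1 else if j < i then -1 else 0) =
          ∑ j ∈ Ioc i (i + ℓ k), a L j := by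
        refine Finset.sum_congr rfl fun j hj => ?_
        rw [mem_Ioc] at hj
        rw [if_pos (by omega)]; ring
      rw [e1, e2, Finset.sum_singleton, A_diff (by omega), A_diff (by omega)]
      simp
      ring
    · rw [Finset.disjoint_left]; intro c; simp only [mem_Ioc, mem_singleton]; omega
    · rw [Finset.disjoint_left]; intro c; simp only [mem_union, mem_Ioc, mem_singleton]; omega
  · intro k hk
    rw [hI]
    refine subset_trans ?_ subset_union_right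
    exact Finset.subset_biUnion_of_mem (fun k => Icc (i - (ℓ k : ℤ)) (i + ℓ k)) (mem_range.mpr hk)

theorem beta_approx {i : ℤ} : |beta L M ℓ i - ∑ k ∈ range M, D2 L (ℓ k) i| ≤ 2 * M := by
  rw [beta_eq, ← Finset.sum_sub_distrib]
  refine (abs_sum_le_sum_abs _ _).trans ?_
  have : ∀ k ∈ range M, |(A L (i + ℓ k) : ℝ) - A L i - A L (i - 1) + A L (i - 1 - ℓ k) -
      D2 L (ℓ k) i| ≤ 2 := by
    intro k _
    unfold D2 A
    have a1 := Int.floor_le (R L (i + ℓ k))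
    have a2 := Int.lt_floor_add_one (R L (i + ℓ k))
    have b1 := Int.floor_le (R L i)
    have b2 := Int.lt_floor_add_one (R L i)
    have c1 := Int.floor_le (R L (i - 1))
    have c2 := Int.lt_floor_add_one (R L (i - 1))
    have d1 := Int.floor_le (R L (i - 1 - ℓ k))
    have d2 := Int.lt_floor_add_one (R L (i - 1 - ℓ k))
    rw [abs_le]
    constructor <;> linarith
  refine (Finset.sum_le_sum this).trans ?_
  simp
  linarith

/-- The comparison vector. -/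
noncomputable def h (L : ℤ) (j : ℤ) : ℝ := if j ≤ L then 1 else -1

theorem h_abs (j : ℤ) : |h L j| = 1 := by unfold h; split_ifs <;> simp

noncomputable def H (L : ℤ) (l : ℕ) (i : ℤ) : ℝ := ∑ j ∈ Icc (i - l) (i + l), h L j

theorem card_Icc_window (i : ℤ) (l : ℕ) : ((Icc (i - (l : ℤ)) (i + l)).card : ℝ) = 2 * l + 1 := by
  rw [Int.card_Icc]
  have : ((i + l + 1 - (i - l)).toNat : ℤ) = 2 * l + 1 := by
    rw [Int.toNat_of_nonneg (by omega)]; ring
  exact_mod_cast this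

theorem H_abs_le (l : ℕ) (i : ℤ) : |H L l i| ≤ 2 * l + 1 := by
  unfold H
  refine (abs_sum_le_sum_abs _ _).trans ?_
  simp only [h_abs, Finset.sum_const, nsmul_eq_mul, mul_one]
  rw [card_Icc_window]

theorem H_up {l : ℕ} {i : ℤ} (hi : i + l ≤ L) : H L l i = 2 * l + 1 := by
  unfold H
  rw [← card_Icc_window i l, Finset.card_eq_sum_ones]
  push_cast
  refine Finset.sum_congr rfl fun j hj => ?_
  rw [mem_Icc] at hj
  unfold h
  rw [if_pos (by omega)]

theorem H_down {l : ℕ} {i : ℤ} (hi : L + l < i) : H L l i = -(2 * l + 1) := by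
  unfold H
  rw [← card_Icc_window i l, Finset.card_eq_sum_ones]
  push_cast
  rw [← Finset.sum_neg_distrib]
  refine Finset.sum_congr rfl fun j hj => ?_
  rw [mem_Icc] at hj
  unfold h
  rw [if_neg (by omega)]

/-- The constant `V = ∑ ℓ(ℓ+1)/L`. -/
noncomputable def V (L : ℤ) (M : ℕ) (ℓ : ℕ → ℕ) : ℝ := ∑ k ∈ range M, (ℓ k * (ℓ k + 1) / L : ℝ)
/-- The total row sum `κ₀ = ∑ (2ℓ+1)`. -/
noncomputable def K0 (M : ℕ) (ℓ : ℕ → ℕ) : ℝ := ∑ k ∈ range M, (2 * (ℓ k : ℝ) + 1)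

theorem K0_pos (hM : 0 < M) : 0 < K0 M ℓ := by
  unfold K0
  refine Finset.sum_pos (fun k _ => by positivity) ⟨0, mem_range.mpr hM⟩

theorem V_nonneg (hL : 0 < L) : 0 ≤ V L M ℓ := by
  have hL' : (0 : ℝ) < L := by exact_mod_cast hL
  unfold V
  exact Finset.sum_nonneg fun k _ => by positivity

/-- `G_i = ∑_j F(i-j) z_j` with `z = (V/κ₀) h`. -/
theorem G_eq (i : ℤ) (hi : i ∈ Icc 1 (2 * L)) (hN : ∀ k, ℓ k ≤ N) :
    ∑ j ∈ Icc (1 - (N : ℤ)) (2 * L + N), F M ℓ (j - i) * (V L M ℓ / K0 M ℓ * h L j) =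
      V L M ℓ / K0 M ℓ * ∑ k ∈ range M, H L (ℓ k) i := by
  rw [window _ (fun j => V L M ℓ / K0 M ℓ * h L j) i M ℓ]
  · rw [Finset.mul_sum]
    refine Finset.sum_congr rfl fun k _ => ?_
    unfold H
    rw [Finset.mul_sum]
  · intro k _ j hj
    rw [mem_Icc] at hj hi ⊢
    have := hN k
    omega

theorem delta_good (hM : 0 < M) (hN : ∀ k, ℓ k ≤ N) {i : ℤ}
    (hi : (N + 1 ≤ i ∧ i + N ≤ L) ∨ (L + N < i ∧ i + N ≤ 2 * L)) :
    |beta L M ℓ i - V L M ℓ / K0 M ℓ * ∑ k ∈ range M, H L (ℓ k) i| ≤ 2 * M := by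
  have hK := K0_pos (ℓ := ℓ) hM
  have key : ∑ k ∈ range M, D2 L (ℓ k) i = V L M ℓ / K0 M ℓ * ∑ k ∈ range M, H L (ℓ k) i := by
    rcases hi with ⟨h1, h2⟩ | ⟨h1, h2⟩
    · have e1 : ∑ k ∈ range M, D2 L (ℓ k) i = V L M ℓ := by
        unfold V
        refine Finset.sum_congr rfl fun k _ => ?_
        have := hN k
        exact D2_up (by omega) (by omega)
      have e2 : ∑ k ∈ range M, H L (ℓ k) i = K0 M ℓ := by
        unfold K0
        refine Finset.sum_congr rfl fun k _ => ?_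
        have := hN k
        exact H_up (by omega)
      rw [e1, e2]; field_simp
    · have e1 : ∑ k ∈ range M, D2 L (ℓ k) i = -V L M ℓ := by
        unfold V
        rw [← Finset.sum_neg_distrib]
        refine Finset.sum_congr rfl fun k _ => ?_
        have := hN k
        exact D2_down (by omega) (by omega)
      have e2 : ∑ k ∈ range M, H L (ℓ k) i = -K0 M ℓ := by
        unfold K0
        rw [← Finset.sum_neg_distrib]
        refine Finset.sum_congr rfl fun k _ => ?_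
        have := hN k
        exact H_down (by omega)
      rw [e1, e2]; field_simp
  rw [← key]
  exact beta_approx

theorem delta_all (hL : 0 < L) (hM : 0 < M) {i : ℤ} :
    |beta L M ℓ i - V L M ℓ / K0 M ℓ * ∑ k ∈ range M, H L (ℓ k) i| ≤ 2 * M + 2 * V L M ℓ := by
  have hK := K0_pos (ℓ := ℓ) hM
  have hV := V_nonneg (M := M) (ℓ := ℓ) hL
  have h1 := beta_approx (L := L) (M := M) (ℓ := ℓ) (i := i)
  have h2 : |∑ k ∈ range M, D2 L (ℓ k) i| ≤ V L M ℓ := by
    refine (abs_sum_le_sum_abs _ _).trans ?_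
    unfold V
    exact Finset.sum_le_sum fun k _ => D2_abs_le hL _ _
  have h3 : |V L M ℓ / K0 M ℓ * ∑ k ∈ range M, H L (ℓ k) i| ≤ V L M ℓ := by
    rw [abs_mul, abs_of_nonneg (by positivity)]
    have : |∑ k ∈ range M, H L (ℓ k) i| ≤ K0 M ℓ := by
      refine (abs_sum_le_sum_abs _ _).trans ?_
      unfold K0
      exact Finset.sum_le_sum fun k _ => H_abs_le _ _
    calc V L M ℓ / K0 M ℓ * |∑ k ∈ range M, H L (ℓ k) i| ≤ V L M ℓ / K0 M ℓ * K0 M ℓ :=
          mul_le_mul_of_nonneg_left this (by positivity)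
      _ = V L M ℓ := by field_simp
  rw [abs_le] at *
  constructor <;> linarith [h1.1, h1.2, h2.1, h2.2, h3.1, h3.2]

theorem sum_delta (hL : 0 < L) (hM : 0 < M) (hN : ∀ k, ℓ k ≤ N) :
    ∑ i ∈ Icc 1 (2 * L), |beta L M ℓ i - V L M ℓ / K0 M ℓ * ∑ k ∈ range M, H L (ℓ k) i| ≤
      4 * M * L + 8 * N * V L M ℓ := by
  classical
  have hV := V_nonneg (M := M) (ℓ := ℓ) hL
  set bad : Finset ℤ := Icc 1 (N : ℤ) ∪ Icc (L - N + 1) (L + N) ∪ Icc (2 * L - N + 1) (2 * L)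
    with hbad
  have h1 : ∀ i ∈ Icc 1 (2 * L),
      |beta L M ℓ i - V L M ℓ / K0 M ℓ * ∑ k ∈ range M, H L (ℓ k) i| ≤
        2 * M + if i ∈ bad then 2 * V L M ℓ else 0 := by
    intro i hi
    by_cases hb : i ∈ bad
    · rw [if_pos hb]; exact delta_all hL hM
    · rw [if_neg hb, add_zero]
      refine delta_good hM hN ?_
      rw [hbad] at hb
      simp only [mem_union, mem_Icc, not_or] at hb hi
      omega
  refine (Finset.sum_le_sum h1).trans ?_
  rw [Finset.sum_add_distrib, Finset.sum_const, nsmul_eq_mul, ← Finset.sum_filter,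
    Finset.sum_const, nsmul_eq_mul]
  have c1 : ((Icc 1 (2 * L)).card : ℝ) = 2 * L := by
    rw [Int.card_Icc]
    have : ((2 * L + 1 - 1).toNat : ℤ) = 2 * L := by rw [Int.toNat_of_nonneg (by omega)]; ring
    exact_mod_cast this
  have c2 : (((Icc 1 (2 * L)).filter (fun i => i ∈ bad)).card : ℝ) ≤ 4 * N := by
    have h2 : ((Icc 1 (2 * L)).filter (fun i => i ∈ bad)).card ≤ 4 * N := by
      refine (Finset.card_le_card (fun i hi => (mem_filter.mp hi).2 :
        (Icc 1 (2 * L)).filter (fun i => i ∈ bad) ⊆ bad)).trans ?_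
      rw [hbad]
      refine (Finset.card_union_le _ _).trans ?_
      refine (Nat.add_le_add_right (Finset.card_union_le _ _) _).trans ?_
      rw [Int.card_Icc, Int.card_Icc, Int.card_Icc]
      omega
    exact_mod_cast h2
  rw [c1]
  have h3 : (((Icc 1 (2 * L)).filter (fun i => i ∈ bad)).card : ℝ) * (2 * V L M ℓ) ≤
      4 * N * (2 * V L M ℓ) := mul_le_mul_of_nonneg_right c2 (by positivity)
  linarith

theorem row_sum_le (I : Finset ℤ) (i : ℤ) : ∑ j ∈ I, F M ℓ (i - j) ≤ K0 M ℓ := by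
  unfold F K0
  rw [Finset.sum_comm]
  refine Finset.sum_le_sum fun k _ => ?_
  rw [← Finset.sum_filter, Finset.sum_const, nsmul_eq_mul, mul_one, ← card_Icc_window i (ℓ k)]
  have : (I.filter fun j => |i - j| ≤ (ℓ k : ℤ)) ⊆ Icc (i - ℓ k) (i + ℓ k) := by
    intro j hj
    have h := (mem_filter.mp hj).2
    rw [abs_le] at h
    rw [mem_Icc]
    omega
  exact_mod_cast Finset.card_le_card this

/-- Main inequality. -/
theorem main_ineq (hL : 0 < L) (hM : 0 < M) (hN : ∀ k, ℓ k ≤ N)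
    (hpsd : ∀ x : ℤ → ℝ, 0 ≤ ∑ i ∈ Icc (1 - (N : ℤ)) (2 * L + N), ∑ j ∈ Icc (1 - (N : ℤ)) (2 * L + N),
      F M ℓ (i - j) * (x i * x j)) (x : ℤ → ℝ) (hx : ∀ i, x i = 1 ∨ x i = -1) :
    ∑ i ∈ Icc 1 (2 * L), ∑ j ∈ Icc 1 (2 * L), W L M ℓ i j * (x i - x j) -
      ∑ i ∈ Icc 1 (2 * L), ∑ j ∈ Icc 1 (2 * L), W L M ℓ i j * (x i * x j) ≤
      5 * M * L + 8 * N * V L M ℓ + V L M ℓ / K0 M ℓ * V L M ℓ * (L + N) := by
  have hK := K0_pos (ℓ := ℓ) hM
  have hV := V_nonneg (M := M) (ℓ := ℓ) hL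
  set I : Finset ℤ := Icc (1 - (N : ℤ)) (2 * L + N) with hI
  set E : Finset ℤ := Icc 1 (2 * L) with hE
  have hEI : E ⊆ I := by
    intro i hi
    rw [hE, mem_Icc] at hi
    rw [hI, mem_Icc]
    omega
  set c : ℝ := V L M ℓ / K0 M ℓ with hc
  have hc0 : 0 ≤ c := by positivity
  set y : ℤ → ℝ := fun i => a L i * x i with hy
  have hy0 : ∀ i, i ∉ E → y i = 0 := by
    intro i hi
    rw [hE, mem_Icc] at hi
    have : a L i = 0 := by
      rcases le_or_gt i 0 with h | h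
      · exact a_zero_left h
      · exact a_zero_right (by omega)
    simp only [hy, this, zero_mul]
  have hy1 : ∀ i, |y i| ≤ 1 := by
    intro i
    simp only [hy]
    rcases a_zero_or_one hL i with h | h <;> rcases hx i with h' | h' <;> rw [h, h'] <;> norm_num
  have hy2 : ∑ i ∈ E, (y i) ^ 2 ≤ 2 * L := by
    have h1 : ∑ i ∈ E, (y i) ^ 2 ≤ ∑ i ∈ E, (1 : ℝ) := by
      refine Finset.sum_le_sum fun i _ => ?_
      have := hy1 i
      rw [← sq_abs]
      have h3 := abs_nonneg (y i)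
      nlinarith
    refine h1.trans (le_of_eq ?_)
    rw [Finset.sum_const, nsmul_eq_mul, mul_one, hE, Int.card_Icc]
    have : ((2 * L + 1 - 1).toNat : ℤ) = 2 * L := by rw [Int.toNat_of_nonneg (by omega)]; ring
    exact_mod_cast this
  rw [sum_W_lin, sum_W_quad]
  change ∑ i ∈ E, beta L M ℓ i * y i - (∑ i ∈ E, ∑ j ∈ E, F M ℓ (i - j) * (y i * y j) -
        M * ∑ i ∈ E, (y i) ^ 2) / 2 ≤ _
  -- psd for y - z
  have hp := hpsd (fun i => y i - c * h L i)
  have hexp : ∑ i ∈ I, ∑ j ∈ I, F M ℓ (i - j) * ((y i - c * h L i) * (y j - c * h L j)) =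
      ∑ i ∈ I, ∑ j ∈ I, F M ℓ (i - j) * (y i * y j) -
      2 * ∑ i ∈ I, y i * ∑ j ∈ I, F M ℓ (j - i) * (c * h L j) +
      ∑ i ∈ I, ∑ j ∈ I, F M ℓ (i - j) * ((c * h L i) * (c * h L j)) := by
    have e1 : ∀ i ∈ I, ∀ j ∈ I, F M ℓ (i - j) * ((y i - c * h L i) * (y j - c * h L j)) =
        F M ℓ (i - j) * (y i * y j) - y i * (F M ℓ (j - i) * (c * h L j)) -
        y j * (F M ℓ (i - j) * (c * h L i)) + F M ℓ (i - j) * ((c * h L i) * (c * h L j)) := by
      intro i _ j _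
      rw [F_symm M ℓ j i]
      ring
    rw [Finset.sum_congr rfl fun i hi => Finset.sum_congr rfl fun j hj => e1 i hi j hj]
    simp only [Finset.sum_add_distrib, Finset.sum_sub_distrib]
    have e2 : ∑ i ∈ I, ∑ j ∈ I, y j * (F M ℓ (i - j) * (c * h L i)) =
        ∑ i ∈ I, ∑ j ∈ I, y i * (F M ℓ (j - i) * (c * h L j)) := by rw [Finset.sum_comm]
    rw [e2]
    simp only [← Finset.mul_sum]
    ring
  rw [hexp] at hp
  have hYY : ∑ i ∈ I, ∑ j ∈ I, F M ℓ (i - j) * (y i * y j) =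
      ∑ i ∈ E, ∑ j ∈ E, F M ℓ (i - j) * (y i * y j) := by
    rw [← Finset.sum_subset hEI]
    · refine Finset.sum_congr rfl fun i _ => ?_
      rw [← Finset.sum_subset hEI]
      intro j _ hj
      rw [hy0 j hj]; ring
    · intro i _ hi
      refine Finset.sum_eq_zero fun j _ => ?_
      rw [hy0 i hi]; ring
  have hYZ : ∑ i ∈ I, y i * ∑ j ∈ I, F M ℓ (j - i) * (c * h L j) =
      ∑ i ∈ E, y i * (c * ∑ k ∈ range M, H L (ℓ k) i) := by
    rw [← Finset.sum_subset hEI]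
    · refine Finset.sum_congr rfl fun i hi => ?_
      rw [hI, hc, G_eq i hi hN]
    · intro i _ hi
      rw [hy0 i hi]; ring
  have hZZ : ∑ i ∈ I, ∑ j ∈ I, F M ℓ (i - j) * ((c * h L i) * (c * h L j)) ≤
      2 * (c * V L M ℓ * (L + N)) := by
    have e1 : ∑ i ∈ I, ∑ j ∈ I, F M ℓ (i - j) * ((c * h L i) * (c * h L j)) ≤
        ∑ i ∈ I, ∑ j ∈ I, F M ℓ (i - j) * (c * c) := by
      refine Finset.sum_le_sum fun i _ => Finset.sum_le_sum fun j _ => ?_
      refine mul_le_mul_of_nonneg_left ?_ (F_nonneg _ _ _)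
      have h1 : |(c * h L i) * (c * h L j)| = c * c := by
        rw [abs_mul, abs_mul, abs_mul, h_abs, h_abs, abs_of_nonneg hc0]; ring
      exact (le_abs_self _).trans (le_of_eq h1)
    refine e1.trans ?_
    have e2 : ∑ i ∈ I, ∑ j ∈ I, F M ℓ (i - j) * (c * c) ≤ ∑ i ∈ I, K0 M ℓ * (c * c) := by
      refine Finset.sum_le_sum fun i _ => ?_
      rw [← Finset.sum_mul]
      exact mul_le_mul_of_nonneg_right (row_sum_le I i) (by positivity)
    refine e2.trans (le_of_eq ?_)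
    rw [Finset.sum_const, nsmul_eq_mul, hI, Int.card_Icc]
    have hcard : (((2 * L + N + 1 - (1 - (N : ℤ))).toNat : ℕ) : ℝ) = 2 * (L + N) := by
      have : ((2 * L + N + 1 - (1 - (N : ℤ))).toNat : ℤ) = 2 * (L + N) := by
        rw [Int.toNat_of_nonneg (by omega)]; ring
      exact_mod_cast this
    rw [hcard]
    have hKc : K0 M ℓ * c = V L M ℓ := by rw [hc]; field_simp
    calc (2 * ((L : ℝ) + N)) * (K0 M ℓ * (c * c)) = 2 * ((L : ℝ) + N) * ((K0 M ℓ * c) * c) := by ring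
      _ = _ := by rw [hKc]; ring
  rw [hYY, hYZ] at hp
  have hlin : ∑ i ∈ E, beta L M ℓ i * y i ≤ (4 * M * L + 8 * N * V L M ℓ) +
      ∑ i ∈ E, y i * (c * ∑ k ∈ range M, H L (ℓ k) i) := by
    have e1 : ∑ i ∈ E, beta L M ℓ i * y i =
        ∑ i ∈ E, (beta L M ℓ i - c * ∑ k ∈ range M, H L (ℓ k) i) * y i +
        ∑ i ∈ E, y i * (c * ∑ k ∈ range M, H L (ℓ k) i) := by
      rw [← Finset.sum_add_distrib]
      exact Finset.sum_congr rfl fun i _ => by ring
    rw [e1]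
    have e2 : ∑ i ∈ E, (beta L M ℓ i - c * ∑ k ∈ range M, H L (ℓ k) i) * y i ≤
        ∑ i ∈ E, |beta L M ℓ i - c * ∑ k ∈ range M, H L (ℓ k) i| := by
      refine Finset.sum_le_sum fun i _ => ?_
      refine (le_abs_self _).trans ?_
      rw [abs_mul]
      have := hy1 i
      have h3 := abs_nonneg (beta L M ℓ i - c * ∑ k ∈ range M, H L (ℓ k) i)
      nlinarith
    have := sum_delta hL hM hN
    linarith
  have hM' : (0 : ℝ) < M := by exact_mod_cast hM
  have hMy : (M : ℝ) * ∑ i ∈ E, (y i) ^ 2 ≤ M * (2 * L) := mul_le_mul_of_nonneg_left hy2 hM'.le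
  linarith

/-- The number of arcs is large. -/
theorem total_ge {L' : ℤ} (hLL : L = 2 * L') (hL4 : 8 ≤ L) (hN4 : 4 ≤ N) (hNL : (N : ℤ) ≤ L')
    (hex : ∃ k < M, ℓ k = N) :
    (L : ℝ) * N / 32 ≤ ∑ i ∈ Icc 1 (2 * L), ∑ j ∈ Icc 1 (2 * L), W L M ℓ i j := by
  have hL : 0 < L := by omega
  have hF : ∀ j : ℤ, |j| ≤ N → 1 ≤ F M ℓ j := by
    intro j hj
    obtain ⟨k, hk, hk'⟩ := hex
    unfold F
    have h1 : (1 : ℝ) = if |j| ≤ (ℓ k : ℤ) then 1 else 0 := by rw [hk', if_pos hj]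
    refine le_trans (le_of_eq h1) ?_
    refine Finset.single_le_sum (f := fun k => if |j| ≤ (ℓ k : ℤ) then (1 : ℝ) else 0) ?_
      (mem_range.mpr hk)
    intro i _
    positivity
  have hW0 : ∀ i j, 0 ≤ W L M ℓ i j := by
    intro i j
    unfold W
    split_ifs
    · exact mul_nonneg (mul_nonneg (a_nonneg hL _) (a_nonneg hL _)) (F_nonneg _ _ _)
    · exact le_rfl
  -- rows
  have hrow : ∀ i ∈ Ioc L' L, a L i * ((N : ℝ) / 2 - 1) ≤ ∑ j ∈ Icc 1 (2 * L), W L M ℓ i j := by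
    intro i hi
    rw [mem_Ioc] at hi
    have hsub : Ioc i (i + N) ⊆ Icc 1 (2 * L) := by
      intro j hj
      rw [mem_Ioc] at hj
      rw [mem_Icc]
      omega
    refine le_trans ?_ (Finset.sum_le_sum_of_subset_of_nonneg hsub fun j _ _ => hW0 i j)
    have h1 : ∑ j ∈ Ioc i (i + N), a L i * a L j ≤ ∑ j ∈ Ioc i (i + N), W L M ℓ i j := by
      refine Finset.sum_le_sum fun j hj => ?_
      rw [mem_Ioc] at hj
      unfold W
      rw [if_pos hj.1]
      have h2 := hF (j - i) (by rw [abs_le]; omega)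
      have h3 := mul_nonneg (a_nonneg hL i) (a_nonneg hL j)
      nlinarith
    refine le_trans ?_ h1
    rw [← Finset.mul_sum]
    refine mul_le_mul_of_nonneg_left ?_ (a_nonneg hL i)
    rw [A_diff (by omega)]
    refine le_trans ?_ (A_diff_ge (L := L) (i := i) (j := i + N))
    rw [R_diff (by omega : i ≤ i + N)]
    have h4 : ∑ s ∈ Ioc i (i + N), (1 / 2 : ℝ) ≤ ∑ s ∈ Ioc i (i + N), rho L s := by
      refine Finset.sum_le_sum fun s hs => ?_
      rw [mem_Ioc] at hs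
      exact rho_half hL (by omega) (by omega)
    have h5 : ∑ s ∈ Ioc i (i + N), (1 / 2 : ℝ) = N / 2 := by
      rw [Finset.sum_const, Int.card_Ioc]
      simp
      ring
    linarith
  have hsub2 : Ioc L' L ⊆ Icc 1 (2 * L) := by
    intro j hj
    rw [mem_Ioc] at hj
    rw [mem_Icc]
    omega
  have h6 : ∑ i ∈ Ioc L' L, a L i * ((N : ℝ) / 2 - 1) ≤
      ∑ i ∈ Icc 1 (2 * L), ∑ j ∈ Icc 1 (2 * L), W L M ℓ i j :=
    (Finset.sum_le_sum hrow).trans
      (Finset.sum_le_sum_of_subset_of_nonneg hsub2 fun i _ _ => Finset.sum_nonneg fun j _ => hW0 i j)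
  refine le_trans ?_ h6
  rw [← Finset.sum_mul, A_diff (by omega)]
  have h7 : (L : ℝ) / 4 - 1 ≤ (A L L : ℝ) - A L L' := by
    refine le_trans ?_ (A_diff_ge (L := L) (i := L') (j := L))
    rw [R_diff (by omega : L' ≤ L)]
    have h4 : ∑ s ∈ Ioc L' L, (1 / 2 : ℝ) ≤ ∑ s ∈ Ioc L' L, rho L s := by
      refine Finset.sum_le_sum fun s hs => ?_
      rw [mem_Ioc] at hs
      exact rho_half hL (by omega) (by omega)
    have h5 : ∑ s ∈ Ioc L' L, (1 / 2 : ℝ) = L / 4 := by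
      rw [Finset.sum_const, Int.card_Ioc, nsmul_eq_mul]
      have : ((L - L').toNat : ℤ) = L' := by rw [Int.toNat_of_nonneg (by omega)]; omega
      have h8 : (((L - L').toNat : ℕ) : ℝ) = L' := by exact_mod_cast this
      rw [h8, hLL]; push_cast; ring
    linarith
  have hL8 : (8 : ℝ) ≤ L := by exact_mod_cast hL4
  have hN8 : (4 : ℝ) ≤ N := by exact_mod_cast hN4
  have h8 : (L : ℝ) / 8 ≤ (A L L : ℝ) - A L L' := by linarith
  have h9 : (N : ℝ) / 4 ≤ N / 2 - 1 := by linarith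
  calc (L : ℝ) * N / 32 = (L / 8) * (N / 4) := by ring
    _ ≤ _ := mul_le_mul h8 h9 (by positivity) (by linarith)

end

/-- The family of acyclic multigraphs. -/
theorem family (r : ℕ) (hr : 1 ≤ r) : ∃ (n : ℕ) (w : Fin n → Fin n → ℝ), Multi w ∧ Acyclic w ∧
    (32 : ℝ) ^ r / 32 ≤ total w ∧
    mac w ≤ total w / 4 + 28000 * ((r : ℝ) + 1) ^ 3 * 8 ^ r := by
  obtain ⟨M, ℓ, hMle, hℓ, hex, hpos⟩ := Kernel.kernel r
  set N : ℕ := 4 ^ r with hNdef
  obtain ⟨L, hLdef⟩ : ∃ L : ℤ, L = 8 ^ r := ⟨_, rfl⟩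
  have hM : 0 < M := by
    obtain ⟨k, hk, -⟩ := hex
    omega
  have hL8 : (8 : ℤ) ≤ L := by
    rw [hLdef]
    calc (8 : ℤ) = 8 ^ 1 := by norm_num
      _ ≤ 8 ^ r := pow_le_pow_right₀ (by norm_num) hr
  have hL : 0 < L := by omega
  have hNL : (2 : ℤ) * N ≤ L := by
    rw [hLdef, hNdef]
    push_cast
    have h1 : (8 : ℤ) ^ r = 2 ^ r * 4 ^ r := by rw [← mul_pow]; norm_num
    have h2 : (2 : ℤ) ≤ 2 ^ r := by
      calc (2 : ℤ) = 2 ^ 1 := by norm_num
        _ ≤ 2 ^ r := pow_le_pow_right₀ (by norm_num) hr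
    rw [h1]
    have : (0 : ℤ) ≤ 4 ^ r := by positivity
    nlinarith
  have hN4 : 4 ≤ N := by
    rw [hNdef]
    calc 4 = 4 ^ 1 := by norm_num
      _ ≤ 4 ^ r := Nat.pow_le_pow_right (by norm_num) hr
  have hpsd : ∀ x : ℤ → ℝ, 0 ≤ ∑ i ∈ Icc (1 - (N : ℤ)) (2 * L + N),
      ∑ j ∈ Icc (1 - (N : ℤ)) (2 * L + N), F M ℓ (i - j) * (x i * x j) := by
    intro x
    refine psd M ℓ (16 * 8 ^ r) N (by positivity) hℓ ?_ _ ?_ x
    · intro t h0 h1
      have := hpos t h0 h1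
      push_cast
      exact this
    · intro i hi j hj
      rw [mem_Icc] at hi hj
      have h1 : |i - j| ≤ 2 * L + 2 * N := by rw [abs_le]; omega
      push_cast
      rw [← hLdef]
      omega
  have hLr : (L : ℝ) = 8 ^ r := by rw [hLdef]; push_cast; rfl
  have hNr : (N : ℝ) = 4 ^ r := by rw [hNdef]; push_cast; rfl
  have hL' : (0 : ℝ) < L := by exact_mod_cast hL
  have h2r : (0 : ℝ) < 2 ^ r := by positivity
  have h82 : (8 : ℝ) ^ r = 2 ^ r * 4 ^ r := by rw [← mul_pow]; norm_num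
  have h42 : (4 : ℝ) ^ r = 2 ^ r * 2 ^ r := by rw [← mul_pow]; norm_num
  have hMr : (0 : ℝ) < M := by exact_mod_cast hM
  have hK := K0_pos (ℓ := ℓ) hM
  have hV0 := V_nonneg (M := M) (ℓ := ℓ) hL
  -- bounds for V
  have hV : V L M ℓ ≤ 2 * M * 2 ^ r := by
    unfold V
    have h1 : ∀ k ∈ range M, ((ℓ k : ℝ) * (ℓ k + 1) / L : ℝ) ≤ 2 * 2 ^ r := by
      intro k _
      have hk : (ℓ k : ℝ) ≤ 4 ^ r := by
        have := hℓ k
        rw [← hNr]
        exact_mod_cast this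
      have hk0 : (0 : ℝ) ≤ ℓ k := Nat.cast_nonneg _
      rw [div_le_iff₀ hL', hLr]
      have h4 : (1 : ℝ) ≤ 4 ^ r := one_le_pow₀ (by norm_num)
      calc (ℓ k : ℝ) * (ℓ k + 1) ≤ 4 ^ r * (2 * 4 ^ r) :=
            mul_le_mul hk (by linarith) (by positivity) (by positivity)
        _ = 2 * 2 ^ r * 8 ^ r := by rw [h82, h42]; ring
    refine (Finset.sum_le_sum h1).trans (le_of_eq ?_)
    simp
    ring
  have hc : V L M ℓ / K0 M ℓ * 2 ^ r ≤ 1 := by
    rw [div_mul_eq_mul_div, div_le_one hK]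
    unfold V K0
    rw [Finset.sum_mul]
    refine Finset.sum_le_sum fun k _ => ?_
    have hk : (ℓ k : ℝ) ≤ 4 ^ r := by
      have := hℓ k
      rw [← hNr]
      exact_mod_cast this
    have hk0 : (0 : ℝ) ≤ ℓ k := Nat.cast_nonneg _
    rw [div_mul_eq_mul_div, div_le_iff₀ hL', hLr, h82]
    have h5 : (ℓ k : ℝ) * (ℓ k + 1) ≤ (2 * ℓ k + 1) * 4 ^ r := by nlinarith
    nlinarith
  have hmain : ∀ x : ℤ → ℝ, (∀ i, x i = 1 ∨ x i = -1) →
      ∑ i ∈ Icc 1 (2 * L), ∑ j ∈ Icc 1 (2 * L), W L M ℓ i j * (x i - x j) -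
      ∑ i ∈ Icc 1 (2 * L), ∑ j ∈ Icc 1 (2 * L), W L M ℓ i j * (x i * x j) ≤
      28 * M * 8 ^ r := by
    intro x hx
    refine (main_ineq hL hM hℓ hpsd x hx).trans ?_
    have h1 : 8 * (N : ℝ) * V L M ℓ ≤ 16 * M * 8 ^ r := by
      rw [hNr, h82]
      have : (0 : ℝ) < 4 ^ r := by positivity
      nlinarith [mul_le_mul_of_nonneg_left hV this.le]
    have h2 : V L M ℓ / K0 M ℓ * V L M ℓ * (L + N) ≤ 4 * M * 8 ^ r := by
      have h3 : V L M ℓ / K0 M ℓ * V L M ℓ ≤ 2 * M := by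
        have h4 : V L M ℓ / K0 M ℓ * V L M ℓ ≤ V L M ℓ / K0 M ℓ * (2 * M * 2 ^ r) :=
          mul_le_mul_of_nonneg_left hV (by positivity)
        have h5 : V L M ℓ / K0 M ℓ * (2 * M * 2 ^ r) = (V L M ℓ / K0 M ℓ * 2 ^ r) * (2 * M) := by ring
        rw [h5] at h4
        nlinarith
      have h6 : (L : ℝ) + N ≤ 2 * 8 ^ r := by
        have : (N : ℝ) ≤ L := by
          have : (N : ℤ) ≤ L := by omega
          exact_mod_cast this
        rw [← hLr]; linarith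
      calc V L M ℓ / K0 M ℓ * V L M ℓ * (L + N) ≤ (2 * M) * (2 * 8 ^ r) :=
            mul_le_mul h3 h6 (by positivity) (by positivity)
        _ = 4 * M * 8 ^ r := by ring
    have h7 : 5 * (M : ℝ) * L ≤ 8 * M * 8 ^ r := by
      rw [hLr]
      have : (0 : ℝ) < M * 8 ^ r := by positivity
      linarith
    linarith
  obtain ⟨w, h1, h2, h3, h4⟩ := transport (Icc 1 (2 * L)) (W L M ℓ) id (by
    intro u _ v _ h
    unfold W at h
    by_contra h'
    apply h
    rw [if_neg]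
    exact h')
  refine ⟨_, w, ?_, h1, ?_, ?_⟩
  · intro i j
    obtain ⟨u, -, v, -, h⟩ := h4 i j
    rw [h]
    unfold W
    split_ifs with huv
    · rcases a_zero_or_one hL u with hu | hu
      · exact ⟨0, by rw [hu]; simp⟩
      · rcases a_zero_or_one hL v with hv | hv
        · exact ⟨0, by rw [hv]; simp⟩
        · refine ⟨((range M).filter fun k => |v - u| ≤ (ℓ k : ℤ)).card, ?_⟩
          rw [hu, hv]
          unfold F
          rw [← Finset.sum_filter]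
          simp
    · exact ⟨0, by simp⟩
  · rw [h2]
    refine le_trans ?_ (total_ge (L' := 4 * 8 ^ (r - 1)) ?_ hL8 hN4 ?_ hex)
    · rw [hLr, hNr, ← mul_pow]
      norm_num
    · rw [hLdef]
      obtain ⟨s, rfl⟩ := Nat.exists_eq_add_of_le' hr
      simp
      ring
    · have : (4 : ℤ) * 8 ^ (r - 1) * 2 = 8 ^ r := by
        obtain ⟨s, rfl⟩ := Nat.exists_eq_add_of_le' hr
        simp
        ring
      rw [← hLdef] at this
      omega
  · refine h3 _ fun x hx => ?_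
    rw [cut_expand, h2]
    have h5 := hmain x hx
    have h6 : (28 : ℝ) * M * 8 ^ r ≤ 28 * (4000 * ((r : ℝ) + 1) ^ 3) * 8 ^ r := by
      have : (0 : ℝ) ≤ 8 ^ r := by positivity
      nlinarith
    have h7 : (28000 : ℝ) * ((r : ℝ) + 1) ^ 3 * 8 ^ r = 28 * (4000 * ((r : ℝ) + 1) ^ 3) * 8 ^ r / 4 := by
      ring
    rw [h7]
    linarith

end Pool.Agent.Lib.MP_7cecc1_co.MU
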