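import Pool.Agent.Lib.MP_7cecc1_co.Transport

namespace Pool.Agent.Lib.MP_7cecc1_co.SU

open Finset

/-- Real sign of an integer. -/
noncomputable def sg (t : ℤ) : ℝ := if 0 < t then 1 else if t < 0 then -1 else 0

theorem sg_pos {t : ℤ} (h : 0 < t) : sg t = 1 := by simp [sg, h]
theorem sg_neg {t : ℤ} (h : t < 0) : sg t = -1 := by
  have : ¬ 0 < t := by omega
  simp [sg, h, this]
theorem sg_zero : sg 0 = 0 := by simp [sg]

theorem sum_sg (lo hi q : ℤ) (h1 : lo ≤ q) (h2 : q ≤ hi) :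
    ∑ c ∈ Icc lo hi, sg (c - q) = ((hi - q) - (q - lo) : ℤ) := by
  have hsplit : Icc lo hi = (Ico lo q ∪ {q}) ∪ Ioc q hi := by
    ext c; simp only [mem_Icc, mem_union, mem_Ico, mem_singleton, mem_Ioc]; omega
  rw [hsplit, Finset.sum_union, Finset.sum_union]
  · have e1 : ∑ c ∈ Ico lo q, sg (c - q) = ∑ c ∈ Ico lo q, (-1 : ℝ) :=
      Finset.sum_congr rfl fun c hc => by
        rw [mem_Ico] at hc
        exact sg_neg (by omega)
    have e2 : ∑ c ∈ Ioc q hi, sg (c - q) = ∑ c ∈ Ioc q hi, (1 : ℝ) :=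
      Finset.sum_congr rfl fun c hc => by
        rw [mem_Ioc] at hc
        exact sg_pos (by omega)
    rw [e1, e2, Finset.sum_singleton, sub_self, sg_zero]
    rw [Finset.sum_const, Finset.sum_const, Int.card_Ico, Int.card_Ioc]
    have c1 : (((q - lo).toNat : ℕ) : ℝ) = ((q - lo : ℤ) : ℝ) := by
      have : (((q - lo).toNat : ℤ)) = q - lo := Int.toNat_of_nonneg (by omega)
      exact_mod_cast this
    have c2 : (((hi - q).toNat : ℕ) : ℝ) = ((hi - q : ℤ) : ℝ) := by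
      have : (((hi - q).toNat : ℤ)) = hi - q := Int.toNat_of_nonneg (by omega)
      exact_mod_cast this
    rw [nsmul_eq_mul, nsmul_eq_mul, c1, c2]
    push_cast
    ring
  · rw [Finset.disjoint_left]; intro c; simp only [mem_Ico, mem_singleton]; omega
  · rw [Finset.disjoint_left]; intro c; simp only [mem_union, mem_Ico, mem_singleton, mem_Ioc]; omega

/-- Last position. -/
def Lm (m : ℕ) : ℤ := 2 * (m : ℤ) ^ 3

def cond (m : ℕ) (a b : ℤ) : Prop := a < b ∧ (b - a) * m ≤ a ∧ (b - a) * m ≤ Lm m - b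

instance (m : ℕ) (a b : ℤ) : Decidable (cond m a b) := by unfold cond; infer_instance

/-- The vertices of the digraph: pairs of positions. -/
noncomputable def E (m : ℕ) : Finset (ℤ × ℤ) := ((Icc 0 (Lm m)) ×ˢ (Icc 0 (Lm m))).filter fun p => cond m p.1 p.2

theorem mem_E {m : ℕ} {p : ℤ × ℤ} : p ∈ E m ↔
    (p.1 ∈ Icc 0 (Lm m) ∧ p.2 ∈ Icc 0 (Lm m)) ∧ cond m p.1 p.2 := by
  unfold E; rw [mem_filter, mem_product]

noncomputable def inc (a : ℤ) (e : ℤ × ℤ) : ℝ := (if e.1 = a then 1 else 0) + (if e.2 = a then 1 else 0)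

/-- Arcs: pairs with a common endpoint, in the direction of the larger sum. -/
noncomputable def W (e e' : ℤ × ℤ) : ℝ :=
  if (e.1 = e'.1 ∨ e.1 = e'.2 ∨ e.2 = e'.1 ∨ e.2 = e'.2) ∧ e.1 + e.2 < e'.1 + e'.2 then 1 else 0

theorem sum_inc {m : ℕ} {e : ℤ × ℤ} (he : e ∈ E m) (G : ℤ → ℝ) :
    ∑ a ∈ Icc 0 (Lm m), inc a e * G a = G e.1 + G e.2 := by
  obtain ⟨⟨h1, h2⟩, -⟩ := mem_E.mp he
  unfold inc
  simp only [add_mul, Finset.sum_add_distrib, ite_mul, one_mul, zero_mul]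
  rw [Finset.sum_ite_eq, Finset.sum_ite_eq, if_pos h1, if_pos h2]

theorem sum_inc_inc {m : ℕ} {e e' : ℤ × ℤ} (he : e ∈ E m) :
    ∑ a ∈ Icc 0 (Lm m), inc a e * inc a e' =
      ((if e'.1 = e.1 then 1 else 0) + (if e'.2 = e.1 then 1 else 0)) +
      ((if e'.1 = e.2 then 1 else 0) + (if e'.2 = e.2 then 1 else 0)) := by
  rw [sum_inc he]
  rfl

theorem W_add {m : ℕ} {e e' : ℤ × ℤ} (he : e ∈ E m) (he' : e' ∈ E m) :
    W e e' + W e' e = ∑ a ∈ Icc 0 (Lm m), inc a e * inc a e' - (if e = e' then 2 else 0) := by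
  rw [sum_inc_inc he]
  obtain ⟨-, h, -⟩ := mem_E.mp he
  obtain ⟨-, h', -⟩ := mem_E.mp he'
  obtain ⟨a, b⟩ := e
  obtain ⟨c, d⟩ := e'
  simp only at h h'
  unfold W
  simp only [Prod.mk.injEq]
  by_cases h1 : c = a
  · subst h1
    by_cases h2 : d = b
    · subst h2
      have n1 : ¬ d = c := by omega
      have n2 : ¬ c = d := by omega
      simp [n1, n2]
      norm_num
    · have n1 : ¬ d = c := by omega
      have n2 : ¬ c = b := by omega
      have n3 : ¬ b = d := by omega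
      rcases lt_or_gt_of_ne h2 with h3 | h3
      · have n4 : ¬ b < d := by omega
        simp [n1, n2, n3, h2, h3, n4]
      · have n4 : ¬ d < b := by omega
        simp [n1, n2, n3, h2, h3, n4]
  · by_cases h2 : d = b
    · subst h2
      have n1 : ¬ d = a := by omega
      have n2 : ¬ c = d := by omega
      have n3 : ¬ a = c := by omega
      rcases lt_or_gt_of_ne h1 with h3 | h3
      · have n4 : ¬ a < c := by omega
        simp [n1, n2, n3, h1, h3, n4]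
      · have n4 : ¬ c < a := by omega
        simp [n1, n2, n3, h1, h3, n4]
    · by_cases h3 : d = a
      · subst h3
        have n1 : ¬ c = b := by omega
        have n2 : ¬ c = d := by omega
        have n3 : ¬ d = b := by omega
        have n4 : c + d < d + b := by omega
        have n5 : ¬ d + b < c + d := by omega
        have n6 : ¬ d = c := by omega
        simp [n1, n2, n3, n4, n5, n6]
      · by_cases h4 : c = b
        · subst h4
          have n4 : ¬ c + d < a + c := by omega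
          have n5 : a + c < c + d := by omega
          have n6 : ¬ a = d := by omega
          have n7 : ¬ a = c := by omega
          simp [h1, h2, h3, n4, n5, n6, n7]
        · have n1 : ¬ a = c := by omega
          have n2 : ¬ a = d := by omega
          have n3 : ¬ b = c := by omega
          have n4 : ¬ b = d := by omega
          simp [h1, h2, h3, h4, n1, n2, n3, n4]

theorem W_sub {m : ℕ} {e e' : ℤ × ℤ} (he : e ∈ E m) (he' : e' ∈ E m) :
    W e e' - W e' e = ∑ a ∈ Icc 0 (Lm m), inc a e * (inc a e' * sg (e'.1 + e'.2 - (e.1 + e.2))) := by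
  have hS : ∑ a ∈ Icc 0 (Lm m), inc a e * (inc a e' * sg (e'.1 + e'.2 - (e.1 + e.2))) =
      (∑ a ∈ Icc 0 (Lm m), inc a e * inc a e') * sg (e'.1 + e'.2 - (e.1 + e.2)) := by
    rw [Finset.sum_mul]
    exact Finset.sum_congr rfl fun a _ => by ring
  have hadd := W_add he he'
  rw [hS]
  rcases lt_trichotomy (e.1 + e.2) (e'.1 + e'.2) with h | h | h
  · have hne : e ≠ e' := by rintro rfl; exact lt_irrefl _ h
    have h0 : W e' e = 0 := by
      unfold W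
      rw [if_neg]
      rintro ⟨-, h'⟩
      omega
    rw [if_neg hne, h0] at hadd
    rw [sg_pos (by omega), h0]
    linarith
  · have h0 : W e' e = 0 := by
      unfold W
      rw [if_neg]
      rintro ⟨-, h'⟩
      omega
    have h1 : W e e' = 0 := by
      unfold W
      rw [if_neg]
      rintro ⟨-, h'⟩
      omega
    have : e'.1 + e'.2 - (e.1 + e.2) = 0 := by omega
    rw [this, sg_zero, h0, h1]
    ring
  · have hne : e ≠ e' := by rintro rfl; exact lt_irrefl _ h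
    have h0 : W e e' = 0 := by
      unfold W
      rw [if_neg]
      rintro ⟨-, h'⟩
      omega
    rw [if_neg hne, h0] at hadd
    rw [sg_neg (by omega), h0]
    linarith

/-- Number of later neighbours. -/
def dp (m : ℕ) (a : ℤ) : ℤ := min (a / m) ((Lm m - a) / (m + 1))
/-- Number of earlier neighbours. -/
def dm (m : ℕ) (a : ℤ) : ℤ := min (a / (m + 1)) ((Lm m - a) / m)

noncomputable def Nb (m : ℕ) (a : ℤ) : Finset ℤ := (Icc (a - dm m a) (a + dp m a)).erase a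

theorem cond_iff_dp {m : ℕ} (hm : 0 < m) {a b : ℤ} :
    cond m a b ↔ a < b ∧ b ≤ a + dp m a := by
  unfold cond dp
  have hm' : (0 : ℤ) < m := by exact_mod_cast hm
  have hm1 : (0 : ℤ) < (m : ℤ) + 1 := by omega
  have e1 : b ≤ a + min (a / (m : ℤ)) ((Lm m - a) / ((m : ℤ) + 1)) ↔
      b - a ≤ a / (m : ℤ) ∧ b - a ≤ (Lm m - a) / ((m : ℤ) + 1) := by
    rw [← le_min_iff]; constructor <;> intro h <;> linarith
  rw [e1, Int.le_ediv_iff_mul_le hm', Int.le_ediv_iff_mul_le hm1]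
  constructor
  · rintro ⟨h1, h2, h3⟩
    exact ⟨h1, h2, by linarith⟩
  · rintro ⟨h1, h2, h3⟩
    exact ⟨h1, h2, by linarith⟩

theorem cond_iff_dm {m : ℕ} (hm : 0 < m) {a b : ℤ} :
    cond m b a ↔ b < a ∧ a - dm m a ≤ b := by
  unfold cond dm
  have hm' : (0 : ℤ) < m := by exact_mod_cast hm
  have hm1 : (0 : ℤ) < (m : ℤ) + 1 := by omega
  have e1 : a - min (a / ((m : ℤ) + 1)) ((Lm m - a) / (m : ℤ)) ≤ b ↔
      a - b ≤ a / ((m : ℤ) + 1) ∧ a - b ≤ (Lm m - a) / (m : ℤ) := by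
    rw [← le_min_iff]; constructor <;> intro h <;> linarith
  rw [e1, Int.le_ediv_iff_mul_le hm', Int.le_ediv_iff_mul_le hm1]
  constructor
  · rintro ⟨h1, h2, h3⟩
    exact ⟨h1, by linarith, h3⟩
  · rintro ⟨h1, h2, h3⟩
    exact ⟨h1, by linarith, h3⟩

theorem dp_nonneg {m : ℕ} {a : ℤ} (ha : a ∈ Icc 0 (Lm m)) : 0 ≤ dp m a := by
  rw [mem_Icc] at ha
  unfold dp
  exact le_min (Int.ediv_nonneg ha.1 (by positivity)) (Int.ediv_nonneg (by omega) (by positivity))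

theorem dm_nonneg {m : ℕ} {a : ℤ} (ha : a ∈ Icc 0 (Lm m)) : 0 ≤ dm m a := by
  rw [mem_Icc] at ha
  unfold dm
  exact le_min (Int.ediv_nonneg ha.1 (by positivity)) (Int.ediv_nonneg (by omega) (by positivity))

theorem dp_le {m : ℕ} {a : ℤ} (ha : a ∈ Icc 0 (Lm m)) : a + dp m a ≤ Lm m := by
  rw [mem_Icc] at ha
  have : dp m a ≤ (Lm m - a) / ((m : ℤ) + 1) := min_le_right _ _
  have h2 : (Lm m - a) / ((m : ℤ) + 1) ≤ Lm m - a := Int.ediv_le_self _ (by omega)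
  omega

theorem dm_le {m : ℕ} {a : ℤ} (ha : a ∈ Icc 0 (Lm m)) : 0 ≤ a - dm m a := by
  rw [mem_Icc] at ha
  have : dm m a ≤ a / ((m : ℤ) + 1) := min_le_left _ _
  have h2 : a / ((m : ℤ) + 1) ≤ a := Int.ediv_le_self _ (by omega)
  omega

theorem mem_Nb {m : ℕ} (hm : 0 < m) {a c : ℤ} (ha : a ∈ Icc 0 (Lm m)) :
    c ∈ Nb m a ↔ cond m a c ∨ cond m c a := by
  unfold Nb
  rw [cond_iff_dp hm, cond_iff_dm hm, mem_erase, mem_Icc]
  have h1 := dp_nonneg ha
  have h2 := dm_nonneg ha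
  constructor
  · rintro ⟨h3, h4, h5⟩
    rcases lt_or_gt_of_ne h3 with h | h
    · right; exact ⟨h, h4⟩
    · left; exact ⟨h, h5⟩
  · rintro (⟨h3, h4⟩ | ⟨h3, h4⟩)
    · exact ⟨by omega, by omega, h4⟩
    · exact ⟨by omega, h4, by omega⟩

theorem Nb_subset {m : ℕ} {a : ℤ} (ha : a ∈ Icc 0 (Lm m)) : Nb m a ⊆ Icc 0 (Lm m) := by
  intro c hc
  unfold Nb at hc
  rw [mem_erase, mem_Icc] at hc
  have h1 := dp_le ha
  have h2 := dm_le ha
  rw [mem_Icc]
  omega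

theorem sum_E_inc {m : ℕ} (hm : 0 < m) {a : ℤ} (ha : a ∈ Icc 0 (Lm m)) (f : ℤ → ℝ) :
    ∑ e ∈ E m, inc a e * f (e.1 + e.2) = ∑ c ∈ Nb m a, f (a + c) := by
  have hR : ∑ c ∈ Nb m a, f (a + c) = ∑ c ∈ Icc 0 (Lm m), if c ∈ Nb m a then f (a + c) else 0 := by
    rw [← Finset.sum_filter]
    refine Finset.sum_congr ?_ fun _ _ => rfl
    ext c
    rw [mem_filter]
    exact ⟨fun h => ⟨Nb_subset ha h, h⟩, fun h => h.2⟩
  rw [hR]
  unfold E
  rw [Finset.sum_filter, Finset.sum_product]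
  have h1 : ∀ x ∈ Icc 0 (Lm m), ∀ y ∈ Icc 0 (Lm m),
      (if cond m x y then inc a (x, y) * f (x + y) else 0) =
      (if x = a then (if cond m a y then f (a + y) else 0) else 0) +
      (if y = a then (if cond m x a then f (x + a) else 0) else 0) := by
    intro x _ y _
    unfold inc
    by_cases h1 : x = a
    · subst h1
      by_cases h2 : y = x
      · subst h2
        have : ¬ cond m y y := fun h => lt_irrefl _ h.1
        simp [this]
      · simp [h2]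
    · by_cases h2 : y = a
      · subst h2
        simp [h1]
      · simp [h1, h2]
  rw [Finset.sum_congr rfl fun x hx => Finset.sum_congr rfl fun y hy => h1 x hx y hy]
  simp only [Finset.sum_add_distrib]
  have h2 : ∑ x ∈ Icc 0 (Lm m), ∑ y ∈ Icc 0 (Lm m),
      (if x = a then (if cond m a y then f (a + y) else 0) else 0) =
      ∑ y ∈ Icc 0 (Lm m), if cond m a y then f (a + y) else 0 := by
    rw [Finset.sum_comm]
    refine Finset.sum_congr rfl fun y _ => ?_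
    rw [Finset.sum_ite_eq' _ a, if_pos ha]
  have h3 : ∑ x ∈ Icc 0 (Lm m), ∑ y ∈ Icc 0 (Lm m),
      (if y = a then (if cond m x a then f (x + a) else 0) else 0) =
      ∑ x ∈ Icc 0 (Lm m), if cond m x a then f (x + a) else 0 := by
    refine Finset.sum_congr rfl fun y _ => ?_
    rw [Finset.sum_ite_eq' _ a, if_pos ha]
  rw [h2, h3, ← Finset.sum_add_distrib]
  refine Finset.sum_congr rfl fun c _ => ?_
  rw [add_comm c a]
  by_cases h4 : cond m a c
  · have h5 : ¬ cond m c a := by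
      intro h; have := h.1; have := h4.1; omega
    have h6 : c ∈ Nb m a := (mem_Nb hm ha).mpr (Or.inl h4)
    simp [h4, h5, h6]
  · by_cases h5 : cond m c a
    · have h6 : c ∈ Nb m a := (mem_Nb hm ha).mpr (Or.inr h5)
      simp [h4, h5, h6]
    · have h6 : ¬ c ∈ Nb m a := fun h => by
        rcases (mem_Nb hm ha).mp h with h | h
        · exact h4 h
        · exact h5 h
      simp [h4, h5, h6]

/-- Out-degree minus in-degree along the line. -/
noncomputable def z (m : ℕ) (a : ℤ) : ℝ := ((dp m a - dm m a : ℤ) : ℝ)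

theorem card_Nb {m : ℕ} {a : ℤ} (ha : a ∈ Icc 0 (Lm m)) :
    ((Nb m a).card : ℝ) = ((dp m a + dm m a : ℤ) : ℝ) := by
  have h1 := dp_nonneg ha
  have h2 := dm_nonneg ha
  have h3 : a ∈ Icc (a - dm m a) (a + dp m a) := by rw [mem_Icc]; omega
  unfold Nb
  rw [card_erase_of_mem h3, Int.card_Icc]
  have : (((a + dp m a + 1 - (a - dm m a)).toNat - 1 : ℕ) : ℤ) = dp m a + dm m a := by omega
  exact_mod_cast this

theorem balance {m : ℕ} (hm : 0 < m) {e : ℤ × ℤ} (he : e ∈ E m) :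
    ∑ a ∈ Icc 0 (Lm m), inc a e * ∑ c ∈ Nb m a, sg (a + c - (e.1 + e.2)) =
      z m e.1 + z m e.2 := by
  rw [sum_inc he (fun a => ∑ c ∈ Nb m a, sg (a + c - (e.1 + e.2)))]
  obtain ⟨⟨h1, h2⟩, h3⟩ := mem_E.mp he
  obtain ⟨p, q⟩ := e
  simp only at h1 h2 h3 ⊢
  have hp1 := dp_nonneg h1
  have hp2 := dm_nonneg h1
  have hq1 := dp_nonneg h2
  have hq2 := dm_nonneg h2
  have hqp := (cond_iff_dp hm).mp h3
  have hpq := (cond_iff_dm hm).mp h3
  have A1 : ∑ c ∈ Nb m p, sg (p + c - (p + q)) = ∑ c ∈ Icc (p - dm m p) (p + dp m p), sg (c - q) - sg (p - q) := by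
    unfold Nb
    rw [← Finset.sum_erase_add (Icc (p - dm m p) (p + dp m p)) _ (by rw [mem_Icc]; omega : p ∈ Icc (p - dm m p) (p + dp m p))]
    rw [add_sub_cancel_right]
    refine Finset.sum_congr rfl fun c _ => ?_
    congr 1
    ring
  have A2 : ∑ c ∈ Nb m q, sg (q + c - (p + q)) = ∑ c ∈ Icc (q - dm m q) (q + dp m q), sg (c - p) - sg (q - p) := by
    unfold Nb
    rw [← Finset.sum_erase_add (Icc (q - dm m q) (q + dp m q)) _ (by rw [mem_Icc]; omega : q ∈ Icc (q - dm m q) (q + dp m q))]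
    rw [add_sub_cancel_right]
    refine Finset.sum_congr rfl fun c _ => ?_
    congr 1
    ring
  rw [A1, A2, sum_sg _ _ _ (by omega) (by omega), sum_sg _ _ _ (by omega) (by omega),
    sg_neg (by omega), sg_pos (by omega)]
  unfold z
  push_cast
  ring

theorem sum_W_lin {m : ℕ} (hm : 0 < m) (x : ℤ × ℤ → ℝ) :
    ∑ e ∈ E m, ∑ e' ∈ E m, W e e' * (x e - x e') =
      ∑ a ∈ Icc 0 (Lm m), z m a * ∑ e ∈ E m, inc a e * x e := by
  have h1 : ∑ e ∈ E m, ∑ e' ∈ E m, W e e' * (x e - x e') =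
      ∑ e ∈ E m, ∑ e' ∈ E m, (W e e' - W e' e) * x e := by
    simp only [mul_sub, sub_mul, Finset.sum_sub_distrib]
    congr 1
    rw [Finset.sum_comm]
  rw [h1]
  have h2 : ∀ e ∈ E m, ∑ e' ∈ E m, (W e e' - W e' e) * x e = (z m e.1 + z m e.2) * x e := by
    intro e he
    rw [← Finset.sum_mul, ← balance hm he]
    congr 1
    rw [Finset.sum_congr rfl fun e' he' => W_sub he he', Finset.sum_comm]
    refine Finset.sum_congr rfl fun a ha => ?_
    rw [← Finset.mul_sum]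
    congr 1
    rw [sum_E_inc hm ha (fun t => sg (t - (e.1 + e.2)))]
  rw [Finset.sum_congr rfl h2]
  have h3 : ∀ e ∈ E m, (z m e.1 + z m e.2) * x e =
      ∑ a ∈ Icc 0 (Lm m), z m a * (inc a e * x e) := by
    intro e he
    rw [← sum_inc he (z m), Finset.sum_mul]
    refine Finset.sum_congr rfl fun a _ => by ring
  rw [Finset.sum_congr rfl h3, Finset.sum_comm]
  refine Finset.sum_congr rfl fun a _ => ?_
  rw [Finset.mul_sum]

theorem sum_W_quad {m : ℕ} (x : ℤ × ℤ → ℝ) :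
    ∑ e ∈ E m, ∑ e' ∈ E m, W e e' * (x e * x e') =
      (∑ a ∈ Icc 0 (Lm m), (∑ e ∈ E m, inc a e * x e) ^ 2 - 2 * ∑ e ∈ E m, x e ^ 2) / 2 := by
  have h1 : ∑ e ∈ E m, ∑ e' ∈ E m, W e e' * (x e * x e') +
      ∑ e ∈ E m, ∑ e' ∈ E m, W e e' * (x e * x e') =
      ∑ e ∈ E m, ∑ e' ∈ E m, (W e e' + W e' e) * (x e * x e') := by
    nth_rw 2 [Finset.sum_comm]
    rw [← Finset.sum_add_distrib]
    refine Finset.sum_congr rfl fun e _ => ?_
    rw [← Finset.sum_add_distrib]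
    refine Finset.sum_congr rfl fun e' _ => by ring
  have h2 : ∑ e ∈ E m, ∑ e' ∈ E m, (W e e' + W e' e) * (x e * x e') =
      ∑ e ∈ E m, ∑ e' ∈ E m, (∑ a ∈ Icc 0 (Lm m), inc a e * inc a e') * (x e * x e') -
      ∑ e ∈ E m, ∑ e' ∈ E m, (if e = e' then (2 : ℝ) else 0) * (x e * x e') := by
    rw [← Finset.sum_sub_distrib]
    refine Finset.sum_congr rfl fun e he => ?_
    rw [← Finset.sum_sub_distrib]
    refine Finset.sum_congr rfl fun e' he' => ?_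
    rw [W_add he he']
    ring
  have h3 : ∑ e ∈ E m, ∑ e' ∈ E m, (if e = e' then (2 : ℝ) else 0) * (x e * x e') =
      2 * ∑ e ∈ E m, x e ^ 2 := by
    rw [Finset.mul_sum]
    refine Finset.sum_congr rfl fun e he => ?_
    simp only [ite_mul, zero_mul]
    rw [Finset.sum_ite_eq, if_pos he]
    ring
  have h4 : ∑ e ∈ E m, ∑ e' ∈ E m, (∑ a ∈ Icc 0 (Lm m), inc a e * inc a e') * (x e * x e') =
      ∑ a ∈ Icc 0 (Lm m), (∑ e ∈ E m, inc a e * x e) ^ 2 := by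
    have h5 : ∀ a, (∑ e ∈ E m, inc a e * x e) ^ 2 =
        ∑ e ∈ E m, ∑ e' ∈ E m, (inc a e * inc a e') * (x e * x e') := by
      intro a
      rw [sq, Finset.sum_mul_sum]
      refine Finset.sum_congr rfl fun e _ => Finset.sum_congr rfl fun e' _ => by ring
    simp only [h5, Finset.sum_mul]
    rw [Finset.sum_comm (s := Icc 0 (Lm m))]
    refine Finset.sum_congr rfl fun e _ => ?_
    rw [Finset.sum_comm]
  rw [h2, h3, h4] at h1
  linarith

theorem sum_inc_one {m : ℕ} (hm : 0 < m) {a : ℤ} (ha : a ∈ Icc 0 (Lm m)) :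
    ∑ e ∈ E m, inc a e = ((dp m a + dm m a : ℤ) : ℝ) := by
  have h := sum_E_inc hm ha (fun _ => 1)
  simp only [mul_one, Finset.sum_const, nsmul_eq_mul] at h
  rw [h, card_Nb ha]

theorem two_card_E {m : ℕ} (hm : 0 < m) :
    2 * ((E m).card : ℝ) = ∑ a ∈ Icc 0 (Lm m), ((dp m a + dm m a : ℤ) : ℝ) := by
  rw [← Finset.sum_congr rfl fun a ha => sum_inc_one hm ha, Finset.sum_comm]
  have : ∀ e ∈ E m, ∑ a ∈ Icc 0 (Lm m), inc a e = 2 := by
    intro e he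
    have h := sum_inc he (fun _ => 1)
    simp only [mul_one] at h
    rw [h]; norm_num
  rw [Finset.sum_congr rfl this, Finset.sum_const, nsmul_eq_mul]
  ring

/-- Total number of arcs. -/
theorem sum_W {m : ℕ} (hm : 0 < m) :
    ∑ e ∈ E m, ∑ e' ∈ E m, W e e' =
      (∑ a ∈ Icc 0 (Lm m), (((dp m a + dm m a : ℤ) : ℝ) ^ 2 - ((dp m a + dm m a : ℤ) : ℝ))) / 2 := by
  have h := sum_W_quad (m := m) (fun _ => 1)
  simp only [mul_one, one_pow, Finset.sum_const, nsmul_eq_mul] at h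
  rw [h, two_card_E hm, Finset.sum_sub_distrib,
    Finset.sum_congr rfl fun a ha => by rw [sum_inc_one hm ha]]

/-- Upper bound for all directed cuts. -/
theorem cut_le {m : ℕ} (hm : 0 < m) (x : ℤ × ℤ → ℝ) (hx : ∀ e, x e = 1 ∨ x e = -1) :
    ∑ e ∈ E m, ∑ e' ∈ E m, W e e' * ((1 + x e) * (1 - x e') / 4) ≤
      (∑ e ∈ E m, ∑ e' ∈ E m, W e e') / 4 +
      (∑ a ∈ Icc 0 (Lm m), (z m a ^ 2 + ((dp m a + dm m a : ℤ) : ℝ))) / 8 := by
  rw [cut_expand, sum_W_lin hm, sum_W_quad]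
  have h1 : ∑ e ∈ E m, x e ^ 2 = (E m).card := by
    rw [Finset.sum_congr rfl fun e _ => (by rcases hx e with h | h <;> rw [h] <;> norm_num : x e ^ 2 = 1)]
    simp
  rw [h1, two_card_E hm]
  have h2 : ∑ a ∈ Icc 0 (Lm m), z m a * ∑ e ∈ E m, inc a e * x e ≤
      ∑ a ∈ Icc 0 (Lm m), (z m a ^ 2 / 2 + (∑ e ∈ E m, inc a e * x e) ^ 2 / 2) := by
    refine Finset.sum_le_sum fun a _ => ?_
    nlinarith [sq_nonneg (z m a - ∑ e ∈ E m, inc a e * x e)]
  rw [Finset.sum_add_distrib, ← Finset.sum_div, ← Finset.sum_div] at h2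
  rw [Finset.sum_add_distrib]
  linarith

theorem div_diff {m : ℕ} (hm : 0 < m) {t : ℤ} (h0 : 0 ≤ t) (h1 : t ≤ Lm m) :
    t / (m + 1) ≤ t / m ∧ t / m ≤ t / (m + 1) + (2 * m + 1) ∧ t / m ≤ 2 * (m : ℤ) ^ 2 := by
  have hm' : (0 : ℤ) < m := by exact_mod_cast hm
  have hm1 : (0 : ℤ) < (m : ℤ) + 1 := by omega
  have e0 : 0 ≤ t / ((m : ℤ) + 1) := Int.ediv_nonneg h0 hm1.le
  have e1 : t / ((m : ℤ) + 1) * ((m : ℤ) + 1) ≤ t := Int.ediv_mul_le _ hm1.ne'
  have e2 : t < (t / ((m : ℤ) + 1) + 1) * ((m : ℤ) + 1) := Int.lt_ediv_add_one_mul_self _ hm1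
  have e3 : t / (m : ℤ) ≤ 2 * (m : ℤ) ^ 2 := by
    have : t / (m : ℤ) ≤ Lm m / (m : ℤ) := Int.ediv_le_ediv hm' h1
    refine this.trans (le_of_eq ?_)
    unfold Lm
    rw [show 2 * (m : ℤ) ^ 3 = 2 * (m : ℤ) ^ 2 * m by ring]
    exact Int.mul_ediv_cancel _ hm'.ne'
  have e4 : t / ((m : ℤ) + 1) ≤ t / m := by
    rw [Int.le_ediv_iff_mul_le hm']
    nlinarith
  refine ⟨e4, ?_, e3⟩
  have e5 : t / (m : ℤ) < t / ((m : ℤ) + 1) + (2 * m + 1) + 1 := by
    rw [Int.ediv_lt_iff_lt_mul hm']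
    nlinarith
  omega

theorem z_sq_le {m : ℕ} (hm : 0 < m) {a : ℤ} (ha : a ∈ Icc 0 (Lm m)) :
    z m a ^ 2 ≤ 9 * (m : ℝ) ^ 2 := by
  rw [mem_Icc] at ha
  obtain ⟨h1, h2, -⟩ := div_diff hm ha.1 ha.2
  obtain ⟨h3, h4, -⟩ := div_diff hm (t := Lm m - a) (by omega) (by omega)
  have hm' : (1 : ℤ) ≤ m := by exact_mod_cast hm
  have hb : |dp m a - dm m a| ≤ 3 * (m : ℤ) := by
    rw [abs_le]
    unfold dp dm
    constructor <;> omega
  have hb' : |z m a| ≤ 3 * (m : ℝ) := by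
    unfold z
    rw [← Int.cast_abs]
    exact_mod_cast hb
  have := abs_nonneg (z m a)
  rw [← sq_abs]
  nlinarith

theorem deg_le {m : ℕ} (hm : 0 < m) {a : ℤ} (ha : a ∈ Icc 0 (Lm m)) :
    ((dp m a + dm m a : ℤ) : ℝ) ≤ 4 * (m : ℝ) ^ 2 := by
  rw [mem_Icc] at ha
  obtain ⟨h1, h2, h2'⟩ := div_diff hm ha.1 ha.2
  have hb : dp m a + dm m a ≤ 4 * (m : ℤ) ^ 2 := by
    unfold dp dm
    have : a / ((m : ℤ)) ≤ 2 * (m : ℤ) ^ 2 := h2'
    generalize (m : ℤ) ^ 2 = M at *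
    omega
  exact_mod_cast hb

theorem upper_sum {m : ℕ} (hm : 0 < m) :
    (∑ a ∈ Icc 0 (Lm m), (z m a ^ 2 + ((dp m a + dm m a : ℤ) : ℝ))) / 8 ≤ 5 * (m : ℝ) ^ 5 := by
  have h1 : ∑ a ∈ Icc 0 (Lm m), (z m a ^ 2 + ((dp m a + dm m a : ℤ) : ℝ)) ≤
      ∑ a ∈ Icc 0 (Lm m), 13 * (m : ℝ) ^ 2 := by
    refine Finset.sum_le_sum fun a ha => ?_
    have := z_sq_le hm ha
    have := deg_le hm ha
    linarith
  rw [Finset.sum_const, Int.card_Icc, nsmul_eq_mul] at h1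
  have h2 : (((Lm m + 1 - 0).toNat : ℕ) : ℝ) = 2 * (m : ℝ) ^ 3 + 1 := by
    have : (((Lm m + 1 - 0).toNat : ℕ) : ℤ) = 2 * (m : ℤ) ^ 3 + 1 := by
      have h0 : (0 : ℤ) ≤ (m : ℤ) ^ 3 := by positivity
      rw [Int.toNat_of_nonneg] <;> unfold Lm
      · ring
      · linarith
    exact_mod_cast this
  rw [h2] at h1
  have hm1 : (1 : ℝ) ≤ m := by exact_mod_cast hm
  have h3 : (1 : ℝ) ≤ (m : ℝ) ^ 3 := one_le_pow₀ hm1
  have h4 : (0 : ℝ) ≤ (m : ℝ) ^ 2 := by positivity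
  nlinarith [mul_nonneg h4 (sub_nonneg.mpr h3)]

theorem deg_ge {m : ℕ} (hm : 3 ≤ m) {a : ℤ} (h1 : (m : ℤ) ^ 3 ≤ 2 * a) (h2 : a ≤ (m : ℤ) ^ 3) :
    (m : ℝ) ^ 2 / 2 ≤ ((dp m a + dm m a : ℤ) : ℝ) := by
  have hm' : (3 : ℤ) ≤ m := by exact_mod_cast hm
  have hm0 : (0 : ℤ) < m := by omega
  have hm1 : (0 : ℤ) < (m : ℤ) + 1 := by omega
  have q1 : (m : ℤ) ^ 2 / 2 * 2 ≤ (m : ℤ) ^ 2 := Int.ediv_mul_le _ (by norm_num)
  have q2 : (m : ℤ) ^ 2 / 4 * 4 ≤ (m : ℤ) ^ 2 := Int.ediv_mul_le _ (by norm_num)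
  have q1' : 0 ≤ (m : ℤ) ^ 2 / 2 := by positivity
  have q2' : 0 ≤ (m : ℤ) ^ 2 / 4 := by positivity
  have c3 : (m : ℤ) ^ 3 = (m : ℤ) ^ 2 * m := by ring
  have m2 : (9 : ℤ) ≤ (m : ℤ) ^ 2 := by nlinarith
  have d1 : (m : ℤ) ^ 2 / 2 ≤ dp m a := by
    unfold dp
    rw [le_min_iff, Int.le_ediv_iff_mul_le hm0, Int.le_ediv_iff_mul_le hm1]
    unfold Lm
    constructor
    · nlinarith
    · nlinarith
  have d2 : (m : ℤ) ^ 2 / 4 ≤ dm m a := by
    unfold dm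
    rw [le_min_iff, Int.le_ediv_iff_mul_le hm0, Int.le_ediv_iff_mul_le hm1]
    unfold Lm
    constructor
    · nlinarith
    · nlinarith
  have d3 : (m : ℤ) ^ 2 ≤ 2 * (dp m a + dm m a) := by
    generalize (m : ℤ) ^ 2 = M at *
    omega
  have d4 : (m : ℝ) ^ 2 ≤ 2 * ((dp m a + dm m a : ℤ) : ℝ) := by exact_mod_cast d3
  linarith

theorem lower_total {m : ℕ} (hm : 3 ≤ m) :
    (m : ℝ) ^ 7 / 32 ≤ ∑ e ∈ E m, ∑ e' ∈ E m, W e e' := by
  rw [sum_W (by omega)]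
  have hm1 : (3 : ℝ) ≤ m := by exact_mod_cast hm
  have hm' : (3 : ℤ) ≤ m := by exact_mod_cast hm
  set S : Finset ℤ := Ioc ((m : ℤ) ^ 3 / 2) ((m : ℤ) ^ 3) with hS
  have hpos : (0 : ℤ) < (m : ℤ) ^ 3 := by positivity
  have hsub : S ⊆ Icc 0 (Lm m) := by
    intro a ha
    rw [hS, mem_Ioc] at ha
    rw [mem_Icc]
    unfold Lm
    generalize (m : ℤ) ^ 3 = M at *
    omega
  have h1 : ∑ a ∈ S, (((dp m a + dm m a : ℤ) : ℝ) ^ 2 - ((dp m a + dm m a : ℤ) : ℝ)) ≤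
      ∑ a ∈ Icc 0 (Lm m), (((dp m a + dm m a : ℤ) : ℝ) ^ 2 - ((dp m a + dm m a : ℤ) : ℝ)) := by
    refine Finset.sum_le_sum_of_subset_of_nonneg hsub fun a ha _ => ?_
    have h3 := dp_nonneg ha
    have h4 := dm_nonneg ha
    have h5 : 0 ≤ (dp m a + dm m a) ^ 2 - (dp m a + dm m a) := by
      rcases eq_or_lt_of_le (add_nonneg h3 h4) with h | h
      · rw [← h]; norm_num
      · nlinarith
    exact_mod_cast h5
  have h2 : ∑ a ∈ S, (m : ℝ) ^ 4 / 8 ≤
      ∑ a ∈ S, (((dp m a + dm m a : ℤ) : ℝ) ^ 2 - ((dp m a + dm m a : ℤ) : ℝ)) := by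
    refine Finset.sum_le_sum fun a ha => ?_
    rw [hS, mem_Ioc] at ha
    have h3 : (m : ℤ) ^ 3 ≤ 2 * a := by
      generalize (m : ℤ) ^ 3 = M at *
      omega
    have h4 := deg_ge hm h3 ha.2
    have m2 : (9 : ℝ) ≤ (m : ℝ) ^ 2 := by nlinarith
    have e4 : (m : ℝ) ^ 4 = (m : ℝ) ^ 2 * (m : ℝ) ^ 2 := by ring
    rw [e4]
    nlinarith
  rw [Finset.sum_const, nsmul_eq_mul] at h2
  have hcard : (m : ℝ) ^ 3 / 2 ≤ (S.card : ℝ) := by
    rw [hS, Int.card_Ioc]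
    have : (m : ℤ) ^ 3 ≤ 2 * ((((m : ℤ) ^ 3 - (m : ℤ) ^ 3 / 2).toNat : ℕ) : ℤ) := by
      generalize (m : ℤ) ^ 3 = M at *
      omega
    have h' : (m : ℝ) ^ 3 ≤ 2 * ((((m : ℤ) ^ 3 - (m : ℤ) ^ 3 / 2).toNat : ℕ) : ℝ) := by
      exact_mod_cast this
    linarith
  have h6 : (m : ℝ) ^ 7 / 16 ≤ (S.card : ℝ) * ((m : ℝ) ^ 4 / 8) := by
    have : (m : ℝ) ^ 7 / 16 = (m : ℝ) ^ 3 / 2 * ((m : ℝ) ^ 4 / 8) := by ring
    rw [this]
    exact mul_le_mul_of_nonneg_right hcard (by positivity)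
  linarith

/-- The family of simple acyclic digraphs. -/
theorem family (m : ℕ) (hm : 3 ≤ m) : ∃ (n : ℕ) (w : Fin n → Fin n → ℝ), Simple w ∧ Acyclic w ∧
    (m : ℝ) ^ 7 / 32 ≤ total w ∧ mac w ≤ total w / 4 + 5 * (m : ℝ) ^ 5 := by
  obtain ⟨w, h1, h2, h3, h4⟩ := transport (E m) W (fun e => e.1 + e.2) (by
    intro u _ v _ h
    unfold W at h
    by_contra h'
    apply h
    rw [if_neg]
    rintro ⟨-, h''⟩
    exact h' h'')
  refine ⟨_, w, ?_, h1, ?_, ?_⟩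
  · intro i j
    obtain ⟨u, -, v, -, h⟩ := h4 i j
    rw [h]
    unfold W
    split_ifs <;> simp
  · rw [h2]
    exact lower_total hm
  · refine h3 _ fun x hx => ?_
    refine (cut_le (by omega) x hx).trans ?_
    rw [h2]
    have := upper_sum (m := m) (by omega)
    linarith

end Pool.Agent.Lib.MP_7cecc1_co.SU
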