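import Pool.Agent.Lib.MP_7cecc1_co.Lower
import Pool.Agent.Lib.MP_7cecc1_co.MultiUpper
import Pool.Agent.Lib.MP_7cecc1_co.SimpleUpper

namespace Pool.Agent.Lib.MP_7cecc1_co

open Filter

/-- An exponent is refuted by a family of digraphs with few surplus arcs. -/
theorem bound_of_family {C : ∀ {n : ℕ}, (Fin n → Fin n → ℝ) → Prop} {α : ℝ}
    (hα : α ∈ goodExponents C) (A B : ℕ → ℝ) (r0 : ℕ) (hA : ∀ r, 0 ≤ A r)
    (hfam : ∀ r, r0 ≤ r → ∃ (n : ℕ) (w : Fin n → Fin n → ℝ), C w ∧ Acyclic w ∧ A r ≤ total w ∧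
      mac w ≤ total w / 4 + B r) :
    ∃ k : ℝ, 0 < k ∧ ∀ r, r0 ≤ r → k * A r ^ α ≤ B r := by
  obtain ⟨h0, k, hk, h⟩ := hα
  refine ⟨k, hk, fun r hr => ?_⟩
  obtain ⟨n, w, h1, h2, h3, h4⟩ := hfam r hr
  have h5 := h n w h1 h2
  have h6 : A r ^ α ≤ total w ^ α := Real.rpow_le_rpow (hA r) h3 h0.le
  have h7 := mul_le_mul_of_nonneg_left h6 hk.le
  linarith

theorem simple_le {α : ℝ} (hα : α ∈ goodExponents @Simple) : α ≤ 5 / 7 := by
  obtain ⟨k, hk, h⟩ := bound_of_family hα (fun m => (m : ℝ) ^ 7 / 32) (fun m => 5 * (m : ℝ) ^ 5) 3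
    (fun m => by positivity) (fun m hm => SU.family m hm)
  by_contra hcon
  push Not at hcon
  have hexp : 0 < 7 * α - 5 := by linarith
  have hlim : Tendsto (fun m : ℕ => (m : ℝ) ^ (7 * α - 5)) atTop atTop :=
    (tendsto_rpow_atTop hexp).comp tendsto_natCast_atTop_atTop
  obtain ⟨m, hm1, hm3⟩ := ((hlim.eventually_gt_atTop (5 * 32 ^ α / k)).and
    (eventually_ge_atTop 3)).exists
  have h1 := h m hm3
  have hm0 : (0 : ℝ) < m := by
    have : 0 < m := by omega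
    exact_mod_cast this
  have e1 : ((m : ℝ) ^ 7 / 32) ^ α = (m : ℝ) ^ (7 * α - 5) * (m : ℝ) ^ 5 / 32 ^ α := by
    rw [Real.div_rpow (by positivity) (by norm_num), ← Real.rpow_natCast (m : ℝ) 7,
      ← Real.rpow_mul hm0.le, ← Real.rpow_natCast (m : ℝ) 5, ← Real.rpow_add hm0]
    congr 2
    push_cast
    ring
  rw [e1] at h1
  have h32 : (0 : ℝ) < 32 ^ α := by positivity
  rw [div_lt_iff₀ hk] at hm1
  have hm5 : (0 : ℝ) < (m : ℝ) ^ 5 := by positivity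
  have h2 : k * ((m : ℝ) ^ (7 * α - 5) * (m : ℝ) ^ 5 / 32 ^ α) =
      ((m : ℝ) ^ (7 * α - 5) * k) * ((m : ℝ) ^ 5 / 32 ^ α) := by ring
  rw [h2] at h1
  have h3 : (5 * (32 : ℝ) ^ α) * ((m : ℝ) ^ 5 / 32 ^ α) <
      ((m : ℝ) ^ (7 * α - 5) * k) * ((m : ℝ) ^ 5 / 32 ^ α) :=
    mul_lt_mul_of_pos_right hm1 (by positivity)
  have h4 : (5 * (32 : ℝ) ^ α) * ((m : ℝ) ^ 5 / 32 ^ α) = 5 * (m : ℝ) ^ 5 := by field_simp
  rw [h4] at h3
  linarith

theorem multi_le {C : ∀ {n : ℕ}, (Fin n → Fin n → ℝ) → Prop}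
    (hC : ∀ {n : ℕ} (w : Fin n → Fin n → ℝ), Multi w → C w) {α : ℝ}
    (hα : α ∈ goodExponents C) : α ≤ 3 / 5 := by
  obtain ⟨k, hk, h⟩ := bound_of_family hα (fun r => (32 : ℝ) ^ r / 32)
    (fun r => 28000 * ((r : ℝ) + 1) ^ 3 * 8 ^ r) 1 (fun m => by positivity)
    (fun r hr => by
      obtain ⟨n, w, h1, h2⟩ := MU.family r hr
      exact ⟨n, w, hC w h1, h2⟩)
  by_contra hcon
  push Not at hcon
  set b : ℝ := (32 : ℝ) ^ α / 8 with hb
  have hb1 : 1 < b := by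
    rw [hb, lt_div_iff₀ (by norm_num), one_mul]
    have h8 : (8 : ℝ) = 32 ^ (3 / 5 : ℝ) := by
      rw [show (32 : ℝ) = 2 ^ (5 : ℝ) by norm_num, ← Real.rpow_mul (by norm_num)]
      norm_num
    rw [h8]
    exact Real.rpow_lt_rpow_of_exponent_lt (by norm_num) hcon
  have hlim : Tendsto (fun r : ℕ => (r : ℝ) ^ 3 / b ^ r) atTop (nhds 0) :=
    tendsto_pow_const_div_const_pow_of_one_lt 3 hb1
  have h32 : (0 : ℝ) < 32 ^ α := by positivity
  obtain ⟨r, hr1, hr2⟩ := ((hlim.eventually_lt_const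
    (show (0 : ℝ) < k / (28000 * 8 * 32 ^ α) by positivity)).and (eventually_ge_atTop 1)).exists
  have h1 := h r hr2
  have hr0 : (1 : ℝ) ≤ r := by exact_mod_cast hr2
  have e1 : ((32 : ℝ) ^ r / 32) ^ α = b ^ r * 8 ^ r / 32 ^ α := by
    rw [Real.div_rpow (by positivity) (by norm_num), hb, div_pow, div_mul_cancel₀ _ (by positivity),
      ← Real.rpow_natCast (32 : ℝ) r, ← Real.rpow_natCast ((32 : ℝ) ^ α) r,
      ← Real.rpow_mul (by norm_num), ← Real.rpow_mul (by norm_num), mul_comm]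
  rw [e1] at h1
  have hbr : 0 < b ^ r := by positivity
  have h8r : (0 : ℝ) < 8 ^ r := by positivity
  rw [div_lt_div_iff₀ hbr (by positivity)] at hr1
  have h2 : ((r : ℝ) + 1) ^ 3 ≤ 8 * r ^ 3 := by
    have : (r : ℝ) + 1 ≤ 2 * r := by linarith
    calc ((r : ℝ) + 1) ^ 3 ≤ (2 * r) ^ 3 := pow_le_pow_left₀ (by positivity) this 3
      _ = 8 * r ^ 3 := by ring
  have h3 : k * (b ^ r * 8 ^ r / 32 ^ α) ≤ 28000 * (8 * (r : ℝ) ^ 3) * 8 ^ r := by
    refine h1.trans ?_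
    have : (28000 : ℝ) * ((r : ℝ) + 1) ^ 3 ≤ 28000 * (8 * (r : ℝ) ^ 3) := by linarith
    exact mul_le_mul_of_nonneg_right this h8r.le
  have h4 : k * (b ^ r * 8 ^ r / 32 ^ α) * 32 ^ α = (k * b ^ r) * 8 ^ r := by field_simp
  have h5 : (k * b ^ r) * 8 ^ r ≤ 28000 * (8 * (r : ℝ) ^ 3) * 8 ^ r * 32 ^ α := by
    rw [← h4]
    exact mul_le_mul_of_nonneg_right h3 h32.le
  have h6 : (r : ℝ) ^ 3 * (28000 * 8 * 32 ^ α) * 8 ^ r < (k * b ^ r) * 8 ^ r :=
    mul_lt_mul_of_pos_right hr1 h8r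
  nlinarith

/-- The lower bound for subclasses, including all smaller exponents. -/
theorem mem_good {C : ∀ {n : ℕ}, (Fin n → Fin n → ℝ) → Prop}
    (hC : ∀ {n : ℕ} (w : Fin n → Fin n → ℝ), C w → Weighted w) {α : ℝ} (h0 : 0 < α)
    (h1 : α ≤ 3 / 5) : α ∈ goodExponents C := by
  obtain ⟨k, hk, h⟩ := lower_bound
  refine ⟨h0, k, hk, fun n w hw hacy => ?_⟩
  have h2 := h n w (hC w hw) hacy
  refine le_trans ?_ h2
  have hW := hC w hw
  have hnn : ∀ u v, 0 ≤ w u v := fun u v => by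
    rcases hW u v with h | h
    · rw [h]
    · linarith
  have h3 : total w = 0 ∨ 1 ≤ total w := by
    by_cases hz : ∀ u v, w u v = 0
    · left; unfold total; simp [hz]
    · right
      push Not at hz
      obtain ⟨u, v, huv⟩ := hz
      have h4 : 1 ≤ w u v := (hW u v).resolve_left huv
      refine h4.trans ?_
      unfold total
      refine le_trans ?_ (Finset.single_le_sum (f := fun u => ∑ v, w u v)
        (fun i _ => Finset.sum_nonneg fun j _ => hnn i j) (Finset.mem_univ u))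
      exact Finset.single_le_sum (f := fun v => w u v) (fun j _ => hnn u j) (Finset.mem_univ v)
  have h4 : total w ^ α ≤ total w ^ (3 / 5 : ℝ) := by
    rcases h3 with h | h
    · rw [h, Real.zero_rpow h0.ne', Real.zero_rpow (by norm_num)]
    · exact Real.rpow_le_rpow_of_exponent_le h h1
  have := mul_le_mul_of_nonneg_left h4 hk.le
  linarith

theorem multi_weighted {n : ℕ} (w : Fin n → Fin n → ℝ) (h : Multi w) : Weighted w := by
  intro u v
  obtain ⟨m, hm⟩ := h u v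
  rcases Nat.eq_zero_or_pos m with h0 | h0
  · left; rw [hm, h0]; simp
  · right; rw [hm]; exact_mod_cast h0

theorem simple_weighted {n : ℕ} (w : Fin n → Fin n → ℝ) (h : Simple w) : Weighted w := by
  intro u v
  rcases h u v with h | h
  · left; exact h
  · right; rw [h]

end Pool.Agent.Lib.MP_7cecc1_co
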