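import Mathlib

/-! Definitions for MP_7cecc1_co (directed cuts in acyclic digraphs). A weighted digraph on the
vertex set `Fin n` is given by `w : Fin n → Fin n → ℝ`, `w u v` being the total weight of the arcs
from `u` to `v` (`0` when there is none). -/

namespace Pool.Agent.Lib.MP_7cecc1_co

/-- Total weight of all arcs. -/
def total {n : ℕ} (w : Fin n → Fin n → ℝ) : ℝ := ∑ u, ∑ v, w u v

/-- Weight of the directed cut `(X, V \ X)`: all arcs with tail in `X` and head outside `X`. -/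
def dicut {n : ℕ} (w : Fin n → Fin n → ℝ) (X : Finset (Fin n)) : ℝ := ∑ u ∈ X, ∑ v ∈ Xᶜ, w u v

/-- The maximum weight of a directed cut. -/
noncomputable def mac {n : ℕ} (w : Fin n → Fin n → ℝ) : ℝ :=
  (Finset.univ : Finset (Finset (Fin n))).sup' ⟨∅, Finset.mem_univ _⟩ (dicut w)

/-- There is no directed cycle (a loop would also be one). -/
def Acyclic {n : ℕ} (w : Fin n → Fin n → ℝ) : Prop :=
  ∀ v, ¬ Relation.TransGen (fun a b => w a b ≠ 0) v v

/-- Every arc has weight at least `1`. -/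
def Weighted {n : ℕ} (w : Fin n → Fin n → ℝ) : Prop := ∀ u v, w u v = 0 ∨ 1 ≤ w u v

/-- Directed multigraphs: `w u v` is the number of parallel arcs from `u` to `v`. -/
def Multi {n : ℕ} (w : Fin n → Fin n → ℝ) : Prop := ∀ u v, ∃ m : ℕ, w u v = m

/-- Simple digraphs: at most one arc from `u` to `v`. -/
def Simple {n : ℕ} (w : Fin n → Fin n → ℝ) : Prop := ∀ u v, w u v = 0 ∨ w u v = 1

/-- The exponents `α > 0` for which, for some constant `k > 0`, every acyclic digraph `D` of the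
class `C` satisfies `mac(D) ≥ w(D)/4 + k w(D)^α`. -/
def goodExponents (C : ∀ {n : ℕ}, (Fin n → Fin n → ℝ) → Prop) : Set ℝ :=
  {α | 0 < α ∧ ∃ k : ℝ, 0 < k ∧ ∀ (n : ℕ) (w : Fin n → Fin n → ℝ), C w → Acyclic w →
    total w / 4 + k * total w ^ α ≤ mac w}

/-- The critical exponent `α₀(C)`. -/
noncomputable def alpha0 (C : ∀ {n : ℕ}, (Fin n → Fin n → ℝ) → Prop) : ℝ := sSup (goodExponents C)

theorem dicut_le_mac {n : ℕ} (w : Fin n → Fin n → ℝ) (X : Finset (Fin n)) : dicut w X ≤ mac w :=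
  Finset.le_sup' (dicut w) (Finset.mem_univ X)

theorem mac_le {n : ℕ} {w : Fin n → Fin n → ℝ} {c : ℝ} (h : ∀ X, dicut w X ≤ c) : mac w ≤ c :=
  Finset.sup'_le _ _ fun X _ => h X

end Pool.Agent.Lib.MP_7cecc1_co
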