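import Mathlib
import Pool.Agent.Lib.MP_7cecc1_co.Defs

/-! The lower bound `mac w ≥ total w / 4 + k * total w ^ (3/5)` for weighted acyclic digraphs. -/

namespace Pool.Agent.Lib.MP_7cecc1_co.Lower

open Finset

section Forms

variable {n : ℕ}

/-- The bilinear form of a weight matrix. -/
def bil (w : Fin n → Fin n → ℝ) (x y : Fin n → ℝ) : ℝ := ∑ i, ∑ j, w i j * x i * y j

/-- The linear form `∑ w i j (x i - x j)`. -/
def ell (w : Fin n → Fin n → ℝ) : (Fin n → ℝ) →ₗ[ℝ] ℝ where
  toFun x := ∑ i, ∑ j, w i j * (x i - x j)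
  map_add' x y := by
    rw [← Finset.sum_add_distrib]
    refine Finset.sum_congr rfl fun i _ => ?_
    rw [← Finset.sum_add_distrib]
    refine Finset.sum_congr rfl fun j _ => ?_
    simp only [Pi.add_apply]
    ring
  map_smul' c x := by
    simp only [RingHom.id_apply, smul_eq_mul, Finset.mul_sum, Pi.smul_apply]
    refine Finset.sum_congr rfl fun i _ => Finset.sum_congr rfl fun j _ => ?_
    ring

theorem ell_apply (w : Fin n → Fin n → ℝ) (x : Fin n → ℝ) :
    ell w x = ∑ i, ∑ j, w i j * (x i - x j) := rfl

theorem bil_add_smul (w : Fin n → Fin n → ℝ) (x y : Fin n → ℝ) (t : ℝ) :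
    bil w (x + t • y) (x + t • y) =
      bil w x x + t * (bil w x y + bil w y x) + t ^ 2 * bil w y y := by
  simp only [bil, ← Finset.sum_add_distrib, Finset.mul_sum]
  refine Finset.sum_congr rfl fun i _ => Finset.sum_congr rfl fun j _ => ?_
  simp only [Pi.add_apply, Pi.smul_apply, smul_eq_mul]
  ring

theorem exists_sign (c : ℝ) : ∃ s : ℝ, (s = 1 ∨ s = -1) ∧ 0 ≤ s * c := by
  rcases le_total 0 c with h | h
  · exact ⟨1, Or.inl rfl, by linarith⟩
  · exact ⟨-1, Or.inr rfl, by linarith⟩

/-- Sign lemma. -/
theorem sign_lemma (w : Fin n → Fin n → ℝ) (l : (Fin n → ℝ) →ₗ[ℝ] ℝ) {ι : Type*}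
    (K : Finset ι) (y : ι → Fin n → ℝ) :
    ∃ s : ι → ℝ, (∀ k, s k = 1 ∨ s k = -1) ∧
      ∑ k ∈ K, -bil w (y k) (y k) ≤
        l (∑ k ∈ K, s k • y k) - bil w (∑ k ∈ K, s k • y k) (∑ k ∈ K, s k • y k) := by
  classical
  induction K using Finset.induction_on with
  | empty =>
    refine ⟨fun _ => 1, fun _ => Or.inl rfl, ?_⟩
    simp [bil]
  | insert a K ha ih =>
    obtain ⟨s, hs, hle⟩ := ih
    set x := ∑ k ∈ K, s k • y k with hx
    obtain ⟨e, he, hpos⟩ := exists_sign (l (y a) - (bil w x (y a) + bil w (y a) x))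
    refine ⟨Function.update s a e, fun k => ?_, ?_⟩
    · by_cases hk : k = a
      · subst hk
        rwa [Function.update_self]
      · rw [Function.update_of_ne hk]
        exact hs k
    · have hsum : ∑ k ∈ insert a K, Function.update s a e k • y k = x + e • y a := by
        rw [Finset.sum_insert ha, Function.update_self, add_comm]
        congr 1
        refine Finset.sum_congr rfl fun k hk => ?_
        rw [Function.update_of_ne]
        rintro rfl
        exact ha hk
      rw [hsum, Finset.sum_insert ha, bil_add_smul, map_add, map_smul, smul_eq_mul]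
      have he2 : e ^ 2 = 1 := by
        rcases he with h | h <;> rw [h] <;> norm_num
      rw [he2]
      linarith

theorem bil_update (w : Fin n → Fin n → ℝ) (hloop : ∀ i, w i i = 0) (l : (Fin n → ℝ) →ₗ[ℝ] ℝ)
    (x : Fin n → ℝ) (a : Fin n) (hx : x a ∈ Set.Icc (-1 : ℝ) 1) :
    ∃ e : ℝ, (e = 1 ∨ e = -1) ∧ l x - bil w x x ≤
      l (Function.update x a e) - bil w (Function.update x a e) (Function.update x a e) := by
  classical
  set u : Fin n → ℝ := Pi.single a 1 with hu
  have hupd : ∀ e : ℝ, Function.update x a e = x + (e - x a) • u := by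
    intro e
    funext i
    by_cases hi : i = a
    · subst hi
      simp [hu]
    · rw [Function.update_of_ne hi]
      simp [hu, hi]
  have huu : bil w u u = 0 := by
    rw [bil]
    refine Finset.sum_eq_zero fun i _ => Finset.sum_eq_zero fun j _ => ?_
    by_cases hi : i = a
    · by_cases hj : j = a
      · rw [hi, hj, hloop]
        ring
      · simp [hu, hj]
    · simp [hu, hi]
  set d := l u - (bil w x u + bil w u x) with hd
  have hval : ∀ e : ℝ, l (Function.update x a e) -
      bil w (Function.update x a e) (Function.update x a e) = l x - bil w x x + (e - x a) * d := by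
    intro e
    rw [hupd e, bil_add_smul, huu, map_add, map_smul, smul_eq_mul, hd]
    ring
  rcases le_total 0 d with h | h
  · refine ⟨1, Or.inl rfl, ?_⟩
    rw [hval]
    have := mul_nonneg (sub_nonneg.2 hx.2) h
    linarith
  · refine ⟨-1, Or.inr rfl, ?_⟩
    rw [hval]
    have := mul_nonneg_of_nonpos_of_nonpos (sub_nonpos.2 hx.1) h
    linarith

/-- Rounding to signs. -/
theorem rounding (w : Fin n → Fin n → ℝ) (hloop : ∀ i, w i i = 0) (l : (Fin n → ℝ) →ₗ[ℝ] ℝ)
    (x : Fin n → ℝ) (hx : ∀ i, x i ∈ Set.Icc (-1 : ℝ) 1) :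
    ∃ s : Fin n → ℝ, (∀ i, s i = 1 ∨ s i = -1) ∧ l x - bil w x x ≤ l s - bil w s s := by
  classical
  have key : ∀ A : Finset (Fin n), ∃ s : Fin n → ℝ, (∀ i ∈ A, s i = 1 ∨ s i = -1) ∧
      (∀ i, s i ∈ Set.Icc (-1 : ℝ) 1) ∧ l x - bil w x x ≤ l s - bil w s s := by
    intro A
    induction A using Finset.induction_on with
    | empty => exact ⟨x, by simp, hx, le_rfl⟩
    | insert a A ha ih =>
      obtain ⟨s, hs, hsI, hle⟩ := ih
      obtain ⟨e, he, hle2⟩ := bil_update w hloop l s a (hsI a)
      refine ⟨Function.update s a e, fun i hi => ?_, fun i => ?_, hle.trans hle2⟩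
      · by_cases hia : i = a
        · subst hia
          rwa [Function.update_self]
        · rw [Function.update_of_ne hia]
          exact hs i (Finset.mem_of_mem_insert_of_ne hi hia)
      · by_cases hia : i = a
        · subst hia
          rw [Function.update_self]
          rcases he with h | h <;> rw [h] <;> norm_num
        · rw [Function.update_of_ne hia]
          exact hsI i
  obtain ⟨s, hs, _, hle⟩ := key Finset.univ
  exact ⟨s, fun i => hs i (Finset.mem_univ i), hle⟩

/-- Cuts and signs. -/
theorem mac_ge (w : Fin n → Fin n → ℝ) (s : Fin n → ℝ) (hs : ∀ i, s i = 1 ∨ s i = -1) :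
    total w / 4 + (ell w s - bil w s s) / 4 ≤ mac w := by
  classical
  refine le_trans (le_of_eq ?_) (dicut_le_mac w (Finset.univ.filter fun i => s i = 1))
  rw [dicut, total, ell_apply, bil, Finset.sum_filter, ← Finset.sum_sub_distrib, ← add_div,
    ← Finset.sum_add_distrib, Finset.sum_div]
  refine Finset.sum_congr rfl fun i _ => ?_
  rw [← Finset.sum_sub_distrib, ← Finset.sum_add_distrib, Finset.sum_div]
  have hcompl : (Finset.univ.filter fun i => s i = 1)ᶜ = Finset.univ.filter fun i => s i ≠ 1 := by
    ext j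
    simp
  rw [hcompl, Finset.sum_filter]
  by_cases hi : s i = 1
  · rw [if_pos hi]
    refine Finset.sum_congr rfl fun j _ => ?_
    by_cases hj : s j = 1
    · rw [if_neg (not_not.2 hj), hi, hj]
      ring
    · rw [if_pos hj, hi, (hs j).resolve_left hj]
      ring
  · rw [if_neg hi]
    refine Finset.sum_eq_zero fun j _ => ?_
    rw [(hs i).resolve_left hi]
    rcases hs j with h | h <;> rw [h] <;> ring

theorem mac_ge' (w : Fin n → Fin n → ℝ) (hloop : ∀ i, w i i = 0) (x : Fin n → ℝ)
    (hx : ∀ i, x i ∈ Set.Icc (-1 : ℝ) 1) :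
    total w / 4 + (ell w x - bil w x x) / 4 ≤ mac w := by
  obtain ⟨s, hs, hle⟩ := rounding w hloop (ell w) x hx
  have := mac_ge w s hs
  linarith

end Forms

section Edwards

variable {n : ℕ}

/-- An Edwards-type bound for weighted graphs with weights at least one. -/
theorem edwards (w : Fin n → Fin n → ℝ) (hw : Weighted w) (hloop : ∀ i, w i i = 0) :
    ∃ σ : Fin n → ℝ, (∀ i, σ i = 1 ∨ σ i = -1) ∧ √(total w) / 3 ≤ -bil w σ σ := by
  classical
  have hw0 : ∀ i j, 0 ≤ w i j := by
    intro i j
    rcases hw i j with h | h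
    · exact h.ge
    · linarith
  by_cases hT : total w = 0
  · have hz : ∀ i j, w i j = 0 := by
      intro i j
      have h1 := (Finset.sum_eq_zero_iff_of_nonneg
        (fun i _ => Finset.sum_nonneg fun j _ => hw0 i j)).1 hT i (Finset.mem_univ i)
      exact (Finset.sum_eq_zero_iff_of_nonneg (fun j _ => hw0 i j)).1 h1 j (Finset.mem_univ j)
    refine ⟨fun _ => 1, fun _ => Or.inl rfl, ?_⟩
    rw [hT, bil]
    simp [hz]
  have hT1 : 1 ≤ total w := by
    obtain ⟨i, j, hij⟩ : ∃ i j, w i j ≠ 0 := by
      by_contra hcon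
      push Not at hcon
      apply hT
      rw [total]
      exact Finset.sum_eq_zero fun i _ => Finset.sum_eq_zero fun j _ => hcon i j
    have h1 : 1 ≤ w i j := (hw i j).resolve_left hij
    have h2 : w i j ≤ ∑ v, w i v := Finset.single_le_sum (fun v _ => hw0 i v) (Finset.mem_univ j)
    have h3 : ∑ v, w i v ≤ total w :=
      Finset.single_le_sum (f := fun u => ∑ v, w u v)
        (fun u _ => Finset.sum_nonneg fun v _ => hw0 u v) (Finset.mem_univ i)
    linarith
  -- optimal proper colouring
  let Pr : Finset (Fin n → Fin n) := Finset.univ.filter fun c => ∀ i j, w i j ≠ 0 → c i ≠ c j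
  have hPr : Pr.Nonempty := by
    refine ⟨id, ?_⟩
    simp only [Pr, Finset.mem_filter, Finset.mem_univ, true_and, id]
    intro i j hij h
    apply hij
    rw [h, hloop]
  obtain ⟨c, hc, hmin⟩ := Finset.exists_min_image Pr (fun c => (Finset.univ.image c).card) hPr
  have hcprop : ∀ i j, w i j ≠ 0 → c i ≠ c j := (Finset.mem_filter.1 hc).2
  set S := Finset.univ.image c with hS
  -- any two colours are joined
  have hjoin : ∀ a ∈ S, ∀ b ∈ S, a ≠ b → ∃ i j, w i j ≠ 0 ∧
      ((c i = a ∧ c j = b) ∨ (c i = b ∧ c j = a)) := by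
    intro a ha b hb hab
    by_contra hcon
    push Not at hcon
    set c' : Fin n → Fin n := fun i => if c i = b then a else c i with hc'
    have hc'P : c' ∈ Pr := by
      simp only [Pr, Finset.mem_filter, Finset.mem_univ, true_and]
      intro i j hij
      have h1 := hcprop i j hij
      have h2 := hcon i j hij
      simp only [hc']
      by_cases hi : c i = b <;> by_cases hj : c j = b
      · exact absurd (hi.trans hj.symm) h1
      · rw [if_pos hi, if_neg hj]
        intro h
        exact h2.2 hi h.symm
      · rw [if_neg hi, if_pos hj]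
        intro h
        exact h2.1 h hj
      · rw [if_neg hi, if_neg hj]
        exact h1
    have h3 := hmin c' hc'P
    have h4 : Finset.univ.image c' ⊆ S.erase b := by
      intro z hz
      rw [Finset.mem_image] at hz
      obtain ⟨i, _, rfl⟩ := hz
      rw [Finset.mem_erase]
      simp only [hc']
      by_cases hi : c i = b
      · rw [if_pos hi]
        exact ⟨hab, ha⟩
      · rw [if_neg hi]
        exact ⟨hi, Finset.mem_image_of_mem c (Finset.mem_univ i)⟩
    have h5 := Finset.card_le_card h4
    rw [Finset.card_erase_of_mem hb] at h5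
    have h6 : 0 < S.card := Finset.card_pos.2 ⟨b, hb⟩
    have h7 : S.card ≤ (Finset.univ.image c').card := h3
    omega
  -- number of colours
  set χ := S.card with hχ
  have hcS : ∀ i, c i ∈ S := fun i => Finset.mem_image_of_mem c (Finset.mem_univ i)
  have hcount : (χ : ℝ) * (χ - 1) ≤ 2 * total w := by
    let W : Fin n → Fin n → ℝ := fun a b => ∑ i, ∑ j, if c i = a ∧ c j = b then w i j else 0
    have hW0 : ∀ a b, 0 ≤ W a b := fun a b => Finset.sum_nonneg fun i _ =>
      Finset.sum_nonneg fun j _ => by
        split_ifs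
        · exact hw0 i j
        · exact le_rfl
    have hWge : ∀ i j a b, c i = a → c j = b → w i j ≤ W a b := by
      intro i j a b hi hj
      have h1 : (if c i = a ∧ c j = b then w i j else 0) ≤
          ∑ j, if c i = a ∧ c j = b then w i j else 0 :=
        Finset.single_le_sum (f := fun j => if c i = a ∧ c j = b then w i j else 0)
          (fun j _ => by
            split_ifs
            · exact hw0 i j
            · exact le_rfl) (Finset.mem_univ j)
      have h2 : (∑ j, if c i = a ∧ c j = b then w i j else 0) ≤ W a b :=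
        Finset.single_le_sum (f := fun i => ∑ j, if c i = a ∧ c j = b then w i j else 0)
          (fun i _ => Finset.sum_nonneg fun j _ => by
            split_ifs
            · exact hw0 i j
            · exact le_rfl) (Finset.mem_univ i)
      rw [if_pos ⟨hi, hj⟩] at h1
      linarith
    have hWsum : ∑ a ∈ S, ∑ b ∈ S, W a b = total w := by
      simp only [W]
      rw [total]
      calc ∑ a ∈ S, ∑ b ∈ S, ∑ i, ∑ j, (if c i = a ∧ c j = b then w i j else 0)
          = ∑ i, ∑ j, ∑ a ∈ S, ∑ b ∈ S, (if c i = a ∧ c j = b then w i j else 0) := by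
            rw [Finset.sum_congr rfl (fun a _ => Finset.sum_comm), Finset.sum_comm]
            refine Finset.sum_congr rfl fun i _ => ?_
            rw [Finset.sum_congr rfl (fun a _ => Finset.sum_comm), Finset.sum_comm]
        _ = ∑ i, ∑ j, w i j := by
            refine Finset.sum_congr rfl fun i _ => Finset.sum_congr rfl fun j _ => ?_
            rw [Finset.sum_eq_single_of_mem (c i) (hcS i)]
            · rw [Finset.sum_eq_single_of_mem (c j) (hcS j)]
              · simp
              · intro b _ hb
                rw [if_neg]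
                exact fun h => hb h.2.symm
            · intro a _ ha
              refine Finset.sum_eq_zero fun b _ => ?_
              rw [if_neg]
              exact fun h => ha h.1.symm
    have h1 : ∀ p ∈ S.offDiag, (1 : ℝ) ≤ W p.1 p.2 + W p.2 p.1 := by
      intro p hp
      rw [Finset.mem_offDiag] at hp
      obtain ⟨i, j, hij, h⟩ := hjoin p.1 hp.1 p.2 hp.2.1 hp.2.2
      have h2 : 1 ≤ w i j := (hw i j).resolve_left hij
      rcases h with h | h
      · have := hWge i j _ _ h.1 h.2
        have := hW0 p.2 p.1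
        linarith
      · have := hWge i j _ _ h.1 h.2
        have := hW0 p.1 p.2
        linarith
    have h2 : ((S.offDiag).card : ℝ) ≤ ∑ p ∈ S.offDiag, (W p.1 p.2 + W p.2 p.1) := by
      have := Finset.sum_le_sum h1
      simpa using this
    have h3 : ∑ p ∈ S.offDiag, (W p.1 p.2 + W p.2 p.1) ≤
        ∑ p ∈ S ×ˢ S, (W p.1 p.2 + W p.2 p.1) := by
      apply Finset.sum_le_sum_of_subset_of_nonneg
      · intro p hp
        rw [Finset.mem_offDiag] at hp
        exact Finset.mem_product.2 ⟨hp.1, hp.2.1⟩
      · intro p _ _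
        exact add_nonneg (hW0 _ _) (hW0 _ _)
    have h4 : ∑ p ∈ S ×ˢ S, (W p.1 p.2 + W p.2 p.1) = 2 * total w := by
      rw [Finset.sum_add_distrib, Finset.sum_product, Finset.sum_product_right, hWsum]
      ring
    have h5 : ((S.offDiag).card : ℝ) = (χ : ℝ) * (χ - 1) := by
      rw [Finset.offDiag_card, ← hχ]
      have : χ ≤ χ * χ := Nat.le_mul_self χ
      push_cast [Nat.cast_sub this]
      ring
    linarith
  have hχ0 : 0 < χ := by
    by_contra h0
    have hS0 : S = ∅ := Finset.card_eq_zero.1 (by omega)
    have : IsEmpty (Fin n) := ⟨fun i => by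
      have := hcS i
      rw [hS0] at this
      exact Finset.notMem_empty _ this⟩
    apply hT
    rw [total]
    simp
  have : NeZero χ := ⟨hχ0.ne'⟩
  -- colours in `ZMod χ`
  obtain ⟨f⟩ : Nonempty (S ≃ ZMod χ) := by
    rw [← Fintype.card_eq, Fintype.card_coe, ZMod.card]
  let col : Fin n → ZMod χ := fun i => f ⟨c i, hcS i⟩
  have hcol : ∀ i j, w i j ≠ 0 → col i ≠ col j := by
    intro i j hij h
    have := f.injective h
    exact hcprop i j hij (congrArg Subtype.val this)
  let Mr : ZMod χ → ℝ := fun r => ∑ i, ∑ j, if col i + col j = r then w i j else 0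
  have hMsum : ∑ r, Mr r = total w := by
    simp only [Mr]
    rw [Finset.sum_comm, total]
    refine Finset.sum_congr rfl fun i _ => ?_
    rw [Finset.sum_comm]
    refine Finset.sum_congr rfl fun j _ => ?_
    simp
  obtain ⟨r, _, hr⟩ := Finset.exists_le_of_sum_le (s := (Finset.univ : Finset (ZMod χ)))
    (f := fun _ => total w / χ) (g := Mr) ⟨0, Finset.mem_univ _⟩ (by
      rw [hMsum, Finset.sum_const, Finset.card_univ, ZMod.card, nsmul_eq_mul]
      have : (χ : ℝ) ≠ 0 := by exact_mod_cast hχ0.ne'
      field_simp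
      exact le_rfl)
  -- blocks
  let rep : ZMod χ → ZMod χ := fun a => if a.val ≤ (r - a).val then a else r - a
  let sg : ZMod χ → ℝ := fun a => if a.val ≤ (r - a).val then 1 else -1
  have hsg : ∀ a, sg a = 1 ∨ sg a = -1 := by
    intro a
    simp only [sg]
    split_ifs
    · exact Or.inl rfl
    · exact Or.inr rfl
  have hrep1 : ∀ a b, a ≠ b → rep a = rep b → sg a * sg b = -1 := by
    intro a b hab h
    simp only [rep, sg] at *
    by_cases ha : a.val ≤ (r - a).val <;> by_cases hb : b.val ≤ (r - b).val
    · rw [if_pos ha, if_pos hb] at h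
      exact absurd h hab
    · rw [if_pos ha, if_neg hb]
      norm_num
    · rw [if_neg ha, if_pos hb]
      norm_num
    · rw [if_neg ha, if_neg hb] at h
      exact absurd (sub_right_injective h) hab
  have hrep2 : ∀ a b, a ≠ b → a + b = r → rep a = rep b := by
    intro a b hab h
    have h1 : r - a = b := by rw [← h]; ring
    have h2 : r - b = a := by rw [← h]; ring
    simp only [rep, h1, h2]
    have h3 : a.val ≠ b.val := fun h => hab (ZMod.val_injective χ h)
    rcases lt_or_gt_of_ne h3 with h4 | h4
    · rw [if_pos h4.le, if_neg (not_le.2 h4)]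
    · rw [if_neg (not_le.2 h4), if_pos h4.le]
  let y : ZMod χ → Fin n → ℝ := fun k i => if rep (col i) = k then sg (col i) else 0
  obtain ⟨s, hs, hle⟩ := sign_lemma w 0 Finset.univ y
  have hσ : ∀ i, (∑ k, s k • y k) i = s (rep (col i)) * sg (col i) := by
    intro i
    rw [Finset.sum_apply, Finset.sum_eq_single (rep (col i))]
    · simp [y]
    · intro k _ hk
      simp only [y, Pi.smul_apply, smul_eq_mul]
      rw [if_neg (Ne.symm hk), mul_zero]
    · intro h
      exact absurd (Finset.mem_univ _) h
  refine ⟨∑ k, s k • y k, fun i => ?_, ?_⟩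
  · rw [hσ]
    rcases hs (rep (col i)) with h1 | h1 <;> rcases hsg (col i) with h2 | h2 <;> rw [h1, h2] <;>
      norm_num
  · -- the sum over blocks is at least `Mr r`
    have h1 : Mr r ≤ ∑ k, -bil w (y k) (y k) := by
      have h2 : ∑ k, -bil w (y k) (y k) = ∑ i, ∑ j,
          (if rep (col i) = rep (col j) then -(w i j * (sg (col i) * sg (col j))) else 0) := by
        simp only [bil, ← Finset.sum_neg_distrib]
        rw [Finset.sum_comm]
        refine Finset.sum_congr rfl fun i _ => ?_
        rw [Finset.sum_comm]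
        refine Finset.sum_congr rfl fun j _ => ?_
        rw [Finset.sum_eq_single (rep (col i))]
        · simp only [y, if_true]
          by_cases h : rep (col i) = rep (col j)
          · rw [if_pos h.symm, if_pos h]
            ring
          · rw [if_neg (Ne.symm h), if_neg h]
            ring
        · intro k _ hk
          simp only [y]
          rw [if_neg (Ne.symm hk)]
          ring
        · intro h
          exact absurd (Finset.mem_univ _) h
      rw [h2]
      refine Finset.sum_le_sum fun i _ => Finset.sum_le_sum fun j _ => ?_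
      by_cases hij : w i j = 0
      · rw [hij]
        simp
      · have hne := hcol i j hij
        by_cases h3 : rep (col i) = rep (col j)
        · rw [if_pos h3, hrep1 _ _ hne h3]
          split_ifs
          · linarith
          · have := hw0 i j
            linarith
        · rw [if_neg h3, if_neg]
          exact fun h => h3 (hrep2 _ _ hne h)
    have h2 : √(total w) / 3 ≤ total w / χ := by
      have hχr : (0 : ℝ) < χ := by exact_mod_cast hχ0
      have hsq : √(total w) * √(total w) = total w := Real.mul_self_sqrt (by linarith)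
      have hs1 : 1 ≤ √(total w) := by
        rw [← Real.sqrt_one]
        exact Real.sqrt_le_sqrt hT1
      rw [div_le_div_iff₀ (by norm_num) hχr]
      -- `χ ≤ 3 √T`
      have h3 : (χ : ℝ) ≤ 3 * √(total w) := by
        by_contra hcon
        push Not at hcon
        have h4 : 0 < (χ : ℝ) - 1 := by linarith
        have h5 : 3 * √(total w) * (3 * √(total w) - 1) < χ * (χ - 1) := by
          apply mul_lt_mul'' hcon (by linarith) (by positivity) (by linarith)
        nlinarith
      calc √(total w) * χ ≤ √(total w) * (3 * √(total w)) :=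
            mul_le_mul_of_nonneg_left h3 (Real.sqrt_nonneg _)
        _ = total w * 3 := by rw [← hsq]; ring_nf; rw [Real.sq_sqrt]; positivity
    have h3 : (0 : (Fin n → ℝ) →ₗ[ℝ] ℝ) (∑ k, s k • y k) = 0 := rfl
    rw [h3] at hle
    linarith

end Edwards

section Tri

variable {n : ℕ}

/-- Weight of the arcs crossing the prefix `{i < t}`. -/
noncomputable def cr (w : Fin n → Fin n → ℝ) (t : Fin n) : ℝ :=
  ∑ i, ∑ j, if i < t ∧ t ≤ j then w i j else 0

theorem case_one (w : Fin n → Fin n → ℝ) (hw0 : ∀ i j, 0 ≤ w i j)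
    (htri : ∀ i j, w i j ≠ 0 → i < j) (hT : 0 < total w) (t : Fin n) :
    ∃ x : Fin n → ℝ, (∀ i, x i ∈ Set.Icc (-1 : ℝ) 1) ∧
      cr w t ^ 2 / total w ≤ ell w x - bil w x x := by
  classical
  set T := total w with hTdef
  set c := cr w t with hc
  have hc0 : 0 ≤ c := by
    rw [hc, cr]
    refine Finset.sum_nonneg fun i _ => Finset.sum_nonneg fun j _ => ?_
    split_ifs
    · exact hw0 i j
    · exact le_rfl
  have hcT : c ≤ T := by
    rw [hc, cr, hTdef, total]
    refine Finset.sum_le_sum fun i _ => Finset.sum_le_sum fun j _ => ?_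
    split_ifs
    · exact le_rfl
    · exact hw0 i j
  set δ := c / T with hδ
  have hδ0 : 0 ≤ δ := div_nonneg hc0 hT.le
  have hδ1 : δ ≤ 1 := (div_le_one hT).2 hcT
  set x : Fin n → ℝ := fun i => if i < t then δ else -δ with hx
  have hxx : ∀ i, x i = δ ∨ x i = -δ := by
    intro i
    simp only [hx]
    split_ifs
    · exact Or.inl rfl
    · exact Or.inr rfl
  refine ⟨x, fun i => ?_, ?_⟩
  · rcases hxx i with h | h <;> rw [h] <;> constructor <;> linarith
  · have hell : ell w x = 2 * δ * c := by
      rw [ell_apply, hc, cr, Finset.mul_sum]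
      refine Finset.sum_congr rfl fun i _ => ?_
      rw [Finset.mul_sum]
      refine Finset.sum_congr rfl fun j _ => ?_
      simp only [hx]
      by_cases hi : i < t <;> by_cases hj : j < t
      · rw [if_pos hi, if_pos hj, if_neg (fun h => absurd hj (not_lt.2 h.2))]
        ring
      · rw [if_pos hi, if_neg hj, if_pos ⟨hi, not_lt.1 hj⟩]
        ring
      · have : w i j = 0 := by
          by_contra h
          exact hi (lt_trans (htri i j h) hj)
        rw [this, if_neg (show ¬(i < t ∧ t ≤ j) from fun h => hi h.1)]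
        ring
      · rw [if_neg hi, if_neg hj, if_neg (show ¬(i < t ∧ t ≤ j) from fun h => hi h.1)]
        ring
    have hbil : bil w x x ≤ δ ^ 2 * T := by
      rw [bil, hTdef, total, Finset.mul_sum]
      refine Finset.sum_le_sum fun i _ => ?_
      rw [Finset.mul_sum]
      refine Finset.sum_le_sum fun j _ => ?_
      have h1 : x i * x j ≤ δ ^ 2 := by
        rcases hxx i with h | h <;> rcases hxx j with h' | h' <;> rw [h, h'] <;> nlinarith
      have h2 := mul_le_mul_of_nonneg_left h1 (hw0 i j)
      calc w i j * x i * x j = w i j * (x i * x j) := by ring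
        _ ≤ w i j * δ ^ 2 := h2
        _ = δ ^ 2 * w i j := by ring
    have h3 : c ^ 2 / T = 2 * δ * c - δ ^ 2 * T := by
      rw [hδ]
      field_simp
      ring
    rw [h3, hell]
    linarith

theorem case_two (w : Fin n → Fin n → ℝ) (hw : Weighted w)
    (htri : ∀ i j, w i j ≠ 0 → i < j) (hT : 0 < total w) (B : ℝ) (hB : 0 < B)
    (hcr : ∀ t, cr w t ≤ B) :
    ∃ x : Fin n → ℝ, (∀ i, x i ∈ Set.Icc (-1 : ℝ) 1) ∧
      total w / (4 * √(5 * B)) ≤ ell w x - bil w x x := by
  classical
  have hw0 : ∀ i j, 0 ≤ w i j := by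
    intro i j
    rcases hw i j with h | h
    · exact h.ge
    · linarith
  have hloop : ∀ i, w i i = 0 := by
    intro i
    by_contra h
    exact lt_irrefl _ (htri i i h)
  set T := total w with hTdef
  -- in-weights
  set inw : Fin n → ℝ := fun j => ∑ i, w i j with hinw
  have hinw0 : ∀ j, 0 ≤ inw j := fun j => Finset.sum_nonneg fun i _ => hw0 i j
  have hinwB : ∀ j, inw j ≤ B := by
    intro j
    refine le_trans ?_ (hcr j)
    rw [cr]
    simp only [hinw]
    refine Finset.sum_le_sum fun i _ => ?_
    by_cases hij : w i j = 0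
    · rw [hij]
      refine Finset.sum_nonneg fun j' _ => ?_
      split_ifs
      · exact hw0 _ _
      · exact le_rfl
    · have h1 : (if i < j ∧ j ≤ j then w i j else 0) ≤
          ∑ j', if i < j ∧ j ≤ j' then w i j' else 0 :=
        Finset.single_le_sum (f := fun j' => if i < j ∧ j ≤ j' then w i j' else 0)
          (fun j' _ => by
            split_ifs
            · exact hw0 _ _
            · exact le_rfl) (Finset.mem_univ j)
      rw [if_pos ⟨htri i j hij, le_rfl⟩] at h1
      exact h1
  have hTin : ∑ j, inw j = T := by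
    simp only [hinw]
    rw [Finset.sum_comm]
    rfl
  set g : Fin n → ℝ := fun j => ∑ k ∈ Finset.Iio j, inw k with hg
  have hg0 : ∀ j, 0 ≤ g j := fun j => Finset.sum_nonneg fun k _ => hinw0 k
  have hgmono : Monotone g := by
    intro a b hab
    exact Finset.sum_le_sum_of_subset_of_nonneg (Finset.Iio_subset_Iio hab) fun k _ _ => hinw0 k
  have hgT : ∀ j, g j ≤ T := by
    intro j
    rw [← hTin]
    exact Finset.sum_le_sum_of_subset_of_nonneg (Finset.subset_univ _) fun k _ _ => hinw0 k
  set H : ℝ := 4 * B with hH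
  have hH0 : 0 < H := by positivity
  set κ : Fin n → ℕ := fun j => ⌊g j / H⌋₊ with hκ
  set N : ℕ := ⌊T / H⌋₊ with hN
  have hκmono : Monotone κ := by
    intro a b hab
    exact Nat.floor_le_floor (div_le_div_of_nonneg_right (hgmono hab) hH0.le)
  have hκN : ∀ j, κ j ≤ N := by
    intro j
    exact Nat.floor_le_floor (div_le_div_of_nonneg_right (hgT j) hH0.le)
  have hκ1 : ∀ j, (κ j : ℝ) * H ≤ g j := by
    intro j
    have := Nat.floor_le (div_nonneg (hg0 j) hH0.le)
    rwa [le_div_iff₀ hH0] at this
  have hκ2 : ∀ j, g j < ((κ j : ℝ) + 1) * H := by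
    intro j
    have := Nat.lt_floor_add_one (g j / H)
    rwa [div_lt_iff₀ hH0] at this
  -- chunks
  let wq : ℕ → Fin n → Fin n → ℝ := fun q i j => if κ i = q ∧ κ j = q then w i j else 0
  have hwqW : ∀ q, Weighted (wq q) := by
    intro q i j
    simp only [wq]
    split_ifs
    · exact hw i j
    · exact Or.inl rfl
  have hwqL : ∀ q i, wq q i i = 0 := by
    intro q i
    simp only [wq]
    split_ifs
    · exact hloop i
    · rfl
  choose σ hσ hσE using fun q => edwards (wq q) (hwqW q) (hwqL q)
  let y : ℕ → Fin n → ℝ := fun q i => if κ i = q then σ q i else 0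
  have hyE : ∀ q, √(total (wq q)) / 3 ≤ -bil w (y q) (y q) := by
    intro q
    refine (hσE q).trans (le_of_eq ?_)
    congr 1
    simp only [bil]
    refine Finset.sum_congr rfl fun i _ => Finset.sum_congr rfl fun j _ => ?_
    simp only [wq, y]
    by_cases hi : κ i = q <;> by_cases hj : κ j = q <;> simp [hi, hj]
  obtain ⟨s, hs, hle⟩ := sign_lemma w (ell w) (Finset.range (N + 1)) y
  have hxval : ∀ i, (∑ k ∈ Finset.range (N + 1), s k • y k) i = s (κ i) * σ (κ i) i := by
    intro i
    rw [Finset.sum_apply, Finset.sum_eq_single (κ i)]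
    · simp [y]
    · intro k _ hk
      simp only [y, Pi.smul_apply, smul_eq_mul]
      rw [if_neg (Ne.symm hk), mul_zero]
    · intro h
      exact absurd (Finset.mem_range.2 (Nat.lt_succ_of_le (hκN i))) h
  refine ⟨∑ k ∈ Finset.range (N + 1), s k • y k, fun i => ?_, ?_⟩
  · rw [hxval]
    rcases hs (κ i) with h1 | h1 <;> rcases hσ (κ i) i with h2 | h2 <;> rw [h1, h2] <;>
      constructor <;> norm_num
  -- upper bound for the chunk weights
  have hWle : ∀ q, total (wq q) ≤ 5 * B := by
    intro q
    have h1 : total (wq q) ≤ ∑ j ∈ Finset.univ.filter (fun j => κ j = q), inw j := by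
      rw [total, Finset.sum_comm, Finset.sum_filter]
      refine Finset.sum_le_sum fun j _ => ?_
      simp only [wq, hinw]
      split_ifs with hj
      · refine Finset.sum_le_sum fun i _ => ?_
        split_ifs
        · exact le_rfl
        · exact hw0 i j
      · refine (Finset.sum_eq_zero fun i _ => ?_).le
        rw [if_neg]
        exact fun h => hj h.2
    refine h1.trans ?_
    rcases (Finset.univ.filter (fun j => κ j = q)).eq_empty_or_nonempty with hE | hE
    · rw [hE, Finset.sum_empty]
      positivity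
    · set S := Finset.univ.filter (fun j => κ j = q) with hS
      set j0 := S.min' hE with hj0
      set j1 := S.max' hE with hj1
      have hj0S : κ j0 = q := (Finset.mem_filter.1 (S.min'_mem hE)).2
      have hj1S : κ j1 = q := (Finset.mem_filter.1 (S.max'_mem hE)).2
      have h01 : j0 ≤ j1 := S.min'_le _ (S.max'_mem hE)
      have hsub : S ⊆ insert j1 (Finset.Iio j1 \ Finset.Iio j0) := by
        intro j hj
        rw [Finset.mem_insert, Finset.mem_sdiff, Finset.mem_Iio, Finset.mem_Iio]
        have h2 := S.min'_le j hj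
        have h3 := S.le_max' j hj
        rcases eq_or_lt_of_le h3 with h4 | h4
        · exact Or.inl h4
        · exact Or.inr ⟨h4, not_lt.2 h2⟩
      have h2 : ∑ j ∈ S, inw j ≤ inw j1 + ∑ j ∈ Finset.Iio j1 \ Finset.Iio j0, inw j := by
        refine (Finset.sum_le_sum_of_subset_of_nonneg hsub fun k _ _ => hinw0 k).trans ?_
        rw [Finset.sum_insert]
        simp
      have h3 : ∑ j ∈ Finset.Iio j1 \ Finset.Iio j0, inw j = g j1 - g j0 := by
        have h4 := Finset.sum_sdiff (f := inw) (Finset.Iio_subset_Iio h01)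
        simp only [hg]
        linarith
      have h4 := hκ2 j1
      have h5 := hκ1 j0
      rw [hj1S] at h4
      rw [hj0S] at h5
      have h6 := hinwB j1
      rw [hH] at h4 h5
      linarith
  -- lower bound for the sum of the chunk weights
  have hWsum : 3 / 4 * T ≤ ∑ q ∈ Finset.range (N + 1), total (wq q) := by
    have h1 : ∑ q ∈ Finset.range (N + 1), total (wq q) =
        ∑ i, ∑ j, if κ i = κ j then w i j else 0 := by
      simp only [total, wq]
      rw [Finset.sum_comm]
      refine Finset.sum_congr rfl fun i _ => ?_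
      rw [Finset.sum_comm]
      refine Finset.sum_congr rfl fun j _ => ?_
      rw [Finset.sum_eq_single (κ i)]
      · by_cases h : κ i = κ j
        · rw [if_pos ⟨rfl, h.symm⟩, if_pos h]
        · rw [if_neg (fun h' => h h'.2.symm), if_neg h]
      · intro q _ hq
        rw [if_neg]
        exact fun h => hq h.1.symm
      · intro h
        exact absurd (Finset.mem_range.2 (Nat.lt_succ_of_le (hκN i))) h
    have h2 : T - ∑ q ∈ Finset.range (N + 1), total (wq q) =
        ∑ q ∈ Finset.Icc 1 N, ∑ i, ∑ j, if κ i < q ∧ κ j = q then w i j else 0 := by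
      rw [h1, hTdef, total, ← Finset.sum_sub_distrib, Finset.sum_comm]
      refine Finset.sum_congr rfl fun i _ => ?_
      rw [← Finset.sum_sub_distrib, Finset.sum_comm]
      refine Finset.sum_congr rfl fun j _ => ?_
      by_cases hij : w i j = 0
      · simp [hij]
      · have hle : κ i ≤ κ j := hκmono (htri i j hij).le
        rcases eq_or_lt_of_le hle with h | h
        · rw [if_pos h, sub_self]
          symm
          refine Finset.sum_eq_zero fun q _ => ?_
          rw [if_neg]
          rintro ⟨h3, h4⟩
          omega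
        · rw [if_neg h.ne, sub_zero, Finset.sum_eq_single (κ j)]
          · rw [if_pos ⟨h, rfl⟩]
          · intro q _ hq
            rw [if_neg]
            exact fun h' => hq h'.2.symm
          · intro h'
            exact absurd (Finset.mem_Icc.2 ⟨by omega, hκN j⟩) h'
    have h3 : ∀ q ∈ Finset.Icc 1 N,
        (∑ i, ∑ j, if κ i < q ∧ κ j = q then w i j else 0) ≤ B := by
      intro q _
      by_cases hE : ∃ j, κ j = q
      · obtain ⟨j', hj'⟩ := hE
        have hne : (Finset.univ.filter (fun j => q ≤ κ j)).Nonempty :=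
          ⟨j', Finset.mem_filter.2 ⟨Finset.mem_univ _, hj'.ge⟩⟩
        set t := (Finset.univ.filter (fun j => q ≤ κ j)).min' hne with ht
        have htq : q ≤ κ t := (Finset.mem_filter.1 (Finset.min'_mem _ hne)).2
        refine le_trans ?_ (hcr t)
        rw [cr]
        refine Finset.sum_le_sum fun i _ => Finset.sum_le_sum fun j _ => ?_
        by_cases h : κ i < q ∧ κ j = q
        · rw [if_pos h, if_pos]
          constructor
          · by_contra hcon
            have := hκmono (not_lt.1 hcon)
            omega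
          · exact Finset.min'_le _ j (Finset.mem_filter.2 ⟨Finset.mem_univ j, h.2.ge⟩)
        · rw [if_neg h]
          split_ifs
          · exact hw0 i j
          · exact le_rfl
      · push Not at hE
        refine le_trans (le_of_eq ?_) hB.le
        refine Finset.sum_eq_zero fun i _ => Finset.sum_eq_zero fun j _ => ?_
        rw [if_neg]
        exact fun h => hE j h.2
    have h4 := Finset.sum_le_sum h3
    rw [← h2, Finset.sum_const, Nat.card_Icc, nsmul_eq_mul, Nat.add_sub_cancel] at h4
    have h5 : (N : ℝ) * B ≤ T / 4 := by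
      have h6 : (N : ℝ) ≤ T / H := Nat.floor_le (div_nonneg hT.le hH0.le)
      rw [le_div_iff₀ hH0, hH] at h6
      linarith
    linarith
  -- conclusion
  have h5B : 0 < √(5 * B) := Real.sqrt_pos.2 (by positivity)
  have hsq : ∀ q, total (wq q) / √(5 * B) ≤ √(total (wq q)) := by
    intro q
    have h0 : 0 ≤ total (wq q) := by
      rw [total]
      refine Finset.sum_nonneg fun i _ => Finset.sum_nonneg fun j _ => ?_
      simp only [wq]
      split_ifs
      · exact hw0 i j
      · exact le_rfl
    rw [div_le_iff₀ h5B]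
    calc total (wq q) = √(total (wq q)) * √(total (wq q)) := (Real.mul_self_sqrt h0).symm
      _ ≤ √(total (wq q)) * √(5 * B) :=
        mul_le_mul_of_nonneg_left (Real.sqrt_le_sqrt (hWle q)) (Real.sqrt_nonneg _)
  calc total w / (4 * √(5 * B)) = (3 / 4 * T) / √(5 * B) / 3 := by
        rw [hTdef]
        field_simp
    _ ≤ (∑ q ∈ Finset.range (N + 1), total (wq q)) / √(5 * B) / 3 := by
        apply div_le_div_of_nonneg_right _ (by norm_num)
        exact div_le_div_of_nonneg_right hWsum h5B.le
    _ = ∑ q ∈ Finset.range (N + 1), total (wq q) / √(5 * B) / 3 := by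
        rw [Finset.sum_div, Finset.sum_div]
    _ ≤ ∑ q ∈ Finset.range (N + 1), √(total (wq q)) / 3 :=
        Finset.sum_le_sum fun q _ => div_le_div_of_nonneg_right (hsq q) (by norm_num)
    _ ≤ ∑ q ∈ Finset.range (N + 1), -bil w (y q) (y q) := Finset.sum_le_sum fun q _ => hyE q
    _ ≤ _ := hle

theorem lower_tri (w : Fin n → Fin n → ℝ) (hw : Weighted w)
    (htri : ∀ i j, w i j ≠ 0 → i < j) :
    total w / 4 + 1 / 36 * total w ^ (3 / 5 : ℝ) ≤ mac w := by
  classical
  have hw0 : ∀ i j, 0 ≤ w i j := by
    intro i j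
    rcases hw i j with h | h
    · exact h.ge
    · linarith
  have hloop : ∀ i, w i i = 0 := by
    intro i
    by_contra h
    exact lt_irrefl _ (htri i i h)
  have hT0 : 0 ≤ total w := Finset.sum_nonneg fun i _ => Finset.sum_nonneg fun j _ => hw0 i j
  rcases eq_or_lt_of_le hT0 with hT | hT
  · rw [← hT, Real.zero_rpow (by norm_num)]
    have := dicut_le_mac w ∅
    simp only [dicut, Finset.sum_empty] at this
    linarith
  set T := total w with hTdef
  obtain ⟨x, hx, hxQ⟩ : ∃ x : Fin n → ℝ, (∀ i, x i ∈ Set.Icc (-1 : ℝ) 1) ∧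
      T ^ (3 / 5 : ℝ) / 9 ≤ ell w x - bil w x x := by
    by_cases hc : ∃ t, T ^ (4 / 5 : ℝ) ≤ cr w t
    · obtain ⟨t, ht⟩ := hc
      obtain ⟨x, hx, hxQ⟩ := case_one w hw0 htri hT t
      refine ⟨x, hx, le_trans ?_ hxQ⟩
      have h1 : (T ^ (4 / 5 : ℝ)) ^ 2 / T ≤ cr w t ^ 2 / T := by
        apply div_le_div_of_nonneg_right _ hT.le
        exact pow_le_pow_left₀ (by positivity) ht 2
      refine le_trans ?_ h1
      have h2 : (T ^ (4 / 5 : ℝ)) ^ 2 / T = T ^ (3 / 5 : ℝ) := by
        rw [← Real.rpow_natCast, ← Real.rpow_mul hT.le]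
        nth_rewrite 2 [← Real.rpow_one T]
        rw [← Real.rpow_sub hT]
        norm_num
      rw [h2]
      have : 0 < T ^ (3 / 5 : ℝ) := Real.rpow_pos_of_pos hT _
      linarith
    · push Not at hc
      have hB : 0 < T ^ (4 / 5 : ℝ) := Real.rpow_pos_of_pos hT _
      obtain ⟨x, hx, hxQ⟩ := case_two w hw htri hT (T ^ (4 / 5 : ℝ)) hB fun t => (hc t).le
      refine ⟨x, hx, le_trans ?_ hxQ⟩
      have h1 : √(5 * T ^ (4 / 5 : ℝ)) = √5 * T ^ (2 / 5 : ℝ) := by
        rw [Real.sqrt_mul (by norm_num)]
        congr 1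
        rw [Real.sqrt_eq_rpow, ← Real.rpow_mul hT.le]
        norm_num
      have h2 : 0 < T ^ (2 / 5 : ℝ) := Real.rpow_pos_of_pos hT _
      have h3 : 0 < T ^ (3 / 5 : ℝ) := Real.rpow_pos_of_pos hT _
      have h4 : T ^ (3 / 5 : ℝ) * T ^ (2 / 5 : ℝ) = T := by
        rw [← Real.rpow_add hT]
        norm_num
      have h5 : √5 ≤ 9 / 4 := by
        rw [Real.sqrt_le_left (by norm_num)]
        norm_num
      have h6 : 0 < √5 := by positivity
      rw [h1, ← hTdef, div_le_div_iff₀ (by norm_num) (by positivity)]
      calc T ^ (3 / 5 : ℝ) * (4 * (√5 * T ^ (2 / 5 : ℝ))) =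
          4 * √5 * (T ^ (3 / 5 : ℝ) * T ^ (2 / 5 : ℝ)) := by ring
        _ = 4 * √5 * T := by rw [h4]
        _ ≤ T * 9 := by nlinarith
  have := mac_ge' w hloop x hx
  rw [← hTdef] at this
  linarith

end Tri

section Relabel

variable {n : ℕ}

theorem exists_topological (w : Fin n → Fin n → ℝ) (hac : Acyclic w) :
    ∃ e : Fin n ≃ Fin n, ∀ i j, w i j ≠ 0 → e i < e j := by
  classical
  let r : Fin n → Fin n → Prop := Relation.ReflTransGen (fun a b => w a b ≠ 0)
  have hr : IsPartialOrder (Fin n) r :=
    { refl := fun a => Relation.ReflTransGen.refl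
      trans := fun a b c h1 h2 => h1.trans h2
      antisymm := by
        intro a b h1 h2
        rcases Relation.reflTransGen_iff_eq_or_transGen.1 h1 with h | h
        · exact h.symm
        · exact absurd (h.trans_left h2) (hac a) }
  obtain ⟨s, hs, hrs⟩ := extend_partialOrder r
  have hsr : ∀ a, s a a := fun a => hs.refl a
  have hst : ∀ a b c, s a b → s b c → s a c := fun a b c => hs.trans a b c
  have hsa : ∀ a b, s a b → s b a → a = b := fun a b => hs.antisymm a b
  have hstot : ∀ a b, s a b ∨ s b a := fun a b => hs.total a b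
  let rk : Fin n → ℕ := fun a => (Finset.univ.filter fun b => s b a ∧ b ≠ a).card
  have hlt : ∀ a b, s a b → a ≠ b → rk a < rk b := by
    intro a b hab hne
    apply Finset.card_lt_card
    rw [Finset.ssubset_iff_of_subset]
    · refine ⟨a, Finset.mem_filter.2 ⟨Finset.mem_univ _, hab, hne⟩, ?_⟩
      simp
    · intro c hc
      rw [Finset.mem_filter] at hc ⊢
      refine ⟨Finset.mem_univ _, hst _ _ _ hc.2.1 hab, ?_⟩
      rintro rfl
      exact hc.2.2 (hsa _ _ hc.2.1 hab)
  have hn : ∀ a, rk a < n := by
    intro a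
    have h1 : (Finset.univ.filter fun b => s b a ∧ b ≠ a) ⊂ Finset.univ := by
      rw [Finset.ssubset_iff_of_subset (Finset.subset_univ _)]
      exact ⟨a, Finset.mem_univ _, by simp⟩
    have h2 := Finset.card_lt_card h1
    rwa [Finset.card_univ, Fintype.card_fin] at h2
  let f : Fin n → Fin n := fun a => ⟨rk a, hn a⟩
  have hf : Function.Injective f := by
    intro a b hab
    by_contra hne
    have h1 : rk a = rk b := congrArg Fin.val hab
    rcases hstot a b with h | h
    · have := hlt a b h hne
      omega
    · have := hlt b a h (Ne.symm hne)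
      omega
  refine ⟨Equiv.ofBijective f (Finite.injective_iff_bijective.1 hf), fun i j hij => ?_⟩
  have h1 : s i j := hrs i j (Relation.ReflTransGen.single hij)
  have h2 : i ≠ j := by
    rintro rfl
    exact hac i (Relation.TransGen.single hij)
  exact hlt i j h1 h2

end Relabel

end Pool.Agent.Lib.MP_7cecc1_co.Lower

namespace Pool.Agent.Lib.MP_7cecc1_co

open Finset

/-- **Lower bound.** -/
theorem lower_bound : ∃ k : ℝ, 0 < k ∧ ∀ (n : ℕ) (w : Fin n → Fin n → ℝ), Weighted w →
    Acyclic w → total w / 4 + k * total w ^ (3 / 5 : ℝ) ≤ mac w := by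
  classical
  refine ⟨1 / 36, by norm_num, fun n w hw hac => ?_⟩
  obtain ⟨e, he⟩ := Lower.exists_topological w hac
  set w' : Fin n → Fin n → ℝ := fun a b => w (e.symm a) (e.symm b) with hw'
  have h1 := Lower.lower_tri w' (fun a b => hw _ _) (fun a b hab => by
    have := he _ _ hab
    simpa using this)
  have h2 : total w' = total w := by
    simp only [total, hw']
    rw [Equiv.sum_comp e.symm (fun a => ∑ b, w a (e.symm b))]
    refine Finset.sum_congr rfl fun a _ => ?_
    exact Equiv.sum_comp e.symm (fun b => w a b)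
  have h3 : mac w' ≤ mac w := by
    refine mac_le fun X => ?_
    refine le_trans (le_of_eq ?_) (dicut_le_mac w (X.map e.symm.toEmbedding))
    rw [dicut, dicut, Finset.sum_map]
    refine Finset.sum_congr rfl fun a _ => ?_
    have h4 : (X.map e.symm.toEmbedding)ᶜ = Xᶜ.map e.symm.toEmbedding := by
      ext b
      simp
    rw [h4, Finset.sum_map]
    rfl
  rw [h2] at h1
  exact h1.trans h3

end Pool.Agent.Lib.MP_7cecc1_co
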