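import Pool.Agent.Lib.MP_7cecc1_co.Defs

namespace Pool.Agent.Lib.MP_7cecc1_co

open Finset

/-- A digraph given on a finite set `E`, increasing for some rank function, is an acyclic digraph
on some `Fin n`; directed cuts are read off from sign functions. -/
theorem transport {α : Type} [DecidableEq α] (E : Finset α) (W : α → α → ℝ) (ρ : α → ℤ)
    (hρ : ∀ u ∈ E, ∀ v ∈ E, W u v ≠ 0 → ρ u < ρ v) :
    ∃ w : Fin E.card → Fin E.card → ℝ, Acyclic w ∧ total w = ∑ u ∈ E, ∑ v ∈ E, W u v ∧
      (∀ c : ℝ, (∀ x : α → ℝ, (∀ a, x a = 1 ∨ x a = -1) →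
        ∑ u ∈ E, ∑ v ∈ E, W u v * ((1 + x u) * (1 - x v) / 4) ≤ c) → mac w ≤ c) ∧
      (∀ i j, ∃ u ∈ E, ∃ v ∈ E, w i j = W u v) := by
  classical
  set e : Fin E.card ≃ E := E.equivFin.symm with he
  refine ⟨fun i j => W (e i) (e j), ?_, ?_, ?_, ?_⟩
  · intro v hv
    have key : ∀ a b, Relation.TransGen (fun a b : Fin E.card => W (e a) (e b) ≠ 0) a b →
        ρ (e a) < ρ (e b) := by
      intro a b hab
      induction hab with
      | single h => exact hρ _ (e _).2 _ (e _).2 h
      | tail _ h ih => exact ih.trans (hρ _ (e _).2 _ (e _).2 h)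
    exact lt_irrefl _ (key v v hv)
  · unfold total
    rw [← Finset.sum_coe_sort E]
    rw [← e.sum_comp]
    refine Finset.sum_congr rfl fun i _ => ?_
    rw [← Finset.sum_coe_sort E, ← e.sum_comp]
  · intro c hc
    refine mac_le fun X => ?_
    set x : α → ℝ := fun a => if h : a ∈ E then (if e.symm ⟨a, h⟩ ∈ X then 1 else -1) else 1 with hx
    have hx1 : ∀ a, x a = 1 ∨ x a = -1 := by
      intro a
      simp only [hx]
      split_ifs <;> simp
    have hxe : ∀ i, x (e i) = if i ∈ X then 1 else -1 := by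
      intro i
      simp only [hx]
      rw [dif_pos (e i).2]
      simp
    refine le_trans (le_of_eq ?_) (hc x hx1)
    rw [← Finset.sum_coe_sort E, ← e.sum_comp]
    unfold dicut
    rw [← Finset.sum_filter_add_sum_filter_not (univ : Finset (Fin E.card)) (fun i => i ∈ X)]
    have h2 : ∑ i ∈ univ.filter (fun i : Fin E.card => ¬ i ∈ X), ∑ v ∈ E,
        W (e i) v * ((1 + x (e i)) * (1 - x v) / 4) = 0 := by
      refine Finset.sum_eq_zero fun i hi => ?_
      have hi' : i ∉ X := by simpa using hi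
      refine Finset.sum_eq_zero fun v _ => ?_
      rw [hxe, if_neg hi']
      ring
    rw [h2, add_zero]
    have h3 : (univ.filter fun i : Fin E.card => i ∈ X) = X := by
      ext i; simp
    rw [h3]
    refine Finset.sum_congr rfl fun i hi => ?_
    rw [← Finset.sum_coe_sort E, ← e.sum_comp]
    rw [← Finset.sum_filter_add_sum_filter_not (univ : Finset (Fin E.card)) (fun i => i ∈ X)]
    have h4 : ∑ j ∈ univ.filter (fun j : Fin E.card => j ∈ X),
        W (e i) (e j) * ((1 + x (e i)) * (1 - x (e j)) / 4) = 0 := by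
      refine Finset.sum_eq_zero fun j hj => ?_
      have hj' : j ∈ X := by simpa using hj
      rw [hxe j, if_pos hj']
      ring
    rw [h4, zero_add]
    have h5 : (univ.filter fun j : Fin E.card => ¬ j ∈ X) = Xᶜ := by
      ext j; simp
    rw [h5]
    refine Finset.sum_congr rfl fun j hj => ?_
    have hj' : j ∉ X := by simpa using hj
    rw [hxe i, hxe j, if_pos hi, if_neg hj']
    ring
  · intro i j
    exact ⟨_, (e i).2, _, (e j).2, rfl⟩

/-- Algebraic form of the cut value. -/
theorem cut_expand {α : Type} (E : Finset α) (W : α → α → ℝ) (x : α → ℝ) :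
    ∑ u ∈ E, ∑ v ∈ E, W u v * ((1 + x u) * (1 - x v) / 4) =
      (∑ u ∈ E, ∑ v ∈ E, W u v) / 4 +
      (∑ u ∈ E, ∑ v ∈ E, W u v * (x u - x v) - ∑ u ∈ E, ∑ v ∈ E, W u v * (x u * x v)) / 4 := by
  rw [← Finset.sum_sub_distrib, Finset.sum_div, Finset.sum_div, ← Finset.sum_add_distrib]
  refine Finset.sum_congr rfl fun u _ => ?_
  rw [← Finset.sum_sub_distrib, Finset.sum_div, Finset.sum_div, ← Finset.sum_add_distrib]
  refine Finset.sum_congr rfl fun v _ => ?_
  ring

end Pool.Agent.Lib.MP_7cecc1_co
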